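import Mathlib
import Pool.Agent.V1149.Labeling.Basic

/-!
# Books: the criterion for super edge-magic labelings
-/

namespace Pool.Agent.V1149.Books

open Pool.Agent.V1149.Labeling SimpleGraph

/-- The book with `n` pages: the Cartesian product of the star `K_{1,n}` and an edge `K_2`. -/
def book (n : ℕ) : SimpleGraph ((Fin 1 ⊕ Fin n) × Fin 2) :=
  (completeBipartiteGraph (Fin 1) (Fin n)).boxProd (⊤ : SimpleGraph (Fin 2))

lemma adj_spine (n : ℕ) : (book n).Adj (Sum.inl 0, 0) (Sum.inl 0, 1) := by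
  simp [book, boxProd_adj]

lemma adj_page (n : ℕ) (i : Fin n) : (book n).Adj (Sum.inr i, 0) (Sum.inr i, 1) := by
  simp [book, boxProd_adj]

lemma adj_star (n : ℕ) (i : Fin n) (c : Fin 2) :
    (book n).Adj (Sum.inl 0, c) (Sum.inr i, c) := by
  simp [book, boxProd_adj]

/-- The edges of the book, enumerated. -/
def edgeMap (n : ℕ) : Fin 1 ⊕ (Fin n × Fin 3) → (book n).edgeSet
  | Sum.inl _ => ⟨s((Sum.inl 0, 0), (Sum.inl 0, 1)), adj_spine n⟩
  | Sum.inr (i, 0) => ⟨s((Sum.inl 0, 0), (Sum.inr i, 0)), adj_star n i 0⟩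
  | Sum.inr (i, 1) => ⟨s((Sum.inl 0, 1), (Sum.inr i, 1)), adj_star n i 1⟩
  | Sum.inr (i, 2) => ⟨s((Sum.inr i, 0), (Sum.inr i, 1)), adj_page n i⟩

lemma edgeMap_surj (n : ℕ) : Function.Surjective (edgeMap n) := by
  rintro ⟨e, he⟩
  induction e using Sym2.ind with
  | _ u v =>
    rw [mem_edgeSet] at he
    obtain ⟨u1, u2⟩ := u
    obtain ⟨v1, v2⟩ := v
    rcases boxProd_adj.1 he with ⟨h1, h2⟩ | ⟨h1, h2⟩
    · simp only at h1 h2
      subst h2
      rcases u1 with a | i <;> rcases v1 with b | j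
      · simp at h1
      · have ha : a = 0 := Subsingleton.elim _ _
        subst ha
        fin_cases u2
        · exact ⟨Sum.inr (j, 0), rfl⟩
        · exact ⟨Sum.inr (j, 1), rfl⟩
      · have hb : b = 0 := Subsingleton.elim _ _
        subst hb
        fin_cases u2
        · exact ⟨Sum.inr (i, 0), Subtype.ext Sym2.eq_swap⟩
        · exact ⟨Sum.inr (i, 1), Subtype.ext Sym2.eq_swap⟩
      · simp at h1
    · simp only at h1 h2
      subst h2
      have hne : u2 ≠ v2 := h1
      rcases u1 with a | i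
      · have ha : a = 0 := Subsingleton.elim _ _
        subst ha
        fin_cases u2 <;> fin_cases v2
        · exact absurd rfl hne
        · exact ⟨Sum.inl 0, rfl⟩
        · exact ⟨Sum.inl 0, Subtype.ext Sym2.eq_swap⟩
        · exact absurd rfl hne
      · fin_cases u2 <;> fin_cases v2
        · exact absurd rfl hne
        · exact ⟨Sum.inr (i, 2), rfl⟩
        · exact ⟨Sum.inr (i, 2), Subtype.ext Sym2.eq_swap⟩
        · exact absurd rfl hne

lemma card_edges (n : ℕ) : Nat.card (book n).edgeSet ≤ 3 * n + 1 := by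
  have h := Nat.card_le_card_of_surjective (edgeMap n) (edgeMap_surj n)
  have h2 : Nat.card (Fin 1 ⊕ (Fin n × Fin 3)) = 3 * n + 1 := by
    rw [Nat.card_eq_fintype_card, Fintype.card_sum, Fintype.card_prod, Fintype.card_fin,
      Fintype.card_fin, Fintype.card_fin]
    ring
  rw [h2] at h
  exact h

lemma card_verts (n : ℕ) : Nat.card ((Fin 1 ⊕ Fin n) × Fin 2) = 2 * n + 2 := by
  rw [Nat.card_eq_fintype_card, Fintype.card_prod, Fintype.card_sum, Fintype.card_fin,
    Fintype.card_fin, Fintype.card_fin]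
  ring

/-- The criterion: a list `L` of `n` pairs (the pages) and the two spine labels `a, b`. -/
theorem book_sem (n a b s : ℕ) (L : List (ℕ × ℕ)) (hL : L.length = n)
    (H1 : ∀ z, 1 ≤ z → z ≤ 2 * n + 2 → z = a ∨ z = b ∨
      ∃ x y, (x, y) ∈ L ∧ (x = z ∨ y = z))
    (H2 : ∀ z, s ≤ z → z ≤ s + 3 * n → a + b = z ∨
      ∃ x y, (x, y) ∈ L ∧ (a + x = z ∨ b + y = z ∨ x + y = z)) :
    IsSuperEdgeMagic (book n) := by
  classical
  let g : (Fin 1 ⊕ Fin n) × Fin 2 → ℕ := fun v =>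
    match v with
    | (Sum.inl _, c) => if c = 0 then a else b
    | (Sum.inr i, c) => if c = 0 then (L.get (i.cast hL.symm)).1 else (L.get (i.cast hL.symm)).2
  have key : ∀ x y, (x, y) ∈ L → ∃ i : Fin n, g (Sum.inr i, 0) = x ∧ g (Sum.inr i, 1) = y := by
    intro x y h
    obtain ⟨j, hj⟩ := List.mem_iff_get.1 h
    refine ⟨j.cast hL, ?_, ?_⟩
    · show (if (0 : Fin 2) = 0 then (L.get ((j.cast hL).cast hL.symm)).1 else _) = x
      rw [if_pos rfl]
      have : (j.cast hL).cast hL.symm = j := rfl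
      rw [this, hj]
    · show (if (1 : Fin 2) = 0 then _ else (L.get ((j.cast hL).cast hL.symm)).2) = y
      rw [if_neg (by decide)]
      have : (j.cast hL).cast hL.symm = j := rfl
      rw [this, hj]
  refine sem_of (book n) g (2 * n + 2) s (3 * n + 1) (card_verts n).le (card_edges n) ?_ ?_
  · intro z h1 h2
    rcases H1 z h1 (by omega) with h | h | ⟨x, y, hm, h⟩
    · exact ⟨(Sum.inl 0, 0), by simp [g, h]⟩
    · exact ⟨(Sum.inl 0, 1), by simp [g, h]⟩
    · obtain ⟨i, hx, hy⟩ := key x y hm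
      rcases h with h | h
      · exact ⟨(Sum.inr i, 0), hx.trans h⟩
      · exact ⟨(Sum.inr i, 1), hy.trans h⟩
  · intro z h1 h2
    rcases H2 z h1 (by omega) with h | ⟨x, y, hm, h⟩
    · exact ⟨(Sum.inl 0, 0), (Sum.inl 0, 1), adj_spine n, by simpa [g] using h⟩
    · obtain ⟨i, hx, hy⟩ := key x y hm
      rcases h with h | h | h
      · exact ⟨(Sum.inl 0, 0), (Sum.inr i, 0), adj_star n i 0, by rw [hx]; simpa [g] using h⟩
      · exact ⟨(Sum.inl 0, 1), (Sum.inr i, 1), adj_star n i 1, by rw [hy]; simpa [g] using h⟩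
      · exact ⟨(Sum.inr i, 0), (Sum.inr i, 1), adj_page n i, by rw [hx, hy]; exact h⟩

/-- Pages `(x0 + 2 q, y0 - q)`. -/
def runA (x0 y0 T : ℕ) : List (ℕ × ℕ) := (List.range T).map fun q => (x0 + 2 * q, y0 - q)

/-- Pages `(x0 - q, y0 + 2 q)`. -/
def runB (x0 y0 T : ℕ) : List (ℕ × ℕ) := (List.range T).map fun q => (x0 - q, y0 + 2 * q)

/-- Pages `(x0 + q, y0 + q)`. -/
def runC (x0 y0 T : ℕ) : List (ℕ × ℕ) := (List.range T).map fun q => (x0 + q, y0 + q)

lemma memA {x0 y0 T q : ℕ} (h : q < T) : (x0 + 2 * q, y0 - q) ∈ runA x0 y0 T :=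
  List.mem_map.2 ⟨q, List.mem_range.2 h, rfl⟩

lemma memB {x0 y0 T q : ℕ} (h : q < T) : (x0 - q, y0 + 2 * q) ∈ runB x0 y0 T :=
  List.mem_map.2 ⟨q, List.mem_range.2 h, rfl⟩

lemma memC {x0 y0 T q : ℕ} (h : q < T) : (x0 + q, y0 + q) ∈ runC x0 y0 T :=
  List.mem_map.2 ⟨q, List.mem_range.2 h, rfl⟩

@[simp] lemma lenA (x0 y0 T : ℕ) : (runA x0 y0 T).length = T := by simp [runA]
@[simp] lemma lenB (x0 y0 T : ℕ) : (runB x0 y0 T).length = T := by simp [runB]
@[simp] lemma lenC (x0 y0 T : ℕ) : (runC x0 y0 T).length = T := by simp [runC]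

/-- Boolean check of the criterion for explicit lists. -/
def chk (n a b s : ℕ) (L : List (ℕ × ℕ)) : Bool :=
  (L.length == n) &&
  (List.range (2 * n + 2)).all (fun w => (w + 1 == a) || (w + 1 == b) ||
    L.any (fun p => (p.1 == w + 1) || (p.2 == w + 1))) &&
  (List.range (3 * n + 1)).all (fun w => (a + b == s + w) ||
    L.any (fun p => (a + p.1 == s + w) || (b + p.2 == s + w) || (p.1 + p.2 == s + w)))

theorem sem_of_chk (n a b s : ℕ) (L : List (ℕ × ℕ)) (h : chk n a b s L = true) :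
    IsSuperEdgeMagic (book n) := by
  simp only [chk, Bool.and_eq_true, beq_iff_eq, List.all_eq_true, List.mem_range,
    Bool.or_eq_true, List.any_eq_true] at h
  obtain ⟨⟨h0, h1⟩, h2⟩ := h
  refine book_sem n a b s L h0 ?_ ?_
  · intro z hz1 hz2
    rcases h1 (z - 1) (by omega) with (h | h) | ⟨⟨x, y⟩, hm, h⟩
    · left; omega
    · right; left; omega
    · right; right
      refine ⟨x, y, hm, ?_⟩
      simp only at h
      omega
  · intro z hz1 hz2
    rcases h2 (z - s) (by omega) with h | ⟨⟨x, y⟩, hm, h⟩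
    · left; omega
    · right
      refine ⟨x, y, hm, ?_⟩
      simp only at h
      omega

end Pool.Agent.V1149.Books
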