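import Mathlib
import Pool.Agent.V1149.Books.Basic

/-!
# An explicit family of super edge-magic labelings of books (n = 12 * t + 24)
-/

namespace Pool.Agent.V1149.Books

open Pool.Agent.V1149.Labeling SimpleGraph


/-- The pages of the labeling `LE0`. -/
def LE0 (t : ℕ) : List (ℕ × ℕ) :=
  runA (6 * t + 16) (18 * t + 36) (2 * t + 2) ++ (
  runA (6 * t + 17) (22 * t + 43) (2 * t + 1) ++ (
  runB (6 * t + 14) (1) (2 * t + 4) ++ (
  runB (14 * t + 29) (2) (2 * t + 3) ++ (
  runC (14 * t + 31) (18 * t + 38) (2 * t + 3) ++ (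
  runC (22 * t + 46) (10 * t + 22) (2 * t + 4) ++ (
  [(4 * t + 10, 22 * t + 44), (6 * t + 15, 10 * t + 19), (10 * t + 20, 4 * t + 8), (10 * t + 21, 20 * t + 41), (12 * t + 26, 18 * t + 37), (14 * t + 30, 22 * t + 45), (24 * t + 50, 16 * t + 34)]))))))

lemma LE0_r0 (t q : ℕ) (h : q < 2 * t + 2) : (6 * t + 16 + 2 * q, 18 * t + 36 - q) ∈ LE0 t :=
  List.mem_append_left _ (memA h)

lemma LE0_r1 (t q : ℕ) (h : q < 2 * t + 1) : (6 * t + 17 + 2 * q, 22 * t + 43 - q) ∈ LE0 t :=
  List.mem_append_right _ (List.mem_append_left _ (memA h))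

lemma LE0_r2 (t q : ℕ) (h : q < 2 * t + 4) : (6 * t + 14 - q, 1 + 2 * q) ∈ LE0 t :=
  List.mem_append_right _ (List.mem_append_right _ (List.mem_append_left _ (memB h)))

lemma LE0_r3 (t q : ℕ) (h : q < 2 * t + 3) : (14 * t + 29 - q, 2 + 2 * q) ∈ LE0 t :=
  List.mem_append_right _ (List.mem_append_right _ (List.mem_append_right _ (List.mem_append_left _ (memB h))))

lemma LE0_r4 (t q : ℕ) (h : q < 2 * t + 3) : (14 * t + 31 + q, 18 * t + 38 + q) ∈ LE0 t :=
  List.mem_append_right _ (List.mem_append_right _ (List.mem_append_right _ (List.mem_append_right _ (List.mem_append_left _ (memC h)))))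

lemma LE0_r5 (t q : ℕ) (h : q < 2 * t + 4) : (22 * t + 46 + q, 10 * t + 22 + q) ∈ LE0 t :=
  List.mem_append_right _ (List.mem_append_right _ (List.mem_append_right _ (List.mem_append_right _ (List.mem_append_right _ (List.mem_append_left _ (memC h))))))

lemma LE0_s0 (t : ℕ) : (4 * t + 10, 22 * t + 44) ∈ LE0 t :=
  List.mem_append_right _ (List.mem_append_right _ (List.mem_append_right _ (List.mem_append_right _ (List.mem_append_right _ (List.mem_append_right _ (List.Mem.head _))))))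

lemma LE0_s1 (t : ℕ) : (6 * t + 15, 10 * t + 19) ∈ LE0 t :=
  List.mem_append_right _ (List.mem_append_right _ (List.mem_append_right _ (List.mem_append_right _ (List.mem_append_right _ (List.mem_append_right _ (List.Mem.tail _ (List.Mem.head _)))))))

lemma LE0_s2 (t : ℕ) : (10 * t + 20, 4 * t + 8) ∈ LE0 t :=
  List.mem_append_right _ (List.mem_append_right _ (List.mem_append_right _ (List.mem_append_right _ (List.mem_append_right _ (List.mem_append_right _ (List.Mem.tail _ (List.Mem.tail _ (List.Mem.head _))))))))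

lemma LE0_s3 (t : ℕ) : (10 * t + 21, 20 * t + 41) ∈ LE0 t :=
  List.mem_append_right _ (List.mem_append_right _ (List.mem_append_right _ (List.mem_append_right _ (List.mem_append_right _ (List.mem_append_right _ (List.Mem.tail _ (List.Mem.tail _ (List.Mem.tail _ (List.Mem.head _)))))))))

lemma LE0_s4 (t : ℕ) : (12 * t + 26, 18 * t + 37) ∈ LE0 t :=
  List.mem_append_right _ (List.mem_append_right _ (List.mem_append_right _ (List.mem_append_right _ (List.mem_append_right _ (List.mem_append_right _ (List.Mem.tail _ (List.Mem.tail _ (List.Mem.tail _ (List.Mem.tail _ (List.Mem.head _))))))))))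

lemma LE0_s5 (t : ℕ) : (14 * t + 30, 22 * t + 45) ∈ LE0 t :=
  List.mem_append_right _ (List.mem_append_right _ (List.mem_append_right _ (List.mem_append_right _ (List.mem_append_right _ (List.mem_append_right _ (List.Mem.tail _ (List.Mem.tail _ (List.Mem.tail _ (List.Mem.tail _ (List.Mem.tail _ (List.Mem.head _)))))))))))

lemma LE0_s6 (t : ℕ) : (24 * t + 50, 16 * t + 34) ∈ LE0 t :=
  List.mem_append_right _ (List.mem_append_right _ (List.mem_append_right _ (List.mem_append_right _ (List.mem_append_right _ (List.mem_append_right _ (List.Mem.tail _ (List.Mem.tail _ (List.Mem.tail _ (List.Mem.tail _ (List.Mem.tail _ (List.Mem.tail _ (List.Mem.head _))))))))))))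

lemma LE0_len (t : ℕ) : (LE0 t).length = 12 * t + 24 := by
  simp only [LE0, List.length_append, lenA, lenB, lenC, List.length_cons, List.length_nil]
  omega

theorem LE0_labels (t z : ℕ) (z1 : 1 ≤ z) (z2 : z ≤ 24 * t + 50) : z = 4 * t + 9 ∨ z = 20 * t + 42 ∨
    ∃ x y, (x, y) ∈ LE0 t ∧ (x = z ∨ y = z) := by
  rcases Nat.lt_or_ge z (12 * t + 26) with h0 | h0
  · rcases Nat.lt_or_ge z (6 * t + 15) with h1 | h1
    · rcases Nat.lt_or_ge z (4 * t + 8) with h2 | h2
      · rcases Nat.lt_or_ge z (2) with h3 | h3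
        · exact Or.inr (Or.inr ⟨_, _, LE0_r2 t ((z - (1)) / 2) (by omega), Or.inr (by omega)⟩)
        · rcases Nat.lt_or_ge z (4 * t + 7) with h4 | h4
          · rcases Nat.mod_two_eq_zero_or_one z with hp | hp
            · exact Or.inr (Or.inr ⟨_, _, LE0_r3 t ((z - (2)) / 2) (by omega), Or.inr (by omega)⟩)
            · exact Or.inr (Or.inr ⟨_, _, LE0_r2 t ((z - (1)) / 2) (by omega), Or.inr (by omega)⟩)
          · exact Or.inr (Or.inr ⟨_, _, LE0_r2 t ((z - (1)) / 2) (by omega), Or.inr (by omega)⟩)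
      · rcases Nat.lt_or_ge z (4 * t + 10) with h3 | h3
        · rcases Nat.lt_or_ge z (4 * t + 9) with h4 | h4
          · exact Or.inr (Or.inr ⟨_, _, LE0_s2 t, Or.inr (by omega)⟩)
          · exact Or.inl (by omega)
        · rcases Nat.lt_or_ge z (4 * t + 11) with h4 | h4
          · exact Or.inr (Or.inr ⟨_, _, LE0_s0 t, Or.inl (by omega)⟩)
          · exact Or.inr (Or.inr ⟨_, _, LE0_r2 t (6 * t + 14 - z) (by omega), Or.inl (by omega)⟩)
    · rcases Nat.lt_or_ge z (10 * t + 19) with h2 | h2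
      · rcases Nat.lt_or_ge z (6 * t + 17) with h3 | h3
        · rcases Nat.lt_or_ge z (6 * t + 16) with h4 | h4
          · exact Or.inr (Or.inr ⟨_, _, LE0_s1 t, Or.inl (by omega)⟩)
          · exact Or.inr (Or.inr ⟨_, _, LE0_r0 t ((z - (6 * t + 16)) / 2) (by omega), Or.inl (by omega)⟩)
        · rcases Nat.lt_or_ge z (10 * t + 18) with h4 | h4
          · rcases Nat.mod_two_eq_zero_or_one z with hp | hp
            · exact Or.inr (Or.inr ⟨_, _, LE0_r0 t ((z - (6 * t + 16)) / 2) (by omega), Or.inl (by omega)⟩)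
            · exact Or.inr (Or.inr ⟨_, _, LE0_r1 t ((z - (6 * t + 17)) / 2) (by omega), Or.inl (by omega)⟩)
          · exact Or.inr (Or.inr ⟨_, _, LE0_r0 t ((z - (6 * t + 16)) / 2) (by omega), Or.inl (by omega)⟩)
      · rcases Nat.lt_or_ge z (10 * t + 21) with h3 | h3
        · rcases Nat.lt_or_ge z (10 * t + 20) with h4 | h4
          · exact Or.inr (Or.inr ⟨_, _, LE0_s1 t, Or.inr (by omega)⟩)
          · exact Or.inr (Or.inr ⟨_, _, LE0_s2 t, Or.inl (by omega)⟩)
        · rcases Nat.lt_or_ge z (10 * t + 22) with h4 | h4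
          · exact Or.inr (Or.inr ⟨_, _, LE0_s3 t, Or.inl (by omega)⟩)
          · exact Or.inr (Or.inr ⟨_, _, LE0_r5 t (z - (10 * t + 22)) (by omega), Or.inr (by omega)⟩)
  · rcases Nat.lt_or_ge z (18 * t + 38) with h1 | h1
    · rcases Nat.lt_or_ge z (14 * t + 31) with h2 | h2
      · rcases Nat.lt_or_ge z (12 * t + 27) with h3 | h3
        · exact Or.inr (Or.inr ⟨_, _, LE0_s4 t, Or.inl (by omega)⟩)
        · rcases Nat.lt_or_ge z (14 * t + 30) with h4 | h4
          · exact Or.inr (Or.inr ⟨_, _, LE0_r3 t (14 * t + 29 - z) (by omega), Or.inl (by omega)⟩)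
          · exact Or.inr (Or.inr ⟨_, _, LE0_s5 t, Or.inl (by omega)⟩)
      · rcases Nat.lt_or_ge z (16 * t + 35) with h3 | h3
        · rcases Nat.lt_or_ge z (16 * t + 34) with h4 | h4
          · exact Or.inr (Or.inr ⟨_, _, LE0_r4 t (z - (14 * t + 31)) (by omega), Or.inl (by omega)⟩)
          · exact Or.inr (Or.inr ⟨_, _, LE0_s6 t, Or.inr (by omega)⟩)
        · rcases Nat.lt_or_ge z (18 * t + 37) with h4 | h4
          · exact Or.inr (Or.inr ⟨_, _, LE0_r0 t (18 * t + 36 - z) (by omega), Or.inr (by omega)⟩)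
          · exact Or.inr (Or.inr ⟨_, _, LE0_s4 t, Or.inr (by omega)⟩)
    · rcases Nat.lt_or_ge z (22 * t + 44) with h2 | h2
      · rcases Nat.lt_or_ge z (20 * t + 42) with h3 | h3
        · rcases Nat.lt_or_ge z (20 * t + 41) with h4 | h4
          · exact Or.inr (Or.inr ⟨_, _, LE0_r4 t (z - (18 * t + 38)) (by omega), Or.inr (by omega)⟩)
          · exact Or.inr (Or.inr ⟨_, _, LE0_s3 t, Or.inr (by omega)⟩)
        · rcases Nat.lt_or_ge z (20 * t + 43) with h4 | h4
          · exact Or.inr (Or.inl (by omega))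
          · exact Or.inr (Or.inr ⟨_, _, LE0_r1 t (22 * t + 43 - z) (by omega), Or.inr (by omega)⟩)
      · rcases Nat.lt_or_ge z (22 * t + 46) with h3 | h3
        · rcases Nat.lt_or_ge z (22 * t + 45) with h4 | h4
          · exact Or.inr (Or.inr ⟨_, _, LE0_s0 t, Or.inr (by omega)⟩)
          · exact Or.inr (Or.inr ⟨_, _, LE0_s5 t, Or.inr (by omega)⟩)
        · rcases Nat.lt_or_ge z (24 * t + 50) with h4 | h4
          · exact Or.inr (Or.inr ⟨_, _, LE0_r5 t (z - (22 * t + 46)) (by omega), Or.inl (by omega)⟩)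
          · exact Or.inr (Or.inr ⟨_, _, LE0_s6 t, Or.inl (by omega)⟩)

theorem LE0_sums (t z : ℕ) (z1 : 6 * t + 15 ≤ z) (z2 : z ≤ 42 * t + 87) : 4 * t + 9 + (20 * t + 42) = z ∨
    ∃ x y, (x, y) ∈ LE0 t ∧ (4 * t + 9 + x = z ∨ 20 * t + 42 + y = z ∨ x + y = z) := by
  rcases Nat.lt_or_ge z (24 * t + 52) with h0 | h0
  · rcases Nat.lt_or_ge z (14 * t + 31) with h1 | h1
    · rcases Nat.lt_or_ge z (10 * t + 26) with h2 | h2
      · rcases Nat.lt_or_ge z (8 * t + 20) with h3 | h3
        · rcases Nat.lt_or_ge z (8 * t + 19) with h4 | h4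
          · exact Or.inr ⟨_, _, LE0_r2 t (z - (6 * t + 15)) (by omega), Or.inr (Or.inr (by omega))⟩
          · exact Or.inr ⟨_, _, LE0_s0 t, Or.inl (by omega)⟩
        · rcases Nat.lt_or_ge z (10 * t + 24) with h4 | h4
          · exact Or.inr ⟨_, _, LE0_r2 t (10 * t + 23 - z) (by omega), Or.inl (by omega)⟩
          · rcases Nat.lt_or_ge z (10 * t + 25) with h5 | h5
            · exact Or.inr ⟨_, _, LE0_s1 t, Or.inl (by omega)⟩
            · exact Or.inr ⟨_, _, LE0_r0 t ((z - (10 * t + 25)) / 2) (by omega), Or.inl (by omega)⟩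
      · rcases Nat.lt_or_ge z (14 * t + 28) with h3 | h3
        · rcases Nat.lt_or_ge z (14 * t + 27) with h4 | h4
          · rcases Nat.mod_two_eq_zero_or_one z with hp | hp
            · exact Or.inr ⟨_, _, LE0_r1 t ((z - (10 * t + 26)) / 2) (by omega), Or.inl (by omega)⟩
            · exact Or.inr ⟨_, _, LE0_r0 t ((z - (10 * t + 25)) / 2) (by omega), Or.inl (by omega)⟩
          · exact Or.inr ⟨_, _, LE0_r0 t ((z - (10 * t + 25)) / 2) (by omega), Or.inl (by omega)⟩
        · rcases Nat.lt_or_ge z (14 * t + 29) with h4 | h4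
          · exact Or.inr ⟨_, _, LE0_s2 t, Or.inr (Or.inr (by omega))⟩
          · rcases Nat.lt_or_ge z (14 * t + 30) with h5 | h5
            · exact Or.inr ⟨_, _, LE0_s2 t, Or.inl (by omega)⟩
            · exact Or.inr ⟨_, _, LE0_s3 t, Or.inl (by omega)⟩
    · rcases Nat.lt_or_ge z (18 * t + 40) with h2 | h2
      · rcases Nat.lt_or_ge z (16 * t + 35) with h3 | h3
        · rcases Nat.lt_or_ge z (16 * t + 34) with h4 | h4
          · exact Or.inr ⟨_, _, LE0_r3 t (z - (14 * t + 31)) (by omega), Or.inr (Or.inr (by omega))⟩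
          · exact Or.inr ⟨_, _, LE0_s1 t, Or.inr (Or.inr (by omega))⟩
        · rcases Nat.lt_or_ge z (16 * t + 36) with h4 | h4
          · exact Or.inr ⟨_, _, LE0_s4 t, Or.inl (by omega)⟩
          · rcases Nat.lt_or_ge z (18 * t + 39) with h5 | h5
            · exact Or.inr ⟨_, _, LE0_r3 t (18 * t + 38 - z) (by omega), Or.inl (by omega)⟩
            · exact Or.inr ⟨_, _, LE0_s5 t, Or.inl (by omega)⟩
      · rcases Nat.lt_or_ge z (24 * t + 49) with h3 | h3
        · rcases Nat.lt_or_ge z (20 * t + 43) with h4 | h4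
          · exact Or.inr ⟨_, _, LE0_r4 t (z - (18 * t + 40)) (by omega), Or.inl (by omega)⟩
          · rcases Nat.lt_or_ge z (20 * t + 44) with h5 | h5
            · exact Or.inr ⟨_, _, LE0_r2 t ((z - (20 * t + 43)) / 2) (by omega), Or.inr (Or.inl (by omega))⟩
            · rcases Nat.mod_two_eq_zero_or_one z with hp | hp
              · exact Or.inr ⟨_, _, LE0_r3 t ((z - (20 * t + 44)) / 2) (by omega), Or.inr (Or.inl (by omega))⟩
              · exact Or.inr ⟨_, _, LE0_r2 t ((z - (20 * t + 43)) / 2) (by omega), Or.inr (Or.inl (by omega))⟩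
        · rcases Nat.lt_or_ge z (24 * t + 50) with h4 | h4
          · exact Or.inr ⟨_, _, LE0_r2 t ((z - (20 * t + 43)) / 2) (by omega), Or.inr (Or.inl (by omega))⟩
          · rcases Nat.lt_or_ge z (24 * t + 51) with h5 | h5
            · exact Or.inr ⟨_, _, LE0_s2 t, Or.inr (Or.inl (by omega))⟩
            · exact Or.inl (by omega)
  · rcases Nat.lt_or_ge z (36 * t + 74) with h1 | h1
    · rcases Nat.lt_or_ge z (30 * t + 61) with h2 | h2
      · rcases Nat.lt_or_ge z (26 * t + 55) with h3 | h3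
        · rcases Nat.lt_or_ge z (26 * t + 54) with h4 | h4
          · exact Or.inr ⟨_, _, LE0_r0 t (z - (24 * t + 52)) (by omega), Or.inr (Or.inr (by omega))⟩
          · exact Or.inr ⟨_, _, LE0_s0 t, Or.inr (Or.inr (by omega))⟩
        · rcases Nat.lt_or_ge z (28 * t + 59) with h4 | h4
          · exact Or.inr ⟨_, _, LE0_r5 t (z - (26 * t + 55)) (by omega), Or.inl (by omega)⟩
          · rcases Nat.lt_or_ge z (28 * t + 60) with h5 | h5
            · exact Or.inr ⟨_, _, LE0_s6 t, Or.inl (by omega)⟩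
            · exact Or.inr ⟨_, _, LE0_r1 t (z - (28 * t + 60)) (by omega), Or.inr (Or.inr (by omega))⟩
      · rcases Nat.lt_or_ge z (30 * t + 64) with h3 | h3
        · rcases Nat.lt_or_ge z (30 * t + 62) with h4 | h4
          · exact Or.inr ⟨_, _, LE0_s1 t, Or.inr (Or.inl (by omega))⟩
          · rcases Nat.lt_or_ge z (30 * t + 63) with h5 | h5
            · exact Or.inr ⟨_, _, LE0_s3 t, Or.inr (Or.inr (by omega))⟩
            · exact Or.inr ⟨_, _, LE0_s4 t, Or.inr (Or.inr (by omega))⟩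
        · rcases Nat.lt_or_ge z (32 * t + 68) with h4 | h4
          · exact Or.inr ⟨_, _, LE0_r5 t (z - (30 * t + 64)) (by omega), Or.inr (Or.inl (by omega))⟩
          · rcases Nat.lt_or_ge z (32 * t + 69) with h5 | h5
            · exact Or.inr ⟨_, _, LE0_r5 t ((z - (32 * t + 68)) / 2) (by omega), Or.inr (Or.inr (by omega))⟩
            · rcases Nat.mod_two_eq_zero_or_one z with hp | hp
              · exact Or.inr ⟨_, _, LE0_r5 t ((z - (32 * t + 68)) / 2) (by omega), Or.inr (Or.inr (by omega))⟩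
              · exact Or.inr ⟨_, _, LE0_r4 t ((z - (32 * t + 69)) / 2) (by omega), Or.inr (Or.inr (by omega))⟩
    · rcases Nat.lt_or_ge z (38 * t + 80) with h2 | h2
      · rcases Nat.lt_or_ge z (36 * t + 76) with h3 | h3
        · rcases Nat.lt_or_ge z (36 * t + 75) with h4 | h4
          · exact Or.inr ⟨_, _, LE0_r5 t ((z - (32 * t + 68)) / 2) (by omega), Or.inr (Or.inr (by omega))⟩
          · exact Or.inr ⟨_, _, LE0_s5 t, Or.inr (Or.inr (by omega))⟩
        · rcases Nat.lt_or_ge z (36 * t + 77) with h4 | h4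
          · exact Or.inr ⟨_, _, LE0_s6 t, Or.inr (Or.inl (by omega))⟩
          · rcases Nat.lt_or_ge z (38 * t + 79) with h5 | h5
            · exact Or.inr ⟨_, _, LE0_r0 t (38 * t + 78 - z) (by omega), Or.inr (Or.inl (by omega))⟩
            · exact Or.inr ⟨_, _, LE0_s4 t, Or.inr (Or.inl (by omega))⟩
      · rcases Nat.lt_or_ge z (40 * t + 85) with h3 | h3
        · rcases Nat.lt_or_ge z (40 * t + 83) with h4 | h4
          · exact Or.inr ⟨_, _, LE0_r4 t (z - (38 * t + 80)) (by omega), Or.inr (Or.inl (by omega))⟩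
          · rcases Nat.lt_or_ge z (40 * t + 84) with h5 | h5
            · exact Or.inr ⟨_, _, LE0_s3 t, Or.inr (Or.inl (by omega))⟩
            · exact Or.inr ⟨_, _, LE0_s6 t, Or.inr (Or.inr (by omega))⟩
        · rcases Nat.lt_or_ge z (42 * t + 86) with h4 | h4
          · exact Or.inr ⟨_, _, LE0_r1 t (42 * t + 85 - z) (by omega), Or.inr (Or.inl (by omega))⟩
          · rcases Nat.lt_or_ge z (42 * t + 87) with h5 | h5
            · exact Or.inr ⟨_, _, LE0_s0 t, Or.inr (Or.inl (by omega))⟩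
            · exact Or.inr ⟨_, _, LE0_s5 t, Or.inr (Or.inl (by omega))⟩

theorem LE0_sem (t : ℕ) : IsSuperEdgeMagic (book (12 * t + 24)) :=
  book_sem _ (4 * t + 9) (20 * t + 42) (6 * t + 15) (LE0 t) (LE0_len t)
    (fun z h1 h2 => LE0_labels t z h1 (by omega))
    (fun z h1 h2 => LE0_sums t z h1 (by omega))

end Pool.Agent.V1149.Books
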