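import Mathlib
import Pool.Agent.V1149.Books.Basic

/-!
# An explicit family of super edge-magic labelings of books (n = 12 * t + 14)
-/

namespace Pool.Agent.V1149.Books

open Pool.Agent.V1149.Labeling SimpleGraph


/-- The pages of the labeling `LE1`. -/
def LE1 (t : ℕ) : List (ℕ × ℕ) :=
  runA (4 * t + 7) (18 * t + 22) (2 * t + 2) ++ (
  runA (4 * t + 8) (20 * t + 24) (2 * t + 2) ++ (
  runA (12 * t + 17) (2 * t + 3) (2 * t + 2) ++ (
  runA (12 * t + 16) (22 * t + 27) (2 * t + 2) ++ (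
  runB (4 * t + 5) (8 * t + 13) (2 * t + 2) ++ (
  runB (24 * t + 29) (8 * t + 12) (2 * t + 2) ++ (
  [(8 * t + 11, 1), (24 * t + 30, 16 * t + 20)]))))))

lemma LE1_r0 (t q : ℕ) (h : q < 2 * t + 2) : (4 * t + 7 + 2 * q, 18 * t + 22 - q) ∈ LE1 t :=
  List.mem_append_left _ (memA h)

lemma LE1_r1 (t q : ℕ) (h : q < 2 * t + 2) : (4 * t + 8 + 2 * q, 20 * t + 24 - q) ∈ LE1 t :=
  List.mem_append_right _ (List.mem_append_left _ (memA h))

lemma LE1_r2 (t q : ℕ) (h : q < 2 * t + 2) : (12 * t + 17 + 2 * q, 2 * t + 3 - q) ∈ LE1 t :=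
  List.mem_append_right _ (List.mem_append_right _ (List.mem_append_left _ (memA h)))

lemma LE1_r3 (t q : ℕ) (h : q < 2 * t + 2) : (12 * t + 16 + 2 * q, 22 * t + 27 - q) ∈ LE1 t :=
  List.mem_append_right _ (List.mem_append_right _ (List.mem_append_right _ (List.mem_append_left _ (memA h))))

lemma LE1_r4 (t q : ℕ) (h : q < 2 * t + 2) : (4 * t + 5 - q, 8 * t + 13 + 2 * q) ∈ LE1 t :=
  List.mem_append_right _ (List.mem_append_right _ (List.mem_append_right _ (List.mem_append_right _ (List.mem_append_left _ (memB h)))))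

lemma LE1_r5 (t q : ℕ) (h : q < 2 * t + 2) : (24 * t + 29 - q, 8 * t + 12 + 2 * q) ∈ LE1 t :=
  List.mem_append_right _ (List.mem_append_right _ (List.mem_append_right _ (List.mem_append_right _ (List.mem_append_right _ (List.mem_append_left _ (memB h))))))

lemma LE1_s0 (t : ℕ) : (8 * t + 11, 1) ∈ LE1 t :=
  List.mem_append_right _ (List.mem_append_right _ (List.mem_append_right _ (List.mem_append_right _ (List.mem_append_right _ (List.mem_append_right _ (List.Mem.head _))))))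

lemma LE1_s1 (t : ℕ) : (24 * t + 30, 16 * t + 20) ∈ LE1 t :=
  List.mem_append_right _ (List.mem_append_right _ (List.mem_append_right _ (List.mem_append_right _ (List.mem_append_right _ (List.mem_append_right _ (List.Mem.tail _ (List.Mem.head _)))))))

lemma LE1_len (t : ℕ) : (LE1 t).length = 12 * t + 14 := by
  simp only [LE1, List.length_append, lenA, lenB, lenC, List.length_cons, List.length_nil]
  omega

theorem LE1_labels (t z : ℕ) (z1 : 1 ≤ z) (z2 : z ≤ 24 * t + 30) : z = 4 * t + 6 ∨ z = 20 * t + 25 ∨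
    ∃ x y, (x, y) ∈ LE1 t ∧ (x = z ∨ y = z) := by
  rcases Nat.lt_or_ge z (12 * t + 15) with h0 | h0
  · rcases Nat.lt_or_ge z (4 * t + 8) with h1 | h1
    · rcases Nat.lt_or_ge z (2 * t + 4) with h2 | h2
      · rcases Nat.lt_or_ge z (2) with h3 | h3
        · exact Or.inr (Or.inr ⟨_, _, LE1_s0 t, Or.inr (by omega)⟩)
        · exact Or.inr (Or.inr ⟨_, _, LE1_r2 t (2 * t + 3 - z) (by omega), Or.inr (by omega)⟩)
      · rcases Nat.lt_or_ge z (4 * t + 6) with h3 | h3
        · exact Or.inr (Or.inr ⟨_, _, LE1_r4 t (4 * t + 5 - z) (by omega), Or.inl (by omega)⟩)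
        · rcases Nat.lt_or_ge z (4 * t + 7) with h4 | h4
          · exact Or.inl (by omega)
          · exact Or.inr (Or.inr ⟨_, _, LE1_r0 t ((z - (4 * t + 7)) / 2) (by omega), Or.inl (by omega)⟩)
    · rcases Nat.lt_or_ge z (8 * t + 11) with h2 | h2
      · rcases Nat.lt_or_ge z (8 * t + 10) with h3 | h3
        · rcases Nat.mod_two_eq_zero_or_one z with hp | hp
          · exact Or.inr (Or.inr ⟨_, _, LE1_r1 t ((z - (4 * t + 8)) / 2) (by omega), Or.inl (by omega)⟩)
          · exact Or.inr (Or.inr ⟨_, _, LE1_r0 t ((z - (4 * t + 7)) / 2) (by omega), Or.inl (by omega)⟩)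
        · exact Or.inr (Or.inr ⟨_, _, LE1_r1 t ((z - (4 * t + 8)) / 2) (by omega), Or.inl (by omega)⟩)
      · rcases Nat.lt_or_ge z (8 * t + 12) with h3 | h3
        · exact Or.inr (Or.inr ⟨_, _, LE1_s0 t, Or.inl (by omega)⟩)
        · rcases Nat.lt_or_ge z (8 * t + 13) with h4 | h4
          · exact Or.inr (Or.inr ⟨_, _, LE1_r5 t ((z - (8 * t + 12)) / 2) (by omega), Or.inr (by omega)⟩)
          · rcases Nat.mod_two_eq_zero_or_one z with hp | hp
            · exact Or.inr (Or.inr ⟨_, _, LE1_r5 t ((z - (8 * t + 12)) / 2) (by omega), Or.inr (by omega)⟩)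
            · exact Or.inr (Or.inr ⟨_, _, LE1_r4 t ((z - (8 * t + 13)) / 2) (by omega), Or.inr (by omega)⟩)
  · rcases Nat.lt_or_ge z (16 * t + 21) with h1 | h1
    · rcases Nat.lt_or_ge z (12 * t + 17) with h2 | h2
      · rcases Nat.lt_or_ge z (12 * t + 16) with h3 | h3
        · exact Or.inr (Or.inr ⟨_, _, LE1_r4 t ((z - (8 * t + 13)) / 2) (by omega), Or.inr (by omega)⟩)
        · exact Or.inr (Or.inr ⟨_, _, LE1_r3 t ((z - (12 * t + 16)) / 2) (by omega), Or.inl (by omega)⟩)
      · rcases Nat.lt_or_ge z (16 * t + 19) with h3 | h3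
        · rcases Nat.mod_two_eq_zero_or_one z with hp | hp
          · exact Or.inr (Or.inr ⟨_, _, LE1_r3 t ((z - (12 * t + 16)) / 2) (by omega), Or.inl (by omega)⟩)
          · exact Or.inr (Or.inr ⟨_, _, LE1_r2 t ((z - (12 * t + 17)) / 2) (by omega), Or.inl (by omega)⟩)
        · rcases Nat.lt_or_ge z (16 * t + 20) with h4 | h4
          · exact Or.inr (Or.inr ⟨_, _, LE1_r2 t ((z - (12 * t + 17)) / 2) (by omega), Or.inl (by omega)⟩)
          · exact Or.inr (Or.inr ⟨_, _, LE1_s1 t, Or.inr (by omega)⟩)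
    · rcases Nat.lt_or_ge z (20 * t + 26) with h2 | h2
      · rcases Nat.lt_or_ge z (18 * t + 23) with h3 | h3
        · exact Or.inr (Or.inr ⟨_, _, LE1_r0 t (18 * t + 22 - z) (by omega), Or.inr (by omega)⟩)
        · rcases Nat.lt_or_ge z (20 * t + 25) with h4 | h4
          · exact Or.inr (Or.inr ⟨_, _, LE1_r1 t (20 * t + 24 - z) (by omega), Or.inr (by omega)⟩)
          · exact Or.inr (Or.inl (by omega))
      · rcases Nat.lt_or_ge z (22 * t + 28) with h3 | h3
        · exact Or.inr (Or.inr ⟨_, _, LE1_r3 t (22 * t + 27 - z) (by omega), Or.inr (by omega)⟩)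
        · rcases Nat.lt_or_ge z (24 * t + 30) with h4 | h4
          · exact Or.inr (Or.inr ⟨_, _, LE1_r5 t (24 * t + 29 - z) (by omega), Or.inl (by omega)⟩)
          · exact Or.inr (Or.inr ⟨_, _, LE1_s1 t, Or.inl (by omega)⟩)

theorem LE1_sums (t z : ℕ) (z1 : 6 * t + 10 ≤ z) (z2 : z ≤ 42 * t + 52) : 4 * t + 6 + (20 * t + 25) = z ∨
    ∃ x y, (x, y) ∈ LE1 t ∧ (4 * t + 6 + x = z ∨ 20 * t + 25 + y = z ∨ x + y = z) := by
  rcases Nat.lt_or_ge z (24 * t + 31) with h0 | h0
  · rcases Nat.lt_or_ge z (14 * t + 20) with h1 | h1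
    · rcases Nat.lt_or_ge z (8 * t + 14) with h2 | h2
      · rcases Nat.lt_or_ge z (8 * t + 12) with h3 | h3
        · exact Or.inr ⟨_, _, LE1_r4 t (8 * t + 11 - z) (by omega), Or.inl (by omega)⟩
        · rcases Nat.lt_or_ge z (8 * t + 13) with h4 | h4
          · exact Or.inr ⟨_, _, LE1_s0 t, Or.inr (Or.inr (by omega))⟩
          · exact Or.inr ⟨_, _, LE1_r0 t ((z - (8 * t + 13)) / 2) (by omega), Or.inl (by omega)⟩
      · rcases Nat.lt_or_ge z (12 * t + 17) with h3 | h3
        · rcases Nat.lt_or_ge z (12 * t + 16) with h4 | h4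
          · rcases Nat.mod_two_eq_zero_or_one z with hp | hp
            · exact Or.inr ⟨_, _, LE1_r1 t ((z - (8 * t + 14)) / 2) (by omega), Or.inl (by omega)⟩
            · exact Or.inr ⟨_, _, LE1_r0 t ((z - (8 * t + 13)) / 2) (by omega), Or.inl (by omega)⟩
          · exact Or.inr ⟨_, _, LE1_r1 t ((z - (8 * t + 14)) / 2) (by omega), Or.inl (by omega)⟩
        · rcases Nat.lt_or_ge z (12 * t + 18) with h4 | h4
          · exact Or.inr ⟨_, _, LE1_s0 t, Or.inl (by omega)⟩
          · exact Or.inr ⟨_, _, LE1_r4 t (z - (12 * t + 18)) (by omega), Or.inr (Or.inr (by omega))⟩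
    · rcases Nat.lt_or_ge z (20 * t + 25) with h2 | h2
      · rcases Nat.lt_or_ge z (16 * t + 22) with h3 | h3
        · exact Or.inr ⟨_, _, LE1_r2 t (z - (14 * t + 20)) (by omega), Or.inr (Or.inr (by omega))⟩
        · rcases Nat.lt_or_ge z (16 * t + 23) with h4 | h4
          · exact Or.inr ⟨_, _, LE1_r3 t ((z - (16 * t + 22)) / 2) (by omega), Or.inl (by omega)⟩
          · rcases Nat.mod_two_eq_zero_or_one z with hp | hp
            · exact Or.inr ⟨_, _, LE1_r3 t ((z - (16 * t + 22)) / 2) (by omega), Or.inl (by omega)⟩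
            · exact Or.inr ⟨_, _, LE1_r2 t ((z - (16 * t + 23)) / 2) (by omega), Or.inl (by omega)⟩
      · rcases Nat.lt_or_ge z (20 * t + 27) with h3 | h3
        · rcases Nat.lt_or_ge z (20 * t + 26) with h4 | h4
          · exact Or.inr ⟨_, _, LE1_r2 t ((z - (16 * t + 23)) / 2) (by omega), Or.inl (by omega)⟩
          · exact Or.inr ⟨_, _, LE1_s0 t, Or.inr (Or.inl (by omega))⟩
        · rcases Nat.lt_or_ge z (22 * t + 29) with h4 | h4
          · exact Or.inr ⟨_, _, LE1_r2 t (22 * t + 28 - z) (by omega), Or.inr (Or.inl (by omega))⟩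
          · exact Or.inr ⟨_, _, LE1_r0 t (z - (22 * t + 29)) (by omega), Or.inr (Or.inr (by omega))⟩
  · rcases Nat.lt_or_ge z (32 * t + 41) with h1 | h1
    · rcases Nat.lt_or_ge z (28 * t + 36) with h2 | h2
      · rcases Nat.lt_or_ge z (24 * t + 32) with h3 | h3
        · exact Or.inl (by omega)
        · rcases Nat.lt_or_ge z (26 * t + 34) with h4 | h4
          · exact Or.inr ⟨_, _, LE1_r1 t (z - (24 * t + 32)) (by omega), Or.inr (Or.inr (by omega))⟩
          · exact Or.inr ⟨_, _, LE1_r5 t (28 * t + 35 - z) (by omega), Or.inl (by omega)⟩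
      · rcases Nat.lt_or_ge z (28 * t + 38) with h3 | h3
        · rcases Nat.lt_or_ge z (28 * t + 37) with h4 | h4
          · exact Or.inr ⟨_, _, LE1_s1 t, Or.inl (by omega)⟩
          · exact Or.inr ⟨_, _, LE1_r5 t ((z - (28 * t + 37)) / 2) (by omega), Or.inr (Or.inl (by omega))⟩
        · rcases Nat.lt_or_ge z (32 * t + 40) with h4 | h4
          · rcases Nat.mod_two_eq_zero_or_one z with hp | hp
            · exact Or.inr ⟨_, _, LE1_r4 t ((z - (28 * t + 38)) / 2) (by omega), Or.inr (Or.inl (by omega))⟩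
            · exact Or.inr ⟨_, _, LE1_r5 t ((z - (28 * t + 37)) / 2) (by omega), Or.inr (Or.inl (by omega))⟩
          · exact Or.inr ⟨_, _, LE1_r4 t ((z - (28 * t + 38)) / 2) (by omega), Or.inr (Or.inl (by omega))⟩
    · rcases Nat.lt_or_ge z (36 * t + 46) with h2 | h2
      · rcases Nat.lt_or_ge z (34 * t + 43) with h3 | h3
        · exact Or.inr ⟨_, _, LE1_r5 t (z - (32 * t + 41)) (by omega), Or.inr (Or.inr (by omega))⟩
        · rcases Nat.lt_or_ge z (36 * t + 45) with h4 | h4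
          · exact Or.inr ⟨_, _, LE1_r3 t (z - (34 * t + 43)) (by omega), Or.inr (Or.inr (by omega))⟩
          · exact Or.inr ⟨_, _, LE1_s1 t, Or.inr (Or.inl (by omega))⟩
      · rcases Nat.lt_or_ge z (40 * t + 50) with h3 | h3
        · rcases Nat.lt_or_ge z (38 * t + 48) with h4 | h4
          · exact Or.inr ⟨_, _, LE1_r0 t (38 * t + 47 - z) (by omega), Or.inr (Or.inl (by omega))⟩
          · exact Or.inr ⟨_, _, LE1_r1 t (40 * t + 49 - z) (by omega), Or.inr (Or.inl (by omega))⟩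
        · rcases Nat.lt_or_ge z (40 * t + 51) with h4 | h4
          · exact Or.inr ⟨_, _, LE1_s1 t, Or.inr (Or.inr (by omega))⟩
          · exact Or.inr ⟨_, _, LE1_r3 t (42 * t + 52 - z) (by omega), Or.inr (Or.inl (by omega))⟩

theorem LE1_sem (t : ℕ) : IsSuperEdgeMagic (book (12 * t + 14)) :=
  book_sem _ (4 * t + 6) (20 * t + 25) (6 * t + 10) (LE1 t) (LE1_len t)
    (fun z h1 h2 => LE1_labels t z h1 (by omega))
    (fun z h1 h2 => LE1_sums t z h1 (by omega))

end Pool.Agent.V1149.Books
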