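import Mathlib
import Pool.Agent.V1149.Books.Basic

/-!
# An explicit family of super edge-magic labelings of books (n = 12 * t + 16)
-/

namespace Pool.Agent.V1149.Books

open Pool.Agent.V1149.Labeling SimpleGraph


/-- The pages of the labeling `LE2`. -/
def LE2 (t : ℕ) : List (ℕ × ℕ) :=
  runA (4 * t + 10) (18 * t + 23) (2 * t + 2) ++ (
  runA (4 * t + 9) (20 * t + 27) (2 * t + 1) ++ (
  runA (12 * t + 21) (2 * t + 3) (2 * t + 1) ++ (
  runA (12 * t + 20) (22 * t + 29) (2 * t + 1) ++ (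
  runB (4 * t + 6) (8 * t + 15) (2 * t + 3) ++ (
  runB (24 * t + 32) (8 * t + 16) (2 * t + 1) ++ (
  [(4 * t + 8, 12 * t + 18), (8 * t + 11, 8 * t + 14), (8 * t + 13, 1), (22 * t + 30, 2), (22 * t + 31, 18 * t + 25), (24 * t + 33, 18 * t + 26), (24 * t + 34, 18 * t + 24)]))))))

lemma LE2_r0 (t q : ℕ) (h : q < 2 * t + 2) : (4 * t + 10 + 2 * q, 18 * t + 23 - q) ∈ LE2 t :=
  List.mem_append_left _ (memA h)

lemma LE2_r1 (t q : ℕ) (h : q < 2 * t + 1) : (4 * t + 9 + 2 * q, 20 * t + 27 - q) ∈ LE2 t :=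
  List.mem_append_right _ (List.mem_append_left _ (memA h))

lemma LE2_r2 (t q : ℕ) (h : q < 2 * t + 1) : (12 * t + 21 + 2 * q, 2 * t + 3 - q) ∈ LE2 t :=
  List.mem_append_right _ (List.mem_append_right _ (List.mem_append_left _ (memA h)))

lemma LE2_r3 (t q : ℕ) (h : q < 2 * t + 1) : (12 * t + 20 + 2 * q, 22 * t + 29 - q) ∈ LE2 t :=
  List.mem_append_right _ (List.mem_append_right _ (List.mem_append_right _ (List.mem_append_left _ (memA h))))

lemma LE2_r4 (t q : ℕ) (h : q < 2 * t + 3) : (4 * t + 6 - q, 8 * t + 15 + 2 * q) ∈ LE2 t :=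
  List.mem_append_right _ (List.mem_append_right _ (List.mem_append_right _ (List.mem_append_right _ (List.mem_append_left _ (memB h)))))

lemma LE2_r5 (t q : ℕ) (h : q < 2 * t + 1) : (24 * t + 32 - q, 8 * t + 16 + 2 * q) ∈ LE2 t :=
  List.mem_append_right _ (List.mem_append_right _ (List.mem_append_right _ (List.mem_append_right _ (List.mem_append_right _ (List.mem_append_left _ (memB h))))))

lemma LE2_s0 (t : ℕ) : (4 * t + 8, 12 * t + 18) ∈ LE2 t :=
  List.mem_append_right _ (List.mem_append_right _ (List.mem_append_right _ (List.mem_append_right _ (List.mem_append_right _ (List.mem_append_right _ (List.Mem.head _))))))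

lemma LE2_s1 (t : ℕ) : (8 * t + 11, 8 * t + 14) ∈ LE2 t :=
  List.mem_append_right _ (List.mem_append_right _ (List.mem_append_right _ (List.mem_append_right _ (List.mem_append_right _ (List.mem_append_right _ (List.Mem.tail _ (List.Mem.head _)))))))

lemma LE2_s2 (t : ℕ) : (8 * t + 13, 1) ∈ LE2 t :=
  List.mem_append_right _ (List.mem_append_right _ (List.mem_append_right _ (List.mem_append_right _ (List.mem_append_right _ (List.mem_append_right _ (List.Mem.tail _ (List.Mem.tail _ (List.Mem.head _))))))))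

lemma LE2_s3 (t : ℕ) : (22 * t + 30, 2) ∈ LE2 t :=
  List.mem_append_right _ (List.mem_append_right _ (List.mem_append_right _ (List.mem_append_right _ (List.mem_append_right _ (List.mem_append_right _ (List.Mem.tail _ (List.Mem.tail _ (List.Mem.tail _ (List.Mem.head _)))))))))

lemma LE2_s4 (t : ℕ) : (22 * t + 31, 18 * t + 25) ∈ LE2 t :=
  List.mem_append_right _ (List.mem_append_right _ (List.mem_append_right _ (List.mem_append_right _ (List.mem_append_right _ (List.mem_append_right _ (List.Mem.tail _ (List.Mem.tail _ (List.Mem.tail _ (List.Mem.tail _ (List.Mem.head _))))))))))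

lemma LE2_s5 (t : ℕ) : (24 * t + 33, 18 * t + 26) ∈ LE2 t :=
  List.mem_append_right _ (List.mem_append_right _ (List.mem_append_right _ (List.mem_append_right _ (List.mem_append_right _ (List.mem_append_right _ (List.Mem.tail _ (List.Mem.tail _ (List.Mem.tail _ (List.Mem.tail _ (List.Mem.tail _ (List.Mem.head _)))))))))))

lemma LE2_s6 (t : ℕ) : (24 * t + 34, 18 * t + 24) ∈ LE2 t :=
  List.mem_append_right _ (List.mem_append_right _ (List.mem_append_right _ (List.mem_append_right _ (List.mem_append_right _ (List.mem_append_right _ (List.Mem.tail _ (List.Mem.tail _ (List.Mem.tail _ (List.Mem.tail _ (List.Mem.tail _ (List.Mem.tail _ (List.Mem.head _))))))))))))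

lemma LE2_len (t : ℕ) : (LE2 t).length = 12 * t + 16 := by
  simp only [LE2, List.length_append, lenA, lenB, lenC, List.length_cons, List.length_nil]
  omega

theorem LE2_labels (t z : ℕ) (z1 : 1 ≤ z) (z2 : z ≤ 24 * t + 34) : z = 4 * t + 7 ∨ z = 20 * t + 28 ∨
    ∃ x y, (x, y) ∈ LE2 t ∧ (x = z ∨ y = z) := by
  rcases Nat.lt_or_ge z (12 * t + 18) with h0 | h0
  · rcases Nat.lt_or_ge z (8 * t + 10) with h1 | h1
    · rcases Nat.lt_or_ge z (4 * t + 7) with h2 | h2
      · rcases Nat.lt_or_ge z (3) with h3 | h3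
        · rcases Nat.lt_or_ge z (2) with h4 | h4
          · exact Or.inr (Or.inr ⟨_, _, LE2_s2 t, Or.inr (by omega)⟩)
          · exact Or.inr (Or.inr ⟨_, _, LE2_s3 t, Or.inr (by omega)⟩)
        · rcases Nat.lt_or_ge z (2 * t + 4) with h4 | h4
          · exact Or.inr (Or.inr ⟨_, _, LE2_r2 t (2 * t + 3 - z) (by omega), Or.inr (by omega)⟩)
          · exact Or.inr (Or.inr ⟨_, _, LE2_r4 t (4 * t + 6 - z) (by omega), Or.inl (by omega)⟩)
      · rcases Nat.lt_or_ge z (4 * t + 9) with h3 | h3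
        · rcases Nat.lt_or_ge z (4 * t + 8) with h4 | h4
          · exact Or.inl (by omega)
          · exact Or.inr (Or.inr ⟨_, _, LE2_s0 t, Or.inl (by omega)⟩)
        · rcases Nat.lt_or_ge z (4 * t + 10) with h4 | h4
          · exact Or.inr (Or.inr ⟨_, _, LE2_r1 t ((z - (4 * t + 9)) / 2) (by omega), Or.inl (by omega)⟩)
          · rcases Nat.mod_two_eq_zero_or_one z with hp | hp
            · exact Or.inr (Or.inr ⟨_, _, LE2_r0 t ((z - (4 * t + 10)) / 2) (by omega), Or.inl (by omega)⟩)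
            · exact Or.inr (Or.inr ⟨_, _, LE2_r1 t ((z - (4 * t + 9)) / 2) (by omega), Or.inl (by omega)⟩)
    · rcases Nat.lt_or_ge z (8 * t + 14) with h2 | h2
      · rcases Nat.lt_or_ge z (8 * t + 12) with h3 | h3
        · rcases Nat.lt_or_ge z (8 * t + 11) with h4 | h4
          · exact Or.inr (Or.inr ⟨_, _, LE2_r0 t ((z - (4 * t + 10)) / 2) (by omega), Or.inl (by omega)⟩)
          · exact Or.inr (Or.inr ⟨_, _, LE2_s1 t, Or.inl (by omega)⟩)
        · rcases Nat.lt_or_ge z (8 * t + 13) with h4 | h4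
          · exact Or.inr (Or.inr ⟨_, _, LE2_r0 t ((z - (4 * t + 10)) / 2) (by omega), Or.inl (by omega)⟩)
          · exact Or.inr (Or.inr ⟨_, _, LE2_s2 t, Or.inl (by omega)⟩)
      · rcases Nat.lt_or_ge z (8 * t + 16) with h3 | h3
        · rcases Nat.lt_or_ge z (8 * t + 15) with h4 | h4
          · exact Or.inr (Or.inr ⟨_, _, LE2_s1 t, Or.inr (by omega)⟩)
          · exact Or.inr (Or.inr ⟨_, _, LE2_r4 t ((z - (8 * t + 15)) / 2) (by omega), Or.inr (by omega)⟩)
        · rcases Nat.lt_or_ge z (12 * t + 17) with h4 | h4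
          · rcases Nat.mod_two_eq_zero_or_one z with hp | hp
            · exact Or.inr (Or.inr ⟨_, _, LE2_r5 t ((z - (8 * t + 16)) / 2) (by omega), Or.inr (by omega)⟩)
            · exact Or.inr (Or.inr ⟨_, _, LE2_r4 t ((z - (8 * t + 15)) / 2) (by omega), Or.inr (by omega)⟩)
          · exact Or.inr (Or.inr ⟨_, _, LE2_r4 t ((z - (8 * t + 15)) / 2) (by omega), Or.inr (by omega)⟩)
  · rcases Nat.lt_or_ge z (18 * t + 26) with h1 | h1
    · rcases Nat.lt_or_ge z (16 * t + 21) with h2 | h2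
      · rcases Nat.lt_or_ge z (12 * t + 20) with h3 | h3
        · rcases Nat.lt_or_ge z (12 * t + 19) with h4 | h4
          · exact Or.inr (Or.inr ⟨_, _, LE2_s0 t, Or.inr (by omega)⟩)
          · exact Or.inr (Or.inr ⟨_, _, LE2_r4 t ((z - (8 * t + 15)) / 2) (by omega), Or.inr (by omega)⟩)
        · rcases Nat.lt_or_ge z (12 * t + 21) with h4 | h4
          · exact Or.inr (Or.inr ⟨_, _, LE2_r3 t ((z - (12 * t + 20)) / 2) (by omega), Or.inl (by omega)⟩)
          · rcases Nat.mod_two_eq_zero_or_one z with hp | hp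
            · exact Or.inr (Or.inr ⟨_, _, LE2_r3 t ((z - (12 * t + 20)) / 2) (by omega), Or.inl (by omega)⟩)
            · exact Or.inr (Or.inr ⟨_, _, LE2_r2 t ((z - (12 * t + 21)) / 2) (by omega), Or.inl (by omega)⟩)
      · rcases Nat.lt_or_ge z (18 * t + 24) with h3 | h3
        · rcases Nat.lt_or_ge z (16 * t + 22) with h4 | h4
          · exact Or.inr (Or.inr ⟨_, _, LE2_r2 t ((z - (12 * t + 21)) / 2) (by omega), Or.inl (by omega)⟩)
          · exact Or.inr (Or.inr ⟨_, _, LE2_r0 t (18 * t + 23 - z) (by omega), Or.inr (by omega)⟩)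
        · rcases Nat.lt_or_ge z (18 * t + 25) with h4 | h4
          · exact Or.inr (Or.inr ⟨_, _, LE2_s6 t, Or.inr (by omega)⟩)
          · exact Or.inr (Or.inr ⟨_, _, LE2_s4 t, Or.inr (by omega)⟩)
    · rcases Nat.lt_or_ge z (22 * t + 30) with h2 | h2
      · rcases Nat.lt_or_ge z (20 * t + 28) with h3 | h3
        · rcases Nat.lt_or_ge z (18 * t + 27) with h4 | h4
          · exact Or.inr (Or.inr ⟨_, _, LE2_s5 t, Or.inr (by omega)⟩)
          · exact Or.inr (Or.inr ⟨_, _, LE2_r1 t (20 * t + 27 - z) (by omega), Or.inr (by omega)⟩)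
        · rcases Nat.lt_or_ge z (20 * t + 29) with h4 | h4
          · exact Or.inr (Or.inl (by omega))
          · exact Or.inr (Or.inr ⟨_, _, LE2_r3 t (22 * t + 29 - z) (by omega), Or.inr (by omega)⟩)
      · rcases Nat.lt_or_ge z (22 * t + 32) with h3 | h3
        · rcases Nat.lt_or_ge z (22 * t + 31) with h4 | h4
          · exact Or.inr (Or.inr ⟨_, _, LE2_s3 t, Or.inl (by omega)⟩)
          · exact Or.inr (Or.inr ⟨_, _, LE2_s4 t, Or.inl (by omega)⟩)
        · rcases Nat.lt_or_ge z (24 * t + 33) with h4 | h4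
          · exact Or.inr (Or.inr ⟨_, _, LE2_r5 t (24 * t + 32 - z) (by omega), Or.inl (by omega)⟩)
          · rcases Nat.lt_or_ge z (24 * t + 34) with h5 | h5
            · exact Or.inr (Or.inr ⟨_, _, LE2_s5 t, Or.inl (by omega)⟩)
            · exact Or.inr (Or.inr ⟨_, _, LE2_s6 t, Or.inl (by omega)⟩)

theorem LE2_sums (t z : ℕ) (z1 : 6 * t + 11 ≤ z) (z2 : z ≤ 42 * t + 59) : 4 * t + 7 + (20 * t + 28) = z ∨
    ∃ x y, (x, y) ∈ LE2 t ∧ (4 * t + 7 + x = z ∨ 20 * t + 28 + y = z ∨ x + y = z) := by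
  rcases Nat.lt_or_ge z (24 * t + 36) with h0 | h0
  · rcases Nat.lt_or_ge z (16 * t + 25) with h1 | h1
    · rcases Nat.lt_or_ge z (12 * t + 17) with h2 | h2
      · rcases Nat.lt_or_ge z (8 * t + 15) with h3 | h3
        · rcases Nat.lt_or_ge z (8 * t + 14) with h4 | h4
          · exact Or.inr ⟨_, _, LE2_r4 t (8 * t + 13 - z) (by omega), Or.inl (by omega)⟩
          · exact Or.inr ⟨_, _, LE2_s2 t, Or.inr (Or.inr (by omega))⟩
        · rcases Nat.lt_or_ge z (8 * t + 16) with h4 | h4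
          · exact Or.inr ⟨_, _, LE2_s0 t, Or.inl (by omega)⟩
          · rcases Nat.lt_or_ge z (8 * t + 17) with h5 | h5
            · exact Or.inr ⟨_, _, LE2_r1 t ((z - (8 * t + 16)) / 2) (by omega), Or.inl (by omega)⟩
            · rcases Nat.mod_two_eq_zero_or_one z with hp | hp
              · exact Or.inr ⟨_, _, LE2_r1 t ((z - (8 * t + 16)) / 2) (by omega), Or.inl (by omega)⟩
              · exact Or.inr ⟨_, _, LE2_r0 t ((z - (8 * t + 17)) / 2) (by omega), Or.inl (by omega)⟩
      · rcases Nat.lt_or_ge z (12 * t + 20) with h3 | h3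
        · rcases Nat.lt_or_ge z (12 * t + 18) with h4 | h4
          · exact Or.inr ⟨_, _, LE2_r0 t ((z - (8 * t + 17)) / 2) (by omega), Or.inl (by omega)⟩
          · rcases Nat.lt_or_ge z (12 * t + 19) with h5 | h5
            · exact Or.inr ⟨_, _, LE2_s1 t, Or.inl (by omega)⟩
            · exact Or.inr ⟨_, _, LE2_r0 t ((z - (8 * t + 17)) / 2) (by omega), Or.inl (by omega)⟩
        · rcases Nat.lt_or_ge z (12 * t + 21) with h4 | h4
          · exact Or.inr ⟨_, _, LE2_s2 t, Or.inl (by omega)⟩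
          · rcases Nat.lt_or_ge z (14 * t + 24) with h5 | h5
            · exact Or.inr ⟨_, _, LE2_r4 t (z - (12 * t + 21)) (by omega), Or.inr (Or.inr (by omega))⟩
            · exact Or.inr ⟨_, _, LE2_r2 t (z - (14 * t + 24)) (by omega), Or.inr (Or.inr (by omega))⟩
    · rcases Nat.lt_or_ge z (20 * t + 29) with h2 | h2
      · rcases Nat.lt_or_ge z (16 * t + 27) with h3 | h3
        · rcases Nat.lt_or_ge z (16 * t + 26) with h4 | h4
          · exact Or.inr ⟨_, _, LE2_s1 t, Or.inr (Or.inr (by omega))⟩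
          · exact Or.inr ⟨_, _, LE2_s0 t, Or.inr (Or.inr (by omega))⟩
        · rcases Nat.lt_or_ge z (16 * t + 28) with h4 | h4
          · exact Or.inr ⟨_, _, LE2_r3 t ((z - (16 * t + 27)) / 2) (by omega), Or.inl (by omega)⟩
          · rcases Nat.lt_or_ge z (20 * t + 28) with h5 | h5
            · rcases Nat.mod_two_eq_zero_or_one z with hp | hp
              · exact Or.inr ⟨_, _, LE2_r2 t ((z - (16 * t + 28)) / 2) (by omega), Or.inl (by omega)⟩
              · exact Or.inr ⟨_, _, LE2_r3 t ((z - (16 * t + 27)) / 2) (by omega), Or.inl (by omega)⟩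
            · exact Or.inr ⟨_, _, LE2_r2 t ((z - (16 * t + 28)) / 2) (by omega), Or.inl (by omega)⟩
      · rcases Nat.lt_or_ge z (22 * t + 32) with h3 | h3
        · rcases Nat.lt_or_ge z (20 * t + 30) with h4 | h4
          · exact Or.inr ⟨_, _, LE2_s2 t, Or.inr (Or.inl (by omega))⟩
          · rcases Nat.lt_or_ge z (20 * t + 31) with h5 | h5
            · exact Or.inr ⟨_, _, LE2_s3 t, Or.inr (Or.inl (by omega))⟩
            · exact Or.inr ⟨_, _, LE2_r2 t (22 * t + 31 - z) (by omega), Or.inr (Or.inl (by omega))⟩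
        · rcases Nat.lt_or_ge z (22 * t + 33) with h4 | h4
          · exact Or.inr ⟨_, _, LE2_s3 t, Or.inr (Or.inr (by omega))⟩
          · rcases Nat.lt_or_ge z (24 * t + 35) with h5 | h5
            · exact Or.inr ⟨_, _, LE2_r0 t (z - (22 * t + 33)) (by omega), Or.inr (Or.inr (by omega))⟩
            · exact Or.inl (by omega)
  · rcases Nat.lt_or_ge z (32 * t + 47) with h1 | h1
    · rcases Nat.lt_or_ge z (28 * t + 41) with h2 | h2
      · rcases Nat.lt_or_ge z (26 * t + 38) with h3 | h3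
        · rcases Nat.lt_or_ge z (26 * t + 37) with h4 | h4
          · exact Or.inr ⟨_, _, LE2_r1 t (z - (24 * t + 36)) (by omega), Or.inr (Or.inr (by omega))⟩
          · exact Or.inr ⟨_, _, LE2_s3 t, Or.inl (by omega)⟩
        · rcases Nat.lt_or_ge z (26 * t + 39) with h4 | h4
          · exact Or.inr ⟨_, _, LE2_s4 t, Or.inl (by omega)⟩
          · rcases Nat.lt_or_ge z (28 * t + 40) with h5 | h5
            · exact Or.inr ⟨_, _, LE2_r5 t (28 * t + 39 - z) (by omega), Or.inl (by omega)⟩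
            · exact Or.inr ⟨_, _, LE2_s5 t, Or.inl (by omega)⟩
      · rcases Nat.lt_or_ge z (28 * t + 44) with h3 | h3
        · rcases Nat.lt_or_ge z (28 * t + 42) with h4 | h4
          · exact Or.inr ⟨_, _, LE2_s6 t, Or.inl (by omega)⟩
          · rcases Nat.lt_or_ge z (28 * t + 43) with h5 | h5
            · exact Or.inr ⟨_, _, LE2_s1 t, Or.inr (Or.inl (by omega))⟩
            · exact Or.inr ⟨_, _, LE2_r4 t ((z - (28 * t + 43)) / 2) (by omega), Or.inr (Or.inl (by omega))⟩
        · rcases Nat.lt_or_ge z (32 * t + 45) with h4 | h4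
          · rcases Nat.mod_two_eq_zero_or_one z with hp | hp
            · exact Or.inr ⟨_, _, LE2_r5 t ((z - (28 * t + 44)) / 2) (by omega), Or.inr (Or.inl (by omega))⟩
            · exact Or.inr ⟨_, _, LE2_r4 t ((z - (28 * t + 43)) / 2) (by omega), Or.inr (Or.inl (by omega))⟩
          · rcases Nat.lt_or_ge z (32 * t + 46) with h5 | h5
            · exact Or.inr ⟨_, _, LE2_r4 t ((z - (28 * t + 43)) / 2) (by omega), Or.inr (Or.inl (by omega))⟩
            · exact Or.inr ⟨_, _, LE2_s0 t, Or.inr (Or.inl (by omega))⟩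
    · rcases Nat.lt_or_ge z (38 * t + 54) with h2 | h2
      · rcases Nat.lt_or_ge z (36 * t + 50) with h3 | h3
        · rcases Nat.lt_or_ge z (32 * t + 48) with h4 | h4
          · exact Or.inr ⟨_, _, LE2_r4 t ((z - (28 * t + 43)) / 2) (by omega), Or.inr (Or.inl (by omega))⟩
          · rcases Nat.lt_or_ge z (34 * t + 49) with h5 | h5
            · exact Or.inr ⟨_, _, LE2_r5 t (z - (32 * t + 48)) (by omega), Or.inr (Or.inr (by omega))⟩
            · exact Or.inr ⟨_, _, LE2_r3 t (z - (34 * t + 49)) (by omega), Or.inr (Or.inr (by omega))⟩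
        · rcases Nat.lt_or_ge z (38 * t + 52) with h4 | h4
          · exact Or.inr ⟨_, _, LE2_r0 t (38 * t + 51 - z) (by omega), Or.inr (Or.inl (by omega))⟩
          · rcases Nat.lt_or_ge z (38 * t + 53) with h5 | h5
            · exact Or.inr ⟨_, _, LE2_s6 t, Or.inr (Or.inl (by omega))⟩
            · exact Or.inr ⟨_, _, LE2_s4 t, Or.inr (Or.inl (by omega))⟩
      · rcases Nat.lt_or_ge z (40 * t + 57) with h3 | h3
        · rcases Nat.lt_or_ge z (38 * t + 55) with h4 | h4
          · exact Or.inr ⟨_, _, LE2_s5 t, Or.inr (Or.inl (by omega))⟩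
          · rcases Nat.lt_or_ge z (40 * t + 56) with h5 | h5
            · exact Or.inr ⟨_, _, LE2_r1 t (40 * t + 55 - z) (by omega), Or.inr (Or.inl (by omega))⟩
            · exact Or.inr ⟨_, _, LE2_s4 t, Or.inr (Or.inr (by omega))⟩
        · rcases Nat.lt_or_ge z (42 * t + 58) with h4 | h4
          · exact Or.inr ⟨_, _, LE2_r3 t (42 * t + 57 - z) (by omega), Or.inr (Or.inl (by omega))⟩
          · rcases Nat.lt_or_ge z (42 * t + 59) with h5 | h5
            · exact Or.inr ⟨_, _, LE2_s6 t, Or.inr (Or.inr (by omega))⟩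
            · exact Or.inr ⟨_, _, LE2_s5 t, Or.inr (Or.inr (by omega))⟩

theorem LE2_sem (t : ℕ) : IsSuperEdgeMagic (book (12 * t + 16)) :=
  book_sem _ (4 * t + 7) (20 * t + 28) (6 * t + 11) (LE2 t) (LE2_len t)
    (fun z h1 h2 => LE2_labels t z h1 (by omega))
    (fun z h1 h2 => LE2_sums t z h1 (by omega))

end Pool.Agent.V1149.Books
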