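import Mathlib
import Pool.Agent.V1149.Books.Basic

/-!
# An explicit family of super edge-magic labelings of books (n = 12 * t + 18)
-/

namespace Pool.Agent.V1149.Books

open Pool.Agent.V1149.Labeling SimpleGraph


/-- The pages of the labeling `LE3`. -/
def LE3 (t : ℕ) : List (ℕ × ℕ) :=
  runA (20 * t + 33) (12 * t + 21) (2 * t + 3) ++ (
  runA (20 * t + 34) (20 * t + 30) (2 * t + 3) ++ (
  runB (4 * t + 5) (14 * t + 27) (2 * t + 1) ++ (
  runB (8 * t + 11) (14 * t + 26) (2 * t + 1) ++ (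
  runC (4 * t + 8) (8 * t + 17) (2 * t + 2) ++ (
  runC (12 * t + 22) (2) (2 * t + 1) ++ (
  [(6 * t + 10, 2 * t + 3), (8 * t + 12, 8 * t + 14), (8 * t + 13, 1), (8 * t + 15, 4 * t + 6), (8 * t + 16, 20 * t + 31), (14 * t + 23, 14 * t + 25), (14 * t + 24, 2 * t + 4)]))))))

lemma LE3_r0 (t q : ℕ) (h : q < 2 * t + 3) : (20 * t + 33 + 2 * q, 12 * t + 21 - q) ∈ LE3 t :=
  List.mem_append_left _ (memA h)

lemma LE3_r1 (t q : ℕ) (h : q < 2 * t + 3) : (20 * t + 34 + 2 * q, 20 * t + 30 - q) ∈ LE3 t :=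
  List.mem_append_right _ (List.mem_append_left _ (memA h))

lemma LE3_r2 (t q : ℕ) (h : q < 2 * t + 1) : (4 * t + 5 - q, 14 * t + 27 + 2 * q) ∈ LE3 t :=
  List.mem_append_right _ (List.mem_append_right _ (List.mem_append_left _ (memB h)))

lemma LE3_r3 (t q : ℕ) (h : q < 2 * t + 1) : (8 * t + 11 - q, 14 * t + 26 + 2 * q) ∈ LE3 t :=
  List.mem_append_right _ (List.mem_append_right _ (List.mem_append_right _ (List.mem_append_left _ (memB h))))

lemma LE3_r4 (t q : ℕ) (h : q < 2 * t + 2) : (4 * t + 8 + q, 8 * t + 17 + q) ∈ LE3 t :=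
  List.mem_append_right _ (List.mem_append_right _ (List.mem_append_right _ (List.mem_append_right _ (List.mem_append_left _ (memC h)))))

lemma LE3_r5 (t q : ℕ) (h : q < 2 * t + 1) : (12 * t + 22 + q, 2 + q) ∈ LE3 t :=
  List.mem_append_right _ (List.mem_append_right _ (List.mem_append_right _ (List.mem_append_right _ (List.mem_append_right _ (List.mem_append_left _ (memC h))))))

lemma LE3_s0 (t : ℕ) : (6 * t + 10, 2 * t + 3) ∈ LE3 t :=
  List.mem_append_right _ (List.mem_append_right _ (List.mem_append_right _ (List.mem_append_right _ (List.mem_append_right _ (List.mem_append_right _ (List.Mem.head _))))))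

lemma LE3_s1 (t : ℕ) : (8 * t + 12, 8 * t + 14) ∈ LE3 t :=
  List.mem_append_right _ (List.mem_append_right _ (List.mem_append_right _ (List.mem_append_right _ (List.mem_append_right _ (List.mem_append_right _ (List.Mem.tail _ (List.Mem.head _)))))))

lemma LE3_s2 (t : ℕ) : (8 * t + 13, 1) ∈ LE3 t :=
  List.mem_append_right _ (List.mem_append_right _ (List.mem_append_right _ (List.mem_append_right _ (List.mem_append_right _ (List.mem_append_right _ (List.Mem.tail _ (List.Mem.tail _ (List.Mem.head _))))))))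

lemma LE3_s3 (t : ℕ) : (8 * t + 15, 4 * t + 6) ∈ LE3 t :=
  List.mem_append_right _ (List.mem_append_right _ (List.mem_append_right _ (List.mem_append_right _ (List.mem_append_right _ (List.mem_append_right _ (List.Mem.tail _ (List.Mem.tail _ (List.Mem.tail _ (List.Mem.head _)))))))))

lemma LE3_s4 (t : ℕ) : (8 * t + 16, 20 * t + 31) ∈ LE3 t :=
  List.mem_append_right _ (List.mem_append_right _ (List.mem_append_right _ (List.mem_append_right _ (List.mem_append_right _ (List.mem_append_right _ (List.Mem.tail _ (List.Mem.tail _ (List.Mem.tail _ (List.Mem.tail _ (List.Mem.head _))))))))))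

lemma LE3_s5 (t : ℕ) : (14 * t + 23, 14 * t + 25) ∈ LE3 t :=
  List.mem_append_right _ (List.mem_append_right _ (List.mem_append_right _ (List.mem_append_right _ (List.mem_append_right _ (List.mem_append_right _ (List.Mem.tail _ (List.Mem.tail _ (List.Mem.tail _ (List.Mem.tail _ (List.Mem.tail _ (List.Mem.head _)))))))))))

lemma LE3_s6 (t : ℕ) : (14 * t + 24, 2 * t + 4) ∈ LE3 t :=
  List.mem_append_right _ (List.mem_append_right _ (List.mem_append_right _ (List.mem_append_right _ (List.mem_append_right _ (List.mem_append_right _ (List.Mem.tail _ (List.Mem.tail _ (List.Mem.tail _ (List.Mem.tail _ (List.Mem.tail _ (List.Mem.tail _ (List.Mem.head _))))))))))))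

lemma LE3_len (t : ℕ) : (LE3 t).length = 12 * t + 18 := by
  simp only [LE3, List.length_append, lenA, lenB, lenC, List.length_cons, List.length_nil]
  omega

theorem LE3_labels (t z : ℕ) (z1 : 1 ≤ z) (z2 : z ≤ 24 * t + 38) : z = 4 * t + 7 ∨ z = 20 * t + 32 ∨
    ∃ x y, (x, y) ∈ LE3 t ∧ (x = z ∨ y = z) := by
  rcases Nat.lt_or_ge z (8 * t + 17) with h0 | h0
  · rcases Nat.lt_or_ge z (4 * t + 8) with h1 | h1
    · rcases Nat.lt_or_ge z (2 * t + 4) with h2 | h2
      · rcases Nat.lt_or_ge z (2) with h3 | h3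
        · exact Or.inr (Or.inr ⟨_, _, LE3_s2 t, Or.inr (by omega)⟩)
        · rcases Nat.lt_or_ge z (2 * t + 3) with h4 | h4
          · exact Or.inr (Or.inr ⟨_, _, LE3_r5 t (z - (2)) (by omega), Or.inr (by omega)⟩)
          · exact Or.inr (Or.inr ⟨_, _, LE3_s0 t, Or.inr (by omega)⟩)
      · rcases Nat.lt_or_ge z (4 * t + 6) with h3 | h3
        · rcases Nat.lt_or_ge z (2 * t + 5) with h4 | h4
          · exact Or.inr (Or.inr ⟨_, _, LE3_s6 t, Or.inr (by omega)⟩)
          · exact Or.inr (Or.inr ⟨_, _, LE3_r2 t (4 * t + 5 - z) (by omega), Or.inl (by omega)⟩)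
        · rcases Nat.lt_or_ge z (4 * t + 7) with h4 | h4
          · exact Or.inr (Or.inr ⟨_, _, LE3_s3 t, Or.inr (by omega)⟩)
          · exact Or.inl (by omega)
    · rcases Nat.lt_or_ge z (8 * t + 13) with h2 | h2
      · rcases Nat.lt_or_ge z (6 * t + 11) with h3 | h3
        · rcases Nat.lt_or_ge z (6 * t + 10) with h4 | h4
          · exact Or.inr (Or.inr ⟨_, _, LE3_r4 t (z - (4 * t + 8)) (by omega), Or.inl (by omega)⟩)
          · exact Or.inr (Or.inr ⟨_, _, LE3_s0 t, Or.inl (by omega)⟩)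
        · rcases Nat.lt_or_ge z (8 * t + 12) with h4 | h4
          · exact Or.inr (Or.inr ⟨_, _, LE3_r3 t (8 * t + 11 - z) (by omega), Or.inl (by omega)⟩)
          · exact Or.inr (Or.inr ⟨_, _, LE3_s1 t, Or.inl (by omega)⟩)
      · rcases Nat.lt_or_ge z (8 * t + 15) with h3 | h3
        · rcases Nat.lt_or_ge z (8 * t + 14) with h4 | h4
          · exact Or.inr (Or.inr ⟨_, _, LE3_s2 t, Or.inl (by omega)⟩)
          · exact Or.inr (Or.inr ⟨_, _, LE3_s1 t, Or.inr (by omega)⟩)
        · rcases Nat.lt_or_ge z (8 * t + 16) with h4 | h4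
          · exact Or.inr (Or.inr ⟨_, _, LE3_s3 t, Or.inl (by omega)⟩)
          · exact Or.inr (Or.inr ⟨_, _, LE3_s4 t, Or.inl (by omega)⟩)
  · rcases Nat.lt_or_ge z (14 * t + 27) with h1 | h1
    · rcases Nat.lt_or_ge z (14 * t + 23) with h2 | h2
      · rcases Nat.lt_or_ge z (10 * t + 19) with h3 | h3
        · exact Or.inr (Or.inr ⟨_, _, LE3_r4 t (z - (8 * t + 17)) (by omega), Or.inr (by omega)⟩)
        · rcases Nat.lt_or_ge z (12 * t + 22) with h4 | h4
          · exact Or.inr (Or.inr ⟨_, _, LE3_r0 t (12 * t + 21 - z) (by omega), Or.inr (by omega)⟩)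
          · exact Or.inr (Or.inr ⟨_, _, LE3_r5 t (z - (12 * t + 22)) (by omega), Or.inl (by omega)⟩)
      · rcases Nat.lt_or_ge z (14 * t + 25) with h3 | h3
        · rcases Nat.lt_or_ge z (14 * t + 24) with h4 | h4
          · exact Or.inr (Or.inr ⟨_, _, LE3_s5 t, Or.inl (by omega)⟩)
          · exact Or.inr (Or.inr ⟨_, _, LE3_s6 t, Or.inl (by omega)⟩)
        · rcases Nat.lt_or_ge z (14 * t + 26) with h4 | h4
          · exact Or.inr (Or.inr ⟨_, _, LE3_s5 t, Or.inr (by omega)⟩)
          · exact Or.inr (Or.inr ⟨_, _, LE3_r3 t ((z - (14 * t + 26)) / 2) (by omega), Or.inr (by omega)⟩)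
    · rcases Nat.lt_or_ge z (20 * t + 32) with h2 | h2
      · rcases Nat.lt_or_ge z (18 * t + 28) with h3 | h3
        · rcases Nat.lt_or_ge z (18 * t + 27) with h4 | h4
          · rcases Nat.mod_two_eq_zero_or_one z with hp | hp
            · exact Or.inr (Or.inr ⟨_, _, LE3_r3 t ((z - (14 * t + 26)) / 2) (by omega), Or.inr (by omega)⟩)
            · exact Or.inr (Or.inr ⟨_, _, LE3_r2 t ((z - (14 * t + 27)) / 2) (by omega), Or.inr (by omega)⟩)
          · exact Or.inr (Or.inr ⟨_, _, LE3_r2 t ((z - (14 * t + 27)) / 2) (by omega), Or.inr (by omega)⟩)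
        · rcases Nat.lt_or_ge z (20 * t + 31) with h4 | h4
          · exact Or.inr (Or.inr ⟨_, _, LE3_r1 t (20 * t + 30 - z) (by omega), Or.inr (by omega)⟩)
          · exact Or.inr (Or.inr ⟨_, _, LE3_s4 t, Or.inr (by omega)⟩)
      · rcases Nat.lt_or_ge z (20 * t + 34) with h3 | h3
        · rcases Nat.lt_or_ge z (20 * t + 33) with h4 | h4
          · exact Or.inr (Or.inl (by omega))
          · exact Or.inr (Or.inr ⟨_, _, LE3_r0 t ((z - (20 * t + 33)) / 2) (by omega), Or.inl (by omega)⟩)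
        · rcases Nat.lt_or_ge z (24 * t + 38) with h4 | h4
          · rcases Nat.mod_two_eq_zero_or_one z with hp | hp
            · exact Or.inr (Or.inr ⟨_, _, LE3_r1 t ((z - (20 * t + 34)) / 2) (by omega), Or.inl (by omega)⟩)
            · exact Or.inr (Or.inr ⟨_, _, LE3_r0 t ((z - (20 * t + 33)) / 2) (by omega), Or.inl (by omega)⟩)
          · exact Or.inr (Or.inr ⟨_, _, LE3_r1 t ((z - (20 * t + 34)) / 2) (by omega), Or.inl (by omega)⟩)

theorem LE3_sums (t z : ℕ) (z1 : 6 * t + 12 ≤ z) (z2 : z ≤ 42 * t + 66) : 4 * t + 7 + (20 * t + 32) = z ∨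
    ∃ x y, (x, y) ∈ LE3 t ∧ (4 * t + 7 + x = z ∨ 20 * t + 32 + y = z ∨ x + y = z) := by
  rcases Nat.lt_or_ge z (20 * t + 34) with h0 | h0
  · rcases Nat.lt_or_ge z (12 * t + 24) with h1 | h1
    · rcases Nat.lt_or_ge z (10 * t + 18) with h2 | h2
      · rcases Nat.lt_or_ge z (8 * t + 14) with h3 | h3
        · rcases Nat.lt_or_ge z (8 * t + 13) with h4 | h4
          · exact Or.inr ⟨_, _, LE3_r2 t (8 * t + 12 - z) (by omega), Or.inl (by omega)⟩
          · exact Or.inr ⟨_, _, LE3_s0 t, Or.inr (Or.inr (by omega))⟩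
        · rcases Nat.lt_or_ge z (8 * t + 15) with h4 | h4
          · exact Or.inr ⟨_, _, LE3_s2 t, Or.inr (Or.inr (by omega))⟩
          · rcases Nat.lt_or_ge z (10 * t + 17) with h5 | h5
            · exact Or.inr ⟨_, _, LE3_r4 t (z - (8 * t + 15)) (by omega), Or.inl (by omega)⟩
            · exact Or.inr ⟨_, _, LE3_s0 t, Or.inl (by omega)⟩
      · rcases Nat.lt_or_ge z (12 * t + 21) with h3 | h3
        · rcases Nat.lt_or_ge z (12 * t + 19) with h4 | h4
          · exact Or.inr ⟨_, _, LE3_r3 t (12 * t + 18 - z) (by omega), Or.inl (by omega)⟩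
          · rcases Nat.lt_or_ge z (12 * t + 20) with h5 | h5
            · exact Or.inr ⟨_, _, LE3_s1 t, Or.inl (by omega)⟩
            · exact Or.inr ⟨_, _, LE3_s2 t, Or.inl (by omega)⟩
        · rcases Nat.lt_or_ge z (12 * t + 22) with h4 | h4
          · exact Or.inr ⟨_, _, LE3_s3 t, Or.inr (Or.inr (by omega))⟩
          · rcases Nat.lt_or_ge z (12 * t + 23) with h5 | h5
            · exact Or.inr ⟨_, _, LE3_s3 t, Or.inl (by omega)⟩
            · exact Or.inr ⟨_, _, LE3_s4 t, Or.inl (by omega)⟩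
    · rcases Nat.lt_or_ge z (16 * t + 28) with h2 | h2
      · rcases Nat.lt_or_ge z (16 * t + 25) with h3 | h3
        · rcases Nat.lt_or_ge z (12 * t + 25) with h4 | h4
          · exact Or.inr ⟨_, _, LE3_r5 t ((z - (12 * t + 24)) / 2) (by omega), Or.inr (Or.inr (by omega))⟩
          · rcases Nat.mod_two_eq_zero_or_one z with hp | hp
            · exact Or.inr ⟨_, _, LE3_r5 t ((z - (12 * t + 24)) / 2) (by omega), Or.inr (Or.inr (by omega))⟩
            · exact Or.inr ⟨_, _, LE3_r4 t ((z - (12 * t + 25)) / 2) (by omega), Or.inr (Or.inr (by omega))⟩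
        · rcases Nat.lt_or_ge z (16 * t + 26) with h4 | h4
          · exact Or.inr ⟨_, _, LE3_r4 t ((z - (12 * t + 25)) / 2) (by omega), Or.inr (Or.inr (by omega))⟩
          · rcases Nat.lt_or_ge z (16 * t + 27) with h5 | h5
            · exact Or.inr ⟨_, _, LE3_s1 t, Or.inr (Or.inr (by omega))⟩
            · exact Or.inr ⟨_, _, LE3_r4 t ((z - (12 * t + 25)) / 2) (by omega), Or.inr (Or.inr (by omega))⟩
      · rcases Nat.lt_or_ge z (18 * t + 31) with h3 | h3
        · rcases Nat.lt_or_ge z (16 * t + 29) with h4 | h4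
          · exact Or.inr ⟨_, _, LE3_s6 t, Or.inr (Or.inr (by omega))⟩
          · rcases Nat.lt_or_ge z (18 * t + 30) with h5 | h5
            · exact Or.inr ⟨_, _, LE3_r5 t (z - (16 * t + 29)) (by omega), Or.inl (by omega)⟩
            · exact Or.inr ⟨_, _, LE3_s5 t, Or.inl (by omega)⟩
        · rcases Nat.lt_or_ge z (18 * t + 32) with h4 | h4
          · exact Or.inr ⟨_, _, LE3_s6 t, Or.inl (by omega)⟩
          · rcases Nat.lt_or_ge z (20 * t + 33) with h5 | h5
            · exact Or.inr ⟨_, _, LE3_r2 t (z - (18 * t + 32)) (by omega), Or.inr (Or.inr (by omega))⟩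
            · exact Or.inr ⟨_, _, LE3_s2 t, Or.inr (Or.inl (by omega))⟩
  · rcases Nat.lt_or_ge z (28 * t + 48) with h1 | h1
    · rcases Nat.lt_or_ge z (24 * t + 39) with h2 | h2
      · rcases Nat.lt_or_ge z (22 * t + 36) with h3 | h3
        · rcases Nat.lt_or_ge z (22 * t + 35) with h4 | h4
          · exact Or.inr ⟨_, _, LE3_r5 t (z - (20 * t + 34)) (by omega), Or.inr (Or.inl (by omega))⟩
          · exact Or.inr ⟨_, _, LE3_s0 t, Or.inr (Or.inl (by omega))⟩
        · rcases Nat.lt_or_ge z (22 * t + 37) with h4 | h4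
          · exact Or.inr ⟨_, _, LE3_s6 t, Or.inr (Or.inl (by omega))⟩
          · rcases Nat.lt_or_ge z (24 * t + 38) with h5 | h5
            · exact Or.inr ⟨_, _, LE3_r3 t (z - (22 * t + 37)) (by omega), Or.inr (Or.inr (by omega))⟩
            · exact Or.inr ⟨_, _, LE3_s3 t, Or.inr (Or.inl (by omega))⟩
      · rcases Nat.lt_or_ge z (28 * t + 45) with h3 | h3
        · rcases Nat.lt_or_ge z (24 * t + 40) with h4 | h4
          · exact Or.inl (by omega)
          · rcases Nat.lt_or_ge z (24 * t + 41) with h5 | h5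
            · exact Or.inr ⟨_, _, LE3_r0 t ((z - (24 * t + 40)) / 2) (by omega), Or.inl (by omega)⟩
            · rcases Nat.mod_two_eq_zero_or_one z with hp | hp
              · exact Or.inr ⟨_, _, LE3_r0 t ((z - (24 * t + 40)) / 2) (by omega), Or.inl (by omega)⟩
              · exact Or.inr ⟨_, _, LE3_r1 t ((z - (24 * t + 41)) / 2) (by omega), Or.inl (by omega)⟩
        · rcases Nat.lt_or_ge z (28 * t + 46) with h4 | h4
          · exact Or.inr ⟨_, _, LE3_r1 t ((z - (24 * t + 41)) / 2) (by omega), Or.inl (by omega)⟩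
          · rcases Nat.lt_or_ge z (28 * t + 47) with h5 | h5
            · exact Or.inr ⟨_, _, LE3_s1 t, Or.inr (Or.inl (by omega))⟩
            · exact Or.inr ⟨_, _, LE3_s4 t, Or.inr (Or.inr (by omega))⟩
    · rcases Nat.lt_or_ge z (34 * t + 58) with h2 | h2
      · rcases Nat.lt_or_ge z (30 * t + 51) with h3 | h3
        · rcases Nat.lt_or_ge z (28 * t + 49) with h4 | h4
          · exact Or.inr ⟨_, _, LE3_s5 t, Or.inr (Or.inr (by omega))⟩
          · exact Or.inr ⟨_, _, LE3_r4 t (z - (28 * t + 49)) (by omega), Or.inr (Or.inl (by omega))⟩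
        · rcases Nat.lt_or_ge z (32 * t + 54) with h4 | h4
          · exact Or.inr ⟨_, _, LE3_r0 t (32 * t + 53 - z) (by omega), Or.inr (Or.inl (by omega))⟩
          · rcases Nat.lt_or_ge z (34 * t + 57) with h5 | h5
            · exact Or.inr ⟨_, _, LE3_r0 t (z - (32 * t + 54)) (by omega), Or.inr (Or.inr (by omega))⟩
            · exact Or.inr ⟨_, _, LE3_s5 t, Or.inr (Or.inl (by omega))⟩
      · rcases Nat.lt_or_ge z (38 * t + 60) with h3 | h3
        · rcases Nat.lt_or_ge z (34 * t + 59) with h4 | h4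
          · exact Or.inr ⟨_, _, LE3_r3 t ((z - (34 * t + 58)) / 2) (by omega), Or.inr (Or.inl (by omega))⟩
          · rcases Nat.lt_or_ge z (38 * t + 59) with h5 | h5
            · rcases Nat.mod_two_eq_zero_or_one z with hp | hp
              · exact Or.inr ⟨_, _, LE3_r3 t ((z - (34 * t + 58)) / 2) (by omega), Or.inr (Or.inl (by omega))⟩
              · exact Or.inr ⟨_, _, LE3_r2 t ((z - (34 * t + 59)) / 2) (by omega), Or.inr (Or.inl (by omega))⟩
            · exact Or.inr ⟨_, _, LE3_r2 t ((z - (34 * t + 59)) / 2) (by omega), Or.inr (Or.inl (by omega))⟩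
        · rcases Nat.lt_or_ge z (40 * t + 63) with h4 | h4
          · exact Or.inr ⟨_, _, LE3_r1 t (40 * t + 62 - z) (by omega), Or.inr (Or.inl (by omega))⟩
          · rcases Nat.lt_or_ge z (40 * t + 64) with h5 | h5
            · exact Or.inr ⟨_, _, LE3_s4 t, Or.inr (Or.inl (by omega))⟩
            · exact Or.inr ⟨_, _, LE3_r1 t (z - (40 * t + 64)) (by omega), Or.inr (Or.inr (by omega))⟩

theorem LE3_sem (t : ℕ) : IsSuperEdgeMagic (book (12 * t + 18)) :=
  book_sem _ (4 * t + 7) (20 * t + 32) (6 * t + 12) (LE3 t) (LE3_len t)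
    (fun z h1 h2 => LE3_labels t z h1 (by omega))
    (fun z h1 h2 => LE3_sums t z h1 (by omega))

end Pool.Agent.V1149.Books
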