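import Mathlib
import Pool.Agent.V1149.Books.Basic

/-!
# An explicit family of super edge-magic labelings of books (n = 12 * t + 8)
-/

namespace Pool.Agent.V1149.Books

open Pool.Agent.V1149.Labeling SimpleGraph


/-- The pages of the labeling `LE4`. -/
def LE4 (t : ℕ) : List (ℕ × ℕ) :=
  runA (4 * t + 5) (18 * t + 13) (2 * t + 1) ++ (
  runA (4 * t + 6) (20 * t + 14) (2 * t + 1) ++ (
  runA (12 * t + 11) (2 * t + 2) (2 * t + 1) ++ (
  runA (12 * t + 10) (22 * t + 16) (2 * t + 1) ++ (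
  runB (4 * t + 3) (8 * t + 9) (2 * t + 1) ++ (
  runB (24 * t + 17) (8 * t + 8) (2 * t + 1) ++ (
  [(8 * t + 7, 1), (24 * t + 18, 16 * t + 12)]))))))

lemma LE4_r0 (t q : ℕ) (h : q < 2 * t + 1) : (4 * t + 5 + 2 * q, 18 * t + 13 - q) ∈ LE4 t :=
  List.mem_append_left _ (memA h)

lemma LE4_r1 (t q : ℕ) (h : q < 2 * t + 1) : (4 * t + 6 + 2 * q, 20 * t + 14 - q) ∈ LE4 t :=
  List.mem_append_right _ (List.mem_append_left _ (memA h))

lemma LE4_r2 (t q : ℕ) (h : q < 2 * t + 1) : (12 * t + 11 + 2 * q, 2 * t + 2 - q) ∈ LE4 t :=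
  List.mem_append_right _ (List.mem_append_right _ (List.mem_append_left _ (memA h)))

lemma LE4_r3 (t q : ℕ) (h : q < 2 * t + 1) : (12 * t + 10 + 2 * q, 22 * t + 16 - q) ∈ LE4 t :=
  List.mem_append_right _ (List.mem_append_right _ (List.mem_append_right _ (List.mem_append_left _ (memA h))))

lemma LE4_r4 (t q : ℕ) (h : q < 2 * t + 1) : (4 * t + 3 - q, 8 * t + 9 + 2 * q) ∈ LE4 t :=
  List.mem_append_right _ (List.mem_append_right _ (List.mem_append_right _ (List.mem_append_right _ (List.mem_append_left _ (memB h)))))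

lemma LE4_r5 (t q : ℕ) (h : q < 2 * t + 1) : (24 * t + 17 - q, 8 * t + 8 + 2 * q) ∈ LE4 t :=
  List.mem_append_right _ (List.mem_append_right _ (List.mem_append_right _ (List.mem_append_right _ (List.mem_append_right _ (List.mem_append_left _ (memB h))))))

lemma LE4_s0 (t : ℕ) : (8 * t + 7, 1) ∈ LE4 t :=
  List.mem_append_right _ (List.mem_append_right _ (List.mem_append_right _ (List.mem_append_right _ (List.mem_append_right _ (List.mem_append_right _ (List.Mem.head _))))))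

lemma LE4_s1 (t : ℕ) : (24 * t + 18, 16 * t + 12) ∈ LE4 t :=
  List.mem_append_right _ (List.mem_append_right _ (List.mem_append_right _ (List.mem_append_right _ (List.mem_append_right _ (List.mem_append_right _ (List.Mem.tail _ (List.Mem.head _)))))))

lemma LE4_len (t : ℕ) : (LE4 t).length = 12 * t + 8 := by
  simp only [LE4, List.length_append, lenA, lenB, lenC, List.length_cons, List.length_nil]
  omega

theorem LE4_labels (t z : ℕ) (z1 : 1 ≤ z) (z2 : z ≤ 24 * t + 18) : z = 4 * t + 4 ∨ z = 20 * t + 15 ∨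
    ∃ x y, (x, y) ∈ LE4 t ∧ (x = z ∨ y = z) := by
  rcases Nat.lt_or_ge z (12 * t + 9) with h0 | h0
  · rcases Nat.lt_or_ge z (4 * t + 6) with h1 | h1
    · rcases Nat.lt_or_ge z (2 * t + 3) with h2 | h2
      · rcases Nat.lt_or_ge z (2) with h3 | h3
        · exact Or.inr (Or.inr ⟨_, _, LE4_s0 t, Or.inr (by omega)⟩)
        · exact Or.inr (Or.inr ⟨_, _, LE4_r2 t (2 * t + 2 - z) (by omega), Or.inr (by omega)⟩)
      · rcases Nat.lt_or_ge z (4 * t + 4) with h3 | h3
        · exact Or.inr (Or.inr ⟨_, _, LE4_r4 t (4 * t + 3 - z) (by omega), Or.inl (by omega)⟩)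
        · rcases Nat.lt_or_ge z (4 * t + 5) with h4 | h4
          · exact Or.inl (by omega)
          · exact Or.inr (Or.inr ⟨_, _, LE4_r0 t ((z - (4 * t + 5)) / 2) (by omega), Or.inl (by omega)⟩)
    · rcases Nat.lt_or_ge z (8 * t + 7) with h2 | h2
      · rcases Nat.lt_or_ge z (8 * t + 6) with h3 | h3
        · rcases Nat.mod_two_eq_zero_or_one z with hp | hp
          · exact Or.inr (Or.inr ⟨_, _, LE4_r1 t ((z - (4 * t + 6)) / 2) (by omega), Or.inl (by omega)⟩)
          · exact Or.inr (Or.inr ⟨_, _, LE4_r0 t ((z - (4 * t + 5)) / 2) (by omega), Or.inl (by omega)⟩)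
        · exact Or.inr (Or.inr ⟨_, _, LE4_r1 t ((z - (4 * t + 6)) / 2) (by omega), Or.inl (by omega)⟩)
      · rcases Nat.lt_or_ge z (8 * t + 8) with h3 | h3
        · exact Or.inr (Or.inr ⟨_, _, LE4_s0 t, Or.inl (by omega)⟩)
        · rcases Nat.lt_or_ge z (8 * t + 9) with h4 | h4
          · exact Or.inr (Or.inr ⟨_, _, LE4_r5 t ((z - (8 * t + 8)) / 2) (by omega), Or.inr (by omega)⟩)
          · rcases Nat.mod_two_eq_zero_or_one z with hp | hp
            · exact Or.inr (Or.inr ⟨_, _, LE4_r5 t ((z - (8 * t + 8)) / 2) (by omega), Or.inr (by omega)⟩)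
            · exact Or.inr (Or.inr ⟨_, _, LE4_r4 t ((z - (8 * t + 9)) / 2) (by omega), Or.inr (by omega)⟩)
  · rcases Nat.lt_or_ge z (16 * t + 13) with h1 | h1
    · rcases Nat.lt_or_ge z (12 * t + 11) with h2 | h2
      · rcases Nat.lt_or_ge z (12 * t + 10) with h3 | h3
        · exact Or.inr (Or.inr ⟨_, _, LE4_r4 t ((z - (8 * t + 9)) / 2) (by omega), Or.inr (by omega)⟩)
        · exact Or.inr (Or.inr ⟨_, _, LE4_r3 t ((z - (12 * t + 10)) / 2) (by omega), Or.inl (by omega)⟩)
      · rcases Nat.lt_or_ge z (16 * t + 11) with h3 | h3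
        · rcases Nat.mod_two_eq_zero_or_one z with hp | hp
          · exact Or.inr (Or.inr ⟨_, _, LE4_r3 t ((z - (12 * t + 10)) / 2) (by omega), Or.inl (by omega)⟩)
          · exact Or.inr (Or.inr ⟨_, _, LE4_r2 t ((z - (12 * t + 11)) / 2) (by omega), Or.inl (by omega)⟩)
        · rcases Nat.lt_or_ge z (16 * t + 12) with h4 | h4
          · exact Or.inr (Or.inr ⟨_, _, LE4_r2 t ((z - (12 * t + 11)) / 2) (by omega), Or.inl (by omega)⟩)
          · exact Or.inr (Or.inr ⟨_, _, LE4_s1 t, Or.inr (by omega)⟩)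
    · rcases Nat.lt_or_ge z (20 * t + 16) with h2 | h2
      · rcases Nat.lt_or_ge z (18 * t + 14) with h3 | h3
        · exact Or.inr (Or.inr ⟨_, _, LE4_r0 t (18 * t + 13 - z) (by omega), Or.inr (by omega)⟩)
        · rcases Nat.lt_or_ge z (20 * t + 15) with h4 | h4
          · exact Or.inr (Or.inr ⟨_, _, LE4_r1 t (20 * t + 14 - z) (by omega), Or.inr (by omega)⟩)
          · exact Or.inr (Or.inl (by omega))
      · rcases Nat.lt_or_ge z (22 * t + 17) with h3 | h3
        · exact Or.inr (Or.inr ⟨_, _, LE4_r3 t (22 * t + 16 - z) (by omega), Or.inr (by omega)⟩)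
        · rcases Nat.lt_or_ge z (24 * t + 18) with h4 | h4
          · exact Or.inr (Or.inr ⟨_, _, LE4_r5 t (24 * t + 17 - z) (by omega), Or.inl (by omega)⟩)
          · exact Or.inr (Or.inr ⟨_, _, LE4_s1 t, Or.inl (by omega)⟩)

theorem LE4_sums (t z : ℕ) (z1 : 6 * t + 7 ≤ z) (z2 : z ≤ 42 * t + 31) : 4 * t + 4 + (20 * t + 15) = z ∨
    ∃ x y, (x, y) ∈ LE4 t ∧ (4 * t + 4 + x = z ∨ 20 * t + 15 + y = z ∨ x + y = z) := by
  rcases Nat.lt_or_ge z (24 * t + 19) with h0 | h0
  · rcases Nat.lt_or_ge z (14 * t + 13) with h1 | h1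
    · rcases Nat.lt_or_ge z (8 * t + 10) with h2 | h2
      · rcases Nat.lt_or_ge z (8 * t + 8) with h3 | h3
        · exact Or.inr ⟨_, _, LE4_r4 t (8 * t + 7 - z) (by omega), Or.inl (by omega)⟩
        · rcases Nat.lt_or_ge z (8 * t + 9) with h4 | h4
          · exact Or.inr ⟨_, _, LE4_s0 t, Or.inr (Or.inr (by omega))⟩
          · exact Or.inr ⟨_, _, LE4_r0 t ((z - (8 * t + 9)) / 2) (by omega), Or.inl (by omega)⟩
      · rcases Nat.lt_or_ge z (12 * t + 11) with h3 | h3
        · rcases Nat.lt_or_ge z (12 * t + 10) with h4 | h4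
          · rcases Nat.mod_two_eq_zero_or_one z with hp | hp
            · exact Or.inr ⟨_, _, LE4_r1 t ((z - (8 * t + 10)) / 2) (by omega), Or.inl (by omega)⟩
            · exact Or.inr ⟨_, _, LE4_r0 t ((z - (8 * t + 9)) / 2) (by omega), Or.inl (by omega)⟩
          · exact Or.inr ⟨_, _, LE4_r1 t ((z - (8 * t + 10)) / 2) (by omega), Or.inl (by omega)⟩
        · rcases Nat.lt_or_ge z (12 * t + 12) with h4 | h4
          · exact Or.inr ⟨_, _, LE4_s0 t, Or.inl (by omega)⟩
          · exact Or.inr ⟨_, _, LE4_r4 t (z - (12 * t + 12)) (by omega), Or.inr (Or.inr (by omega))⟩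
    · rcases Nat.lt_or_ge z (20 * t + 15) with h2 | h2
      · rcases Nat.lt_or_ge z (16 * t + 14) with h3 | h3
        · exact Or.inr ⟨_, _, LE4_r2 t (z - (14 * t + 13)) (by omega), Or.inr (Or.inr (by omega))⟩
        · rcases Nat.lt_or_ge z (16 * t + 15) with h4 | h4
          · exact Or.inr ⟨_, _, LE4_r3 t ((z - (16 * t + 14)) / 2) (by omega), Or.inl (by omega)⟩
          · rcases Nat.mod_two_eq_zero_or_one z with hp | hp
            · exact Or.inr ⟨_, _, LE4_r3 t ((z - (16 * t + 14)) / 2) (by omega), Or.inl (by omega)⟩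
            · exact Or.inr ⟨_, _, LE4_r2 t ((z - (16 * t + 15)) / 2) (by omega), Or.inl (by omega)⟩
      · rcases Nat.lt_or_ge z (20 * t + 17) with h3 | h3
        · rcases Nat.lt_or_ge z (20 * t + 16) with h4 | h4
          · exact Or.inr ⟨_, _, LE4_r2 t ((z - (16 * t + 15)) / 2) (by omega), Or.inl (by omega)⟩
          · exact Or.inr ⟨_, _, LE4_s0 t, Or.inr (Or.inl (by omega))⟩
        · rcases Nat.lt_or_ge z (22 * t + 18) with h4 | h4
          · exact Or.inr ⟨_, _, LE4_r2 t (22 * t + 17 - z) (by omega), Or.inr (Or.inl (by omega))⟩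
          · exact Or.inr ⟨_, _, LE4_r0 t (z - (22 * t + 18)) (by omega), Or.inr (Or.inr (by omega))⟩
  · rcases Nat.lt_or_ge z (32 * t + 25) with h1 | h1
    · rcases Nat.lt_or_ge z (28 * t + 22) with h2 | h2
      · rcases Nat.lt_or_ge z (24 * t + 20) with h3 | h3
        · exact Or.inl (by omega)
        · rcases Nat.lt_or_ge z (26 * t + 21) with h4 | h4
          · exact Or.inr ⟨_, _, LE4_r1 t (z - (24 * t + 20)) (by omega), Or.inr (Or.inr (by omega))⟩
          · exact Or.inr ⟨_, _, LE4_r5 t (28 * t + 21 - z) (by omega), Or.inl (by omega)⟩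
      · rcases Nat.lt_or_ge z (28 * t + 24) with h3 | h3
        · rcases Nat.lt_or_ge z (28 * t + 23) with h4 | h4
          · exact Or.inr ⟨_, _, LE4_s1 t, Or.inl (by omega)⟩
          · exact Or.inr ⟨_, _, LE4_r5 t ((z - (28 * t + 23)) / 2) (by omega), Or.inr (Or.inl (by omega))⟩
        · rcases Nat.lt_or_ge z (32 * t + 24) with h4 | h4
          · rcases Nat.mod_two_eq_zero_or_one z with hp | hp
            · exact Or.inr ⟨_, _, LE4_r4 t ((z - (28 * t + 24)) / 2) (by omega), Or.inr (Or.inl (by omega))⟩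
            · exact Or.inr ⟨_, _, LE4_r5 t ((z - (28 * t + 23)) / 2) (by omega), Or.inr (Or.inl (by omega))⟩
          · exact Or.inr ⟨_, _, LE4_r4 t ((z - (28 * t + 24)) / 2) (by omega), Or.inr (Or.inl (by omega))⟩
    · rcases Nat.lt_or_ge z (36 * t + 28) with h2 | h2
      · rcases Nat.lt_or_ge z (34 * t + 26) with h3 | h3
        · exact Or.inr ⟨_, _, LE4_r5 t (z - (32 * t + 25)) (by omega), Or.inr (Or.inr (by omega))⟩
        · rcases Nat.lt_or_ge z (36 * t + 27) with h4 | h4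
          · exact Or.inr ⟨_, _, LE4_r3 t (z - (34 * t + 26)) (by omega), Or.inr (Or.inr (by omega))⟩
          · exact Or.inr ⟨_, _, LE4_s1 t, Or.inr (Or.inl (by omega))⟩
      · rcases Nat.lt_or_ge z (40 * t + 30) with h3 | h3
        · rcases Nat.lt_or_ge z (38 * t + 29) with h4 | h4
          · exact Or.inr ⟨_, _, LE4_r0 t (38 * t + 28 - z) (by omega), Or.inr (Or.inl (by omega))⟩
          · exact Or.inr ⟨_, _, LE4_r1 t (40 * t + 29 - z) (by omega), Or.inr (Or.inl (by omega))⟩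
        · rcases Nat.lt_or_ge z (40 * t + 31) with h4 | h4
          · exact Or.inr ⟨_, _, LE4_s1 t, Or.inr (Or.inr (by omega))⟩
          · exact Or.inr ⟨_, _, LE4_r3 t (42 * t + 31 - z) (by omega), Or.inr (Or.inl (by omega))⟩

theorem LE4_sem (t : ℕ) : IsSuperEdgeMagic (book (12 * t + 8)) :=
  book_sem _ (4 * t + 4) (20 * t + 15) (6 * t + 7) (LE4 t) (LE4_len t)
    (fun z h1 h2 => LE4_labels t z h1 (by omega))
    (fun z h1 h2 => LE4_sums t z h1 (by omega))

end Pool.Agent.V1149.Books
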