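import Mathlib
import Pool.Agent.V1149.Books.Basic

/-!
# An explicit family of super edge-magic labelings of books (n = 12 * t + 22)
-/

namespace Pool.Agent.V1149.Books

open Pool.Agent.V1149.Labeling SimpleGraph


/-- The pages of the labeling `LE5`. -/
def LE5 (t : ℕ) : List (ℕ × ℕ) :=
  runA (4 * t + 11) (18 * t + 32) (2 * t + 3) ++ (
  runA (4 * t + 12) (20 * t + 36) (2 * t + 1) ++ (
  runA (12 * t + 28) (2 * t + 3) (2 * t + 1) ++ (
  runA (12 * t + 25) (22 * t + 40) (2 * t + 2) ++ (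
  runB (4 * t + 8) (8 * t + 20) (2 * t + 3) ++ (
  runB (24 * t + 44) (8 * t + 19) (2 * t + 2) ++ (
  [(2 * t + 5, 18 * t + 33), (4 * t + 10, 12 * t + 23), (8 * t + 14, 8 * t + 18), (8 * t + 16, 2), (8 * t + 17, 18 * t + 34), (12 * t + 26, 1), (20 * t + 37, 22 * t + 42), (22 * t + 41, 18 * t + 35), (24 * t + 45, 2 * t + 4), (24 * t + 46, 16 * t + 29)]))))))

lemma LE5_r0 (t q : ℕ) (h : q < 2 * t + 3) : (4 * t + 11 + 2 * q, 18 * t + 32 - q) ∈ LE5 t :=
  List.mem_append_left _ (memA h)

lemma LE5_r1 (t q : ℕ) (h : q < 2 * t + 1) : (4 * t + 12 + 2 * q, 20 * t + 36 - q) ∈ LE5 t :=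
  List.mem_append_right _ (List.mem_append_left _ (memA h))

lemma LE5_r2 (t q : ℕ) (h : q < 2 * t + 1) : (12 * t + 28 + 2 * q, 2 * t + 3 - q) ∈ LE5 t :=
  List.mem_append_right _ (List.mem_append_right _ (List.mem_append_left _ (memA h)))

lemma LE5_r3 (t q : ℕ) (h : q < 2 * t + 2) : (12 * t + 25 + 2 * q, 22 * t + 40 - q) ∈ LE5 t :=
  List.mem_append_right _ (List.mem_append_right _ (List.mem_append_right _ (List.mem_append_left _ (memA h))))

lemma LE5_r4 (t q : ℕ) (h : q < 2 * t + 3) : (4 * t + 8 - q, 8 * t + 20 + 2 * q) ∈ LE5 t :=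
  List.mem_append_right _ (List.mem_append_right _ (List.mem_append_right _ (List.mem_append_right _ (List.mem_append_left _ (memB h)))))

lemma LE5_r5 (t q : ℕ) (h : q < 2 * t + 2) : (24 * t + 44 - q, 8 * t + 19 + 2 * q) ∈ LE5 t :=
  List.mem_append_right _ (List.mem_append_right _ (List.mem_append_right _ (List.mem_append_right _ (List.mem_append_right _ (List.mem_append_left _ (memB h))))))

lemma LE5_s0 (t : ℕ) : (2 * t + 5, 18 * t + 33) ∈ LE5 t :=
  List.mem_append_right _ (List.mem_append_right _ (List.mem_append_right _ (List.mem_append_right _ (List.mem_append_right _ (List.mem_append_right _ (List.Mem.head _))))))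

lemma LE5_s1 (t : ℕ) : (4 * t + 10, 12 * t + 23) ∈ LE5 t :=
  List.mem_append_right _ (List.mem_append_right _ (List.mem_append_right _ (List.mem_append_right _ (List.mem_append_right _ (List.mem_append_right _ (List.Mem.tail _ (List.Mem.head _)))))))

lemma LE5_s2 (t : ℕ) : (8 * t + 14, 8 * t + 18) ∈ LE5 t :=
  List.mem_append_right _ (List.mem_append_right _ (List.mem_append_right _ (List.mem_append_right _ (List.mem_append_right _ (List.mem_append_right _ (List.Mem.tail _ (List.Mem.tail _ (List.Mem.head _))))))))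

lemma LE5_s3 (t : ℕ) : (8 * t + 16, 2) ∈ LE5 t :=
  List.mem_append_right _ (List.mem_append_right _ (List.mem_append_right _ (List.mem_append_right _ (List.mem_append_right _ (List.mem_append_right _ (List.Mem.tail _ (List.Mem.tail _ (List.Mem.tail _ (List.Mem.head _)))))))))

lemma LE5_s4 (t : ℕ) : (8 * t + 17, 18 * t + 34) ∈ LE5 t :=
  List.mem_append_right _ (List.mem_append_right _ (List.mem_append_right _ (List.mem_append_right _ (List.mem_append_right _ (List.mem_append_right _ (List.Mem.tail _ (List.Mem.tail _ (List.Mem.tail _ (List.Mem.tail _ (List.Mem.head _))))))))))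

lemma LE5_s5 (t : ℕ) : (12 * t + 26, 1) ∈ LE5 t :=
  List.mem_append_right _ (List.mem_append_right _ (List.mem_append_right _ (List.mem_append_right _ (List.mem_append_right _ (List.mem_append_right _ (List.Mem.tail _ (List.Mem.tail _ (List.Mem.tail _ (List.Mem.tail _ (List.Mem.tail _ (List.Mem.head _)))))))))))

lemma LE5_s6 (t : ℕ) : (20 * t + 37, 22 * t + 42) ∈ LE5 t :=
  List.mem_append_right _ (List.mem_append_right _ (List.mem_append_right _ (List.mem_append_right _ (List.mem_append_right _ (List.mem_append_right _ (List.Mem.tail _ (List.Mem.tail _ (List.Mem.tail _ (List.Mem.tail _ (List.Mem.tail _ (List.Mem.tail _ (List.Mem.head _))))))))))))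

lemma LE5_s7 (t : ℕ) : (22 * t + 41, 18 * t + 35) ∈ LE5 t :=
  List.mem_append_right _ (List.mem_append_right _ (List.mem_append_right _ (List.mem_append_right _ (List.mem_append_right _ (List.mem_append_right _ (List.Mem.tail _ (List.Mem.tail _ (List.Mem.tail _ (List.Mem.tail _ (List.Mem.tail _ (List.Mem.tail _ (List.Mem.tail _ (List.Mem.head _)))))))))))))

lemma LE5_s8 (t : ℕ) : (24 * t + 45, 2 * t + 4) ∈ LE5 t :=
  List.mem_append_right _ (List.mem_append_right _ (List.mem_append_right _ (List.mem_append_right _ (List.mem_append_right _ (List.mem_append_right _ (List.Mem.tail _ (List.Mem.tail _ (List.Mem.tail _ (List.Mem.tail _ (List.Mem.tail _ (List.Mem.tail _ (List.Mem.tail _ (List.Mem.tail _ (List.Mem.head _))))))))))))))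

lemma LE5_s9 (t : ℕ) : (24 * t + 46, 16 * t + 29) ∈ LE5 t :=
  List.mem_append_right _ (List.mem_append_right _ (List.mem_append_right _ (List.mem_append_right _ (List.mem_append_right _ (List.mem_append_right _ (List.Mem.tail _ (List.Mem.tail _ (List.Mem.tail _ (List.Mem.tail _ (List.Mem.tail _ (List.Mem.tail _ (List.Mem.tail _ (List.Mem.tail _ (List.Mem.tail _ (List.Mem.head _)))))))))))))))

lemma LE5_len (t : ℕ) : (LE5 t).length = 12 * t + 22 := by
  simp only [LE5, List.length_append, lenA, lenB, lenC, List.length_cons, List.length_nil]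
  omega

theorem LE5_labels (t z : ℕ) (z1 : 1 ≤ z) (z2 : z ≤ 24 * t + 46) : z = 4 * t + 9 ∨ z = 20 * t + 38 ∨
    ∃ x y, (x, y) ∈ LE5 t ∧ (x = z ∨ y = z) := by
  rcases Nat.lt_or_ge z (12 * t + 24) with h0 | h0
  · rcases Nat.lt_or_ge z (8 * t + 13) with h1 | h1
    · rcases Nat.lt_or_ge z (2 * t + 6) with h2 | h2
      · rcases Nat.lt_or_ge z (3) with h3 | h3
        · rcases Nat.lt_or_ge z (2) with h4 | h4
          · exact Or.inr (Or.inr ⟨_, _, LE5_s5 t, Or.inr (by omega)⟩)
          · exact Or.inr (Or.inr ⟨_, _, LE5_s3 t, Or.inr (by omega)⟩)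
        · rcases Nat.lt_or_ge z (2 * t + 4) with h4 | h4
          · exact Or.inr (Or.inr ⟨_, _, LE5_r2 t (2 * t + 3 - z) (by omega), Or.inr (by omega)⟩)
          · rcases Nat.lt_or_ge z (2 * t + 5) with h5 | h5
            · exact Or.inr (Or.inr ⟨_, _, LE5_s8 t, Or.inr (by omega)⟩)
            · exact Or.inr (Or.inr ⟨_, _, LE5_s0 t, Or.inl (by omega)⟩)
      · rcases Nat.lt_or_ge z (4 * t + 10) with h3 | h3
        · rcases Nat.lt_or_ge z (4 * t + 9) with h4 | h4
          · exact Or.inr (Or.inr ⟨_, _, LE5_r4 t (4 * t + 8 - z) (by omega), Or.inl (by omega)⟩)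
          · exact Or.inl (by omega)
        · rcases Nat.lt_or_ge z (4 * t + 11) with h4 | h4
          · exact Or.inr (Or.inr ⟨_, _, LE5_s1 t, Or.inl (by omega)⟩)
          · rcases Nat.lt_or_ge z (4 * t + 12) with h5 | h5
            · exact Or.inr (Or.inr ⟨_, _, LE5_r0 t ((z - (4 * t + 11)) / 2) (by omega), Or.inl (by omega)⟩)
            · rcases Nat.mod_two_eq_zero_or_one z with hp | hp
              · exact Or.inr (Or.inr ⟨_, _, LE5_r1 t ((z - (4 * t + 12)) / 2) (by omega), Or.inl (by omega)⟩)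
              · exact Or.inr (Or.inr ⟨_, _, LE5_r0 t ((z - (4 * t + 11)) / 2) (by omega), Or.inl (by omega)⟩)
    · rcases Nat.lt_or_ge z (8 * t + 18) with h2 | h2
      · rcases Nat.lt_or_ge z (8 * t + 15) with h3 | h3
        · rcases Nat.lt_or_ge z (8 * t + 14) with h4 | h4
          · exact Or.inr (Or.inr ⟨_, _, LE5_r0 t ((z - (4 * t + 11)) / 2) (by omega), Or.inl (by omega)⟩)
          · exact Or.inr (Or.inr ⟨_, _, LE5_s2 t, Or.inl (by omega)⟩)
        · rcases Nat.lt_or_ge z (8 * t + 16) with h4 | h4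
          · exact Or.inr (Or.inr ⟨_, _, LE5_r0 t ((z - (4 * t + 11)) / 2) (by omega), Or.inl (by omega)⟩)
          · rcases Nat.lt_or_ge z (8 * t + 17) with h5 | h5
            · exact Or.inr (Or.inr ⟨_, _, LE5_s3 t, Or.inl (by omega)⟩)
            · exact Or.inr (Or.inr ⟨_, _, LE5_s4 t, Or.inl (by omega)⟩)
      · rcases Nat.lt_or_ge z (8 * t + 20) with h3 | h3
        · rcases Nat.lt_or_ge z (8 * t + 19) with h4 | h4
          · exact Or.inr (Or.inr ⟨_, _, LE5_s2 t, Or.inr (by omega)⟩)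
          · exact Or.inr (Or.inr ⟨_, _, LE5_r5 t ((z - (8 * t + 19)) / 2) (by omega), Or.inr (by omega)⟩)
        · rcases Nat.lt_or_ge z (12 * t + 22) with h4 | h4
          · rcases Nat.mod_two_eq_zero_or_one z with hp | hp
            · exact Or.inr (Or.inr ⟨_, _, LE5_r4 t ((z - (8 * t + 20)) / 2) (by omega), Or.inr (by omega)⟩)
            · exact Or.inr (Or.inr ⟨_, _, LE5_r5 t ((z - (8 * t + 19)) / 2) (by omega), Or.inr (by omega)⟩)
          · rcases Nat.lt_or_ge z (12 * t + 23) with h5 | h5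
            · exact Or.inr (Or.inr ⟨_, _, LE5_r4 t ((z - (8 * t + 20)) / 2) (by omega), Or.inr (by omega)⟩)
            · exact Or.inr (Or.inr ⟨_, _, LE5_s1 t, Or.inr (by omega)⟩)
  · rcases Nat.lt_or_ge z (18 * t + 35) with h1 | h1
    · rcases Nat.lt_or_ge z (16 * t + 28) with h2 | h2
      · rcases Nat.lt_or_ge z (12 * t + 26) with h3 | h3
        · rcases Nat.lt_or_ge z (12 * t + 25) with h4 | h4
          · exact Or.inr (Or.inr ⟨_, _, LE5_r4 t ((z - (8 * t + 20)) / 2) (by omega), Or.inr (by omega)⟩)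
          · exact Or.inr (Or.inr ⟨_, _, LE5_r3 t ((z - (12 * t + 25)) / 2) (by omega), Or.inl (by omega)⟩)
        · rcases Nat.lt_or_ge z (12 * t + 27) with h4 | h4
          · exact Or.inr (Or.inr ⟨_, _, LE5_s5 t, Or.inl (by omega)⟩)
          · rcases Nat.lt_or_ge z (12 * t + 28) with h5 | h5
            · exact Or.inr (Or.inr ⟨_, _, LE5_r3 t ((z - (12 * t + 25)) / 2) (by omega), Or.inl (by omega)⟩)
            · rcases Nat.mod_two_eq_zero_or_one z with hp | hp
              · exact Or.inr (Or.inr ⟨_, _, LE5_r2 t ((z - (12 * t + 28)) / 2) (by omega), Or.inl (by omega)⟩)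
              · exact Or.inr (Or.inr ⟨_, _, LE5_r3 t ((z - (12 * t + 25)) / 2) (by omega), Or.inl (by omega)⟩)
      · rcases Nat.lt_or_ge z (16 * t + 30) with h3 | h3
        · rcases Nat.lt_or_ge z (16 * t + 29) with h4 | h4
          · exact Or.inr (Or.inr ⟨_, _, LE5_r2 t ((z - (12 * t + 28)) / 2) (by omega), Or.inl (by omega)⟩)
          · exact Or.inr (Or.inr ⟨_, _, LE5_s9 t, Or.inr (by omega)⟩)
        · rcases Nat.lt_or_ge z (18 * t + 33) with h4 | h4
          · exact Or.inr (Or.inr ⟨_, _, LE5_r0 t (18 * t + 32 - z) (by omega), Or.inr (by omega)⟩)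
          · rcases Nat.lt_or_ge z (18 * t + 34) with h5 | h5
            · exact Or.inr (Or.inr ⟨_, _, LE5_s0 t, Or.inr (by omega)⟩)
            · exact Or.inr (Or.inr ⟨_, _, LE5_s4 t, Or.inr (by omega)⟩)
    · rcases Nat.lt_or_ge z (22 * t + 41) with h2 | h2
      · rcases Nat.lt_or_ge z (20 * t + 37) with h3 | h3
        · rcases Nat.lt_or_ge z (18 * t + 36) with h4 | h4
          · exact Or.inr (Or.inr ⟨_, _, LE5_s7 t, Or.inr (by omega)⟩)
          · exact Or.inr (Or.inr ⟨_, _, LE5_r1 t (20 * t + 36 - z) (by omega), Or.inr (by omega)⟩)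
        · rcases Nat.lt_or_ge z (20 * t + 38) with h4 | h4
          · exact Or.inr (Or.inr ⟨_, _, LE5_s6 t, Or.inl (by omega)⟩)
          · rcases Nat.lt_or_ge z (20 * t + 39) with h5 | h5
            · exact Or.inr (Or.inl (by omega))
            · exact Or.inr (Or.inr ⟨_, _, LE5_r3 t (22 * t + 40 - z) (by omega), Or.inr (by omega)⟩)
      · rcases Nat.lt_or_ge z (22 * t + 43) with h3 | h3
        · rcases Nat.lt_or_ge z (22 * t + 42) with h4 | h4
          · exact Or.inr (Or.inr ⟨_, _, LE5_s7 t, Or.inl (by omega)⟩)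
          · exact Or.inr (Or.inr ⟨_, _, LE5_s6 t, Or.inr (by omega)⟩)
        · rcases Nat.lt_or_ge z (24 * t + 45) with h4 | h4
          · exact Or.inr (Or.inr ⟨_, _, LE5_r5 t (24 * t + 44 - z) (by omega), Or.inl (by omega)⟩)
          · rcases Nat.lt_or_ge z (24 * t + 46) with h5 | h5
            · exact Or.inr (Or.inr ⟨_, _, LE5_s8 t, Or.inl (by omega)⟩)
            · exact Or.inr (Or.inr ⟨_, _, LE5_s9 t, Or.inl (by omega)⟩)

theorem LE5_sums (t z : ℕ) (z1 : 6 * t + 14 ≤ z) (z2 : z ≤ 42 * t + 80) : 4 * t + 9 + (20 * t + 38) = z ∨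
    ∃ x y, (x, y) ∈ LE5 t ∧ (4 * t + 9 + x = z ∨ 20 * t + 38 + y = z ∨ x + y = z) := by
  rcases Nat.lt_or_ge z (24 * t + 46) with h0 | h0
  · rcases Nat.lt_or_ge z (14 * t + 31) with h1 | h1
    · rcases Nat.lt_or_ge z (12 * t + 22) with h2 | h2
      · rcases Nat.lt_or_ge z (8 * t + 19) with h3 | h3
        · rcases Nat.lt_or_ge z (6 * t + 15) with h4 | h4
          · exact Or.inr ⟨_, _, LE5_s0 t, Or.inl (by omega)⟩
          · rcases Nat.lt_or_ge z (8 * t + 18) with h5 | h5
            · exact Or.inr ⟨_, _, LE5_r4 t (8 * t + 17 - z) (by omega), Or.inl (by omega)⟩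
            · exact Or.inr ⟨_, _, LE5_s3 t, Or.inr (Or.inr (by omega))⟩
        · rcases Nat.lt_or_ge z (8 * t + 20) with h4 | h4
          · exact Or.inr ⟨_, _, LE5_s1 t, Or.inl (by omega)⟩
          · rcases Nat.lt_or_ge z (8 * t + 21) with h5 | h5
            · exact Or.inr ⟨_, _, LE5_r0 t ((z - (8 * t + 20)) / 2) (by omega), Or.inl (by omega)⟩
            · rcases Nat.mod_two_eq_zero_or_one z with hp | hp
              · exact Or.inr ⟨_, _, LE5_r0 t ((z - (8 * t + 20)) / 2) (by omega), Or.inl (by omega)⟩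
              · exact Or.inr ⟨_, _, LE5_r1 t ((z - (8 * t + 21)) / 2) (by omega), Or.inl (by omega)⟩
      · rcases Nat.lt_or_ge z (12 * t + 25) with h3 | h3
        · rcases Nat.lt_or_ge z (12 * t + 23) with h4 | h4
          · exact Or.inr ⟨_, _, LE5_r0 t ((z - (8 * t + 20)) / 2) (by omega), Or.inl (by omega)⟩
          · rcases Nat.lt_or_ge z (12 * t + 24) with h5 | h5
            · exact Or.inr ⟨_, _, LE5_s2 t, Or.inl (by omega)⟩
            · exact Or.inr ⟨_, _, LE5_r0 t ((z - (8 * t + 20)) / 2) (by omega), Or.inl (by omega)⟩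
        · rcases Nat.lt_or_ge z (12 * t + 27) with h4 | h4
          · rcases Nat.lt_or_ge z (12 * t + 26) with h5 | h5
            · exact Or.inr ⟨_, _, LE5_s3 t, Or.inl (by omega)⟩
            · exact Or.inr ⟨_, _, LE5_s4 t, Or.inl (by omega)⟩
          · rcases Nat.lt_or_ge z (12 * t + 28) with h5 | h5
            · exact Or.inr ⟨_, _, LE5_s5 t, Or.inr (Or.inr (by omega))⟩
            · exact Or.inr ⟨_, _, LE5_r4 t (z - (12 * t + 28)) (by omega), Or.inr (Or.inr (by omega))⟩
    · rcases Nat.lt_or_ge z (20 * t + 37) with h2 | h2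
      · rcases Nat.lt_or_ge z (16 * t + 34) with h3 | h3
        · rcases Nat.lt_or_ge z (16 * t + 32) with h4 | h4
          · exact Or.inr ⟨_, _, LE5_r2 t (z - (14 * t + 31)) (by omega), Or.inr (Or.inr (by omega))⟩
          · rcases Nat.lt_or_ge z (16 * t + 33) with h5 | h5
            · exact Or.inr ⟨_, _, LE5_s2 t, Or.inr (Or.inr (by omega))⟩
            · exact Or.inr ⟨_, _, LE5_s1 t, Or.inr (Or.inr (by omega))⟩
        · rcases Nat.lt_or_ge z (16 * t + 36) with h4 | h4
          · rcases Nat.lt_or_ge z (16 * t + 35) with h5 | h5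
            · exact Or.inr ⟨_, _, LE5_r3 t ((z - (16 * t + 34)) / 2) (by omega), Or.inl (by omega)⟩
            · exact Or.inr ⟨_, _, LE5_s5 t, Or.inl (by omega)⟩
          · rcases Nat.lt_or_ge z (16 * t + 37) with h5 | h5
            · exact Or.inr ⟨_, _, LE5_r3 t ((z - (16 * t + 34)) / 2) (by omega), Or.inl (by omega)⟩
            · rcases Nat.mod_two_eq_zero_or_one z with hp | hp
              · exact Or.inr ⟨_, _, LE5_r3 t ((z - (16 * t + 34)) / 2) (by omega), Or.inl (by omega)⟩
              · exact Or.inr ⟨_, _, LE5_r2 t ((z - (16 * t + 37)) / 2) (by omega), Or.inl (by omega)⟩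
      · rcases Nat.lt_or_ge z (20 * t + 40) with h3 | h3
        · rcases Nat.lt_or_ge z (20 * t + 38) with h4 | h4
          · exact Or.inr ⟨_, _, LE5_r2 t ((z - (16 * t + 37)) / 2) (by omega), Or.inl (by omega)⟩
          · rcases Nat.lt_or_ge z (20 * t + 39) with h5 | h5
            · exact Or.inr ⟨_, _, LE5_s0 t, Or.inr (Or.inr (by omega))⟩
            · exact Or.inr ⟨_, _, LE5_s5 t, Or.inr (Or.inl (by omega))⟩
        · rcases Nat.lt_or_ge z (22 * t + 42) with h4 | h4
          · rcases Nat.lt_or_ge z (20 * t + 41) with h5 | h5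
            · exact Or.inr ⟨_, _, LE5_s3 t, Or.inr (Or.inl (by omega))⟩
            · exact Or.inr ⟨_, _, LE5_r2 t (22 * t + 41 - z) (by omega), Or.inr (Or.inl (by omega))⟩
          · rcases Nat.lt_or_ge z (22 * t + 43) with h5 | h5
            · exact Or.inr ⟨_, _, LE5_s8 t, Or.inr (Or.inl (by omega))⟩
            · exact Or.inr ⟨_, _, LE5_r0 t (z - (22 * t + 43)) (by omega), Or.inr (Or.inr (by omega))⟩
  · rcases Nat.lt_or_ge z (32 * t + 62) with h1 | h1
    · rcases Nat.lt_or_ge z (28 * t + 54) with h2 | h2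
      · rcases Nat.lt_or_ge z (26 * t + 49) with h3 | h3
        · rcases Nat.lt_or_ge z (24 * t + 47) with h4 | h4
          · exact Or.inr ⟨_, _, LE5_s6 t, Or.inl (by omega)⟩
          · rcases Nat.lt_or_ge z (24 * t + 48) with h5 | h5
            · exact Or.inl (by omega)
            · exact Or.inr ⟨_, _, LE5_r1 t (z - (24 * t + 48)) (by omega), Or.inr (Or.inr (by omega))⟩
        · rcases Nat.lt_or_ge z (26 * t + 51) with h4 | h4
          · rcases Nat.lt_or_ge z (26 * t + 50) with h5 | h5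
            · exact Or.inr ⟨_, _, LE5_s8 t, Or.inr (Or.inr (by omega))⟩
            · exact Or.inr ⟨_, _, LE5_s7 t, Or.inl (by omega)⟩
          · rcases Nat.lt_or_ge z (26 * t + 52) with h5 | h5
            · exact Or.inr ⟨_, _, LE5_s4 t, Or.inr (Or.inr (by omega))⟩
            · exact Or.inr ⟨_, _, LE5_r5 t (28 * t + 53 - z) (by omega), Or.inl (by omega)⟩
      · rcases Nat.lt_or_ge z (28 * t + 57) with h3 | h3
        · rcases Nat.lt_or_ge z (28 * t + 55) with h4 | h4
          · exact Or.inr ⟨_, _, LE5_s8 t, Or.inl (by omega)⟩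
          · rcases Nat.lt_or_ge z (28 * t + 56) with h5 | h5
            · exact Or.inr ⟨_, _, LE5_s9 t, Or.inl (by omega)⟩
            · exact Or.inr ⟨_, _, LE5_s2 t, Or.inr (Or.inl (by omega))⟩
        · rcases Nat.lt_or_ge z (32 * t + 60) with h4 | h4
          · rcases Nat.lt_or_ge z (28 * t + 58) with h5 | h5
            · exact Or.inr ⟨_, _, LE5_r5 t ((z - (28 * t + 57)) / 2) (by omega), Or.inr (Or.inl (by omega))⟩
            · rcases Nat.mod_two_eq_zero_or_one z with hp | hp
              · exact Or.inr ⟨_, _, LE5_r4 t ((z - (28 * t + 58)) / 2) (by omega), Or.inr (Or.inl (by omega))⟩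
              · exact Or.inr ⟨_, _, LE5_r5 t ((z - (28 * t + 57)) / 2) (by omega), Or.inr (Or.inl (by omega))⟩
          · rcases Nat.lt_or_ge z (32 * t + 61) with h5 | h5
            · exact Or.inr ⟨_, _, LE5_r4 t ((z - (28 * t + 58)) / 2) (by omega), Or.inr (Or.inl (by omega))⟩
            · exact Or.inr ⟨_, _, LE5_s1 t, Or.inr (Or.inl (by omega))⟩
    · rcases Nat.lt_or_ge z (38 * t + 73) with h2 | h2
      · rcases Nat.lt_or_ge z (36 * t + 67) with h3 | h3
        · rcases Nat.lt_or_ge z (32 * t + 63) with h4 | h4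
          · exact Or.inr ⟨_, _, LE5_r4 t ((z - (28 * t + 58)) / 2) (by omega), Or.inr (Or.inl (by omega))⟩
          · rcases Nat.lt_or_ge z (34 * t + 65) with h5 | h5
            · exact Or.inr ⟨_, _, LE5_r5 t (z - (32 * t + 63)) (by omega), Or.inr (Or.inr (by omega))⟩
            · exact Or.inr ⟨_, _, LE5_r3 t (z - (34 * t + 65)) (by omega), Or.inr (Or.inr (by omega))⟩
        · rcases Nat.lt_or_ge z (38 * t + 71) with h4 | h4
          · rcases Nat.lt_or_ge z (36 * t + 68) with h5 | h5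
            · exact Or.inr ⟨_, _, LE5_s9 t, Or.inr (Or.inl (by omega))⟩
            · exact Or.inr ⟨_, _, LE5_r0 t (38 * t + 70 - z) (by omega), Or.inr (Or.inl (by omega))⟩
          · rcases Nat.lt_or_ge z (38 * t + 72) with h5 | h5
            · exact Or.inr ⟨_, _, LE5_s0 t, Or.inr (Or.inl (by omega))⟩
            · exact Or.inr ⟨_, _, LE5_s4 t, Or.inr (Or.inl (by omega))⟩
      · rcases Nat.lt_or_ge z (40 * t + 76) with h3 | h3
        · rcases Nat.lt_or_ge z (38 * t + 74) with h4 | h4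
          · exact Or.inr ⟨_, _, LE5_s7 t, Or.inr (Or.inl (by omega))⟩
          · rcases Nat.lt_or_ge z (40 * t + 75) with h5 | h5
            · exact Or.inr ⟨_, _, LE5_r1 t (40 * t + 74 - z) (by omega), Or.inr (Or.inl (by omega))⟩
            · exact Or.inr ⟨_, _, LE5_s9 t, Or.inr (Or.inr (by omega))⟩
        · rcases Nat.lt_or_ge z (42 * t + 79) with h4 | h4
          · rcases Nat.lt_or_ge z (40 * t + 77) with h5 | h5
            · exact Or.inr ⟨_, _, LE5_s7 t, Or.inr (Or.inr (by omega))⟩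
            · exact Or.inr ⟨_, _, LE5_r3 t (42 * t + 78 - z) (by omega), Or.inr (Or.inl (by omega))⟩
          · rcases Nat.lt_or_ge z (42 * t + 80) with h5 | h5
            · exact Or.inr ⟨_, _, LE5_s6 t, Or.inr (Or.inr (by omega))⟩
            · exact Or.inr ⟨_, _, LE5_s6 t, Or.inr (Or.inl (by omega))⟩

theorem LE5_sem (t : ℕ) : IsSuperEdgeMagic (book (12 * t + 22)) :=
  book_sem _ (4 * t + 9) (20 * t + 38) (6 * t + 14) (LE5 t) (LE5_len t)
    (fun z h1 h2 => LE5_labels t z h1 (by omega))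
    (fun z h1 h2 => LE5_sums t z h1 (by omega))

end Pool.Agent.V1149.Books
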