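import Mathlib
import Pool.Agent.V1149.Books.Basic

/-!
# Books: the parity condition for super edge-magic labelings
-/

namespace Pool.Agent.V1149.Books

open Pool.Agent.V1149.Labeling SimpleGraph

lemma edgeMap_inj (n : ℕ) : Function.Injective (edgeMap n) := by
  rintro (a | ⟨i, c⟩) (b | ⟨j, d⟩) h
  · rw [Subsingleton.elim a b]
  · fin_cases d <;> simp [edgeMap] at h
  · fin_cases c <;> simp [edgeMap] at h
  · fin_cases c <;> fin_cases d <;> simp [edgeMap] at h ⊢ <;> exact h

lemma card_edges_eq (n : ℕ) : Nat.card (book n).edgeSet = 3 * n + 1 := by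
  have h := Nat.card_eq_of_bijective (edgeMap n) ⟨edgeMap_inj n, edgeMap_surj n⟩
  rw [← h, Nat.card_eq_fintype_card, Fintype.card_sum, Fintype.card_prod, Fintype.card_fin,
    Fintype.card_fin, Fintype.card_fin]
  ring

lemma two_mul_sum_Icc (p : ℕ) : 2 * ∑ i ∈ Finset.Icc 1 p, i = p * (p + 1) := by
  induction p with
  | zero => simp
  | succ p ih =>
    rw [Finset.sum_Icc_succ_top (by omega), mul_add, ih]
    ring

/-- The sum of an injective function whose image is `{1, ..., p}`. -/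
lemma sum_of_image {α : Type} [Fintype α] (F : α → ℕ) (p : ℕ) (hi : Function.Injective F)
    (him : Set.range F = Set.Icc 1 p) : 2 * ∑ v, F v = p * (p + 1) := by
  classical
  rw [← two_mul_sum_Icc p]
  congr 1
  have h1 : Finset.univ.image F = Finset.Icc 1 p := by
    apply Finset.coe_injective
    rw [Finset.coe_image, Finset.coe_univ, Set.image_univ, him, Finset.coe_Icc]
  rw [← h1, Finset.sum_image (fun a _ b _ h => hi h)]

/-- The counting identity for a super edge-magic labeling of the book. -/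
lemma identity (n : ℕ) (h : IsSuperEdgeMagic (book n)) :
    ∃ W Z SE σ : ℕ, SE + (n + 1) * W + 2 * Z = (3 * n + 1) * σ ∧
      2 * (W + Z) = (2 * n + 2) * (2 * n + 3) ∧
      2 * (W + Z + SE) = (5 * n + 3) * (5 * n + 4) := by
  classical
  obtain ⟨f, σ, ⟨hb, hm⟩, him⟩ := h
  rw [card_verts] at him
  rw [card_verts, card_edges_eq] at hb
  have : Fintype (book n).edgeSet := Fintype.ofFinite _
  have hinj : Function.Injective f := fun a b hab =>
    hb.injOn (Set.mem_univ a) (Set.mem_univ b) hab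
  have hS1 : 2 * ∑ v : (Fin 1 ⊕ Fin n) × Fin 2, f (Sum.inl v) = (2 * n + 2) * (2 * n + 2 + 1) := by
    refine sum_of_image (fun v => f (Sum.inl v)) _ (fun a b hab => Sum.inl_injective (hinj hab)) ?_
    rw [← him]
    ext y
    constructor
    · rintro ⟨v, rfl⟩
      exact ⟨Sum.inl v, ⟨v, rfl⟩, rfl⟩
    · rintro ⟨_, ⟨v, rfl⟩, rfl⟩
      exact ⟨v, rfl⟩
  have hS2 : 2 * ∑ x : ((Fin 1 ⊕ Fin n) × Fin 2) ⊕ (book n).edgeSet, f x =
      (2 * n + 2 + (3 * n + 1)) * (2 * n + 2 + (3 * n + 1) + 1) := by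
    refine sum_of_image f _ hinj ?_
    rw [← Set.image_univ]
    exact hb.image_eq
  rw [Fintype.sum_sum_type] at hS2
  have hE : ∑ e : (book n).edgeSet, f (Sum.inr e) = ∑ k, f (Sum.inr (edgeMap n k)) :=
    (Function.Bijective.sum_comp (⟨edgeMap_inj n, edgeMap_surj n⟩ : Function.Bijective (edgeMap n))
      (fun e => f (Sum.inr e))).symm
  rw [Fintype.sum_sum_type, Fintype.sum_prod_type] at hE
  simp only [Fin.sum_univ_three, Finset.univ_unique, Finset.sum_singleton] at hE
  set A := f (Sum.inl (Sum.inl 0, 0)) with hA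
  set B := f (Sum.inl (Sum.inl 0, 1)) with hB
  have hV : ∑ v : (Fin 1 ⊕ Fin n) × Fin 2, f (Sum.inl v) =
      A + B + ∑ i : Fin n, (f (Sum.inl (Sum.inr i, 0)) + f (Sum.inl (Sum.inr i, 1))) := by
    rw [Fintype.sum_prod_type, Fintype.sum_sum_type]
    simp only [Fin.sum_univ_two, Finset.univ_unique, Finset.sum_singleton]
    rfl
  have m0 := hm _ _ (adj_spine n)
  have mi : ∀ i : Fin n, f (Sum.inr (edgeMap n (Sum.inr (i, 0)))) +
      f (Sum.inr (edgeMap n (Sum.inr (i, 1)))) + f (Sum.inr (edgeMap n (Sum.inr (i, 2)))) +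
      (A + B) + 2 * (f (Sum.inl (Sum.inr i, 0)) + f (Sum.inl (Sum.inr i, 1))) = 3 * σ := by
    intro i
    have m1 := hm _ _ (adj_star n i 0)
    have m2 := hm _ _ (adj_star n i 1)
    have m3 := hm _ _ (adj_page n i)
    simp only [edgeMap]
    omega
  have hsum := Finset.sum_congr (rfl : (Finset.univ : Finset (Fin n)) = Finset.univ)
    (fun i _ => mi i)
  rw [Finset.sum_add_distrib, Finset.sum_add_distrib, ← Finset.mul_sum] at hsum
  simp only [Finset.sum_const, Finset.card_univ, Fintype.card_fin, smul_eq_mul] at hsum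
  have m0' : f (Sum.inr (edgeMap n (Sum.inl default))) + (A + B) = σ := by
    have : edgeMap n (Sum.inl default) = ⟨s((Sum.inl 0, 0), (Sum.inl 0, 1)), adj_spine n⟩ := rfl
    rw [this]
    omega
  refine ⟨A + B, ∑ i : Fin n, (f (Sum.inl (Sum.inr i, 0)) + f (Sum.inl (Sum.inr i, 1))),
    ∑ e : (book n).edgeSet, f (Sum.inr e), σ, ?_, ?_, ?_⟩
  · rw [hE]
    linarith
  · rw [← hV, hS1]
  · rw [← hV]
    rw [mul_add, hS1] at *
    linarith

/-- If the book `B_n` is super edge-magic then `n` is even or `n ≡ 5 (mod 8)`. -/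
theorem necessary (n : ℕ) (h : IsSuperEdgeMagic (book n)) : Even n ∨ n % 8 = 5 := by
  obtain ⟨W, Z, SE, σ, h1, h2, h3⟩ := identity n h
  by_cases he : Even n
  · exact Or.inl he
  right
  obtain ⟨m, rfl⟩ := Nat.not_even_iff_odd.1 he
  have e2 : W + Z = 8 * (m * m) + 18 * m + 10 := by nlinarith
  have e3 : SE = 42 * (m * m) + 67 * m + 26 := by nlinarith
  have e1 : 2 * (m * W) + 2 * (W + Z) + SE = 6 * (m * σ) + 4 * σ := by nlinarith
  rw [e2, e3] at e1
  have hm2 : m % 2 = 0 := by
    generalize m * W = w at *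
    generalize m * m = v at *
    generalize m * σ = u at *
    omega
  obtain ⟨l, rfl⟩ : ∃ l, m = 2 * l := ⟨m / 2, by omega⟩
  have f1 : 2 * l * W = 2 * (l * W) := by ring
  have f2 : 2 * l * (2 * l) = 4 * (l * l) := by ring
  have f3 : 2 * l * σ = 2 * (l * σ) := by ring
  rw [f1, f2, f3] at e1
  generalize l * W = w at *
  generalize l * l = v at *
  generalize l * σ = u at *
  omega

end Pool.Agent.V1149.Books
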