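import Mathlib
import Pool.Agent.V1149.Books.Basic

/-!
# An explicit family of super edge-magic labelings of books (n = 16 * t + 37)
-/

namespace Pool.Agent.V1149.Books

open Pool.Agent.V1149.Labeling SimpleGraph


/-- The pages of the labeling `LO0`. -/
def LO0 (t : ℕ) : List (ℕ × ℕ) :=
  runA (6 * t + 18) (28 * t + 64) (2 * t + 3) ++ (
  runA (6 * t + 19) (30 * t + 69) (2 * t + 3) ++ (
  runA (14 * t + 37) (24 * t + 55) (2 * t + 2) ++ (
  runA (14 * t + 38) (32 * t + 73) (2 * t + 2) ++ (
  runB (6 * t + 16) (1) (2 * t + 5) ++ (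
  runB (12 * t + 28) (18 * t + 44) (2 * t + 4) ++ (
  runB (14 * t + 33) (18 * t + 45) (2 * t + 3) ++ (
  runB (26 * t + 61) (4) (2 * t + 3) ++ (
  [(6 * t + 17, 32 * t + 74), (10 * t + 24, 24 * t + 57), (12 * t + 29, 28 * t + 65), (12 * t + 30, 28 * t + 66), (14 * t + 34, 18 * t + 42), (14 * t + 35, 30 * t + 71), (14 * t + 36, 22 * t + 51), (18 * t + 41, 4 * t + 11), (18 * t + 43, 30 * t + 70), (24 * t + 58, 24 * t + 56), (32 * t + 75, 2), (32 * t + 76, 22 * t + 52)]))))))))

lemma LO0_r0 (t q : ℕ) (h : q < 2 * t + 3) : (6 * t + 18 + 2 * q, 28 * t + 64 - q) ∈ LO0 t :=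
  List.mem_append_left _ (memA h)

lemma LO0_r1 (t q : ℕ) (h : q < 2 * t + 3) : (6 * t + 19 + 2 * q, 30 * t + 69 - q) ∈ LO0 t :=
  List.mem_append_right _ (List.mem_append_left _ (memA h))

lemma LO0_r2 (t q : ℕ) (h : q < 2 * t + 2) : (14 * t + 37 + 2 * q, 24 * t + 55 - q) ∈ LO0 t :=
  List.mem_append_right _ (List.mem_append_right _ (List.mem_append_left _ (memA h)))

lemma LO0_r3 (t q : ℕ) (h : q < 2 * t + 2) : (14 * t + 38 + 2 * q, 32 * t + 73 - q) ∈ LO0 t :=
  List.mem_append_right _ (List.mem_append_right _ (List.mem_append_right _ (List.mem_append_left _ (memA h))))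

lemma LO0_r4 (t q : ℕ) (h : q < 2 * t + 5) : (6 * t + 16 - q, 1 + 2 * q) ∈ LO0 t :=
  List.mem_append_right _ (List.mem_append_right _ (List.mem_append_right _ (List.mem_append_right _ (List.mem_append_left _ (memB h)))))

lemma LO0_r5 (t q : ℕ) (h : q < 2 * t + 4) : (12 * t + 28 - q, 18 * t + 44 + 2 * q) ∈ LO0 t :=
  List.mem_append_right _ (List.mem_append_right _ (List.mem_append_right _ (List.mem_append_right _ (List.mem_append_right _ (List.mem_append_left _ (memB h))))))

lemma LO0_r6 (t q : ℕ) (h : q < 2 * t + 3) : (14 * t + 33 - q, 18 * t + 45 + 2 * q) ∈ LO0 t :=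
  List.mem_append_right _ (List.mem_append_right _ (List.mem_append_right _ (List.mem_append_right _ (List.mem_append_right _ (List.mem_append_right _ (List.mem_append_left _ (memB h)))))))

lemma LO0_r7 (t q : ℕ) (h : q < 2 * t + 3) : (26 * t + 61 - q, 4 + 2 * q) ∈ LO0 t :=
  List.mem_append_right _ (List.mem_append_right _ (List.mem_append_right _ (List.mem_append_right _ (List.mem_append_right _ (List.mem_append_right _ (List.mem_append_right _ (List.mem_append_left _ (memB h))))))))

lemma LO0_s0 (t : ℕ) : (6 * t + 17, 32 * t + 74) ∈ LO0 t :=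
  List.mem_append_right _ (List.mem_append_right _ (List.mem_append_right _ (List.mem_append_right _ (List.mem_append_right _ (List.mem_append_right _ (List.mem_append_right _ (List.mem_append_right _ (List.Mem.head _))))))))

lemma LO0_s1 (t : ℕ) : (10 * t + 24, 24 * t + 57) ∈ LO0 t :=
  List.mem_append_right _ (List.mem_append_right _ (List.mem_append_right _ (List.mem_append_right _ (List.mem_append_right _ (List.mem_append_right _ (List.mem_append_right _ (List.mem_append_right _ (List.Mem.tail _ (List.Mem.head _)))))))))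

lemma LO0_s2 (t : ℕ) : (12 * t + 29, 28 * t + 65) ∈ LO0 t :=
  List.mem_append_right _ (List.mem_append_right _ (List.mem_append_right _ (List.mem_append_right _ (List.mem_append_right _ (List.mem_append_right _ (List.mem_append_right _ (List.mem_append_right _ (List.Mem.tail _ (List.Mem.tail _ (List.Mem.head _))))))))))

lemma LO0_s3 (t : ℕ) : (12 * t + 30, 28 * t + 66) ∈ LO0 t :=
  List.mem_append_right _ (List.mem_append_right _ (List.mem_append_right _ (List.mem_append_right _ (List.mem_append_right _ (List.mem_append_right _ (List.mem_append_right _ (List.mem_append_right _ (List.Mem.tail _ (List.Mem.tail _ (List.Mem.tail _ (List.Mem.head _)))))))))))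

lemma LO0_s4 (t : ℕ) : (14 * t + 34, 18 * t + 42) ∈ LO0 t :=
  List.mem_append_right _ (List.mem_append_right _ (List.mem_append_right _ (List.mem_append_right _ (List.mem_append_right _ (List.mem_append_right _ (List.mem_append_right _ (List.mem_append_right _ (List.Mem.tail _ (List.Mem.tail _ (List.Mem.tail _ (List.Mem.tail _ (List.Mem.head _))))))))))))

lemma LO0_s5 (t : ℕ) : (14 * t + 35, 30 * t + 71) ∈ LO0 t :=
  List.mem_append_right _ (List.mem_append_right _ (List.mem_append_right _ (List.mem_append_right _ (List.mem_append_right _ (List.mem_append_right _ (List.mem_append_right _ (List.mem_append_right _ (List.Mem.tail _ (List.Mem.tail _ (List.Mem.tail _ (List.Mem.tail _ (List.Mem.tail _ (List.Mem.head _)))))))))))))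

lemma LO0_s6 (t : ℕ) : (14 * t + 36, 22 * t + 51) ∈ LO0 t :=
  List.mem_append_right _ (List.mem_append_right _ (List.mem_append_right _ (List.mem_append_right _ (List.mem_append_right _ (List.mem_append_right _ (List.mem_append_right _ (List.mem_append_right _ (List.Mem.tail _ (List.Mem.tail _ (List.Mem.tail _ (List.Mem.tail _ (List.Mem.tail _ (List.Mem.tail _ (List.Mem.head _))))))))))))))

lemma LO0_s7 (t : ℕ) : (18 * t + 41, 4 * t + 11) ∈ LO0 t :=
  List.mem_append_right _ (List.mem_append_right _ (List.mem_append_right _ (List.mem_append_right _ (List.mem_append_right _ (List.mem_append_right _ (List.mem_append_right _ (List.mem_append_right _ (List.Mem.tail _ (List.Mem.tail _ (List.Mem.tail _ (List.Mem.tail _ (List.Mem.tail _ (List.Mem.tail _ (List.Mem.tail _ (List.Mem.head _)))))))))))))))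

lemma LO0_s8 (t : ℕ) : (18 * t + 43, 30 * t + 70) ∈ LO0 t :=
  List.mem_append_right _ (List.mem_append_right _ (List.mem_append_right _ (List.mem_append_right _ (List.mem_append_right _ (List.mem_append_right _ (List.mem_append_right _ (List.mem_append_right _ (List.Mem.tail _ (List.Mem.tail _ (List.Mem.tail _ (List.Mem.tail _ (List.Mem.tail _ (List.Mem.tail _ (List.Mem.tail _ (List.Mem.tail _ (List.Mem.head _))))))))))))))))

lemma LO0_s9 (t : ℕ) : (24 * t + 58, 24 * t + 56) ∈ LO0 t :=
  List.mem_append_right _ (List.mem_append_right _ (List.mem_append_right _ (List.mem_append_right _ (List.mem_append_right _ (List.mem_append_right _ (List.mem_append_right _ (List.mem_append_right _ (List.Mem.tail _ (List.Mem.tail _ (List.Mem.tail _ (List.Mem.tail _ (List.Mem.tail _ (List.Mem.tail _ (List.Mem.tail _ (List.Mem.tail _ (List.Mem.tail _ (List.Mem.head _)))))))))))))))))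

lemma LO0_s10 (t : ℕ) : (32 * t + 75, 2) ∈ LO0 t :=
  List.mem_append_right _ (List.mem_append_right _ (List.mem_append_right _ (List.mem_append_right _ (List.mem_append_right _ (List.mem_append_right _ (List.mem_append_right _ (List.mem_append_right _ (List.Mem.tail _ (List.Mem.tail _ (List.Mem.tail _ (List.Mem.tail _ (List.Mem.tail _ (List.Mem.tail _ (List.Mem.tail _ (List.Mem.tail _ (List.Mem.tail _ (List.Mem.tail _ (List.Mem.head _))))))))))))))))))

lemma LO0_s11 (t : ℕ) : (32 * t + 76, 22 * t + 52) ∈ LO0 t :=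
  List.mem_append_right _ (List.mem_append_right _ (List.mem_append_right _ (List.mem_append_right _ (List.mem_append_right _ (List.mem_append_right _ (List.mem_append_right _ (List.mem_append_right _ (List.Mem.tail _ (List.Mem.tail _ (List.Mem.tail _ (List.Mem.tail _ (List.Mem.tail _ (List.Mem.tail _ (List.Mem.tail _ (List.Mem.tail _ (List.Mem.tail _ (List.Mem.tail _ (List.Mem.tail _ (List.Mem.head _)))))))))))))))))))

lemma LO0_len (t : ℕ) : (LO0 t).length = 16 * t + 37 := by
  simp only [LO0, List.length_append, lenA, lenB, lenC, List.length_cons, List.length_nil]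
  omega

theorem LO0_labels (t z : ℕ) (z1 : 1 ≤ z) (z2 : z ≤ 32 * t + 76) : z = 4 * t + 10 ∨ z = 22 * t + 53 ∨
    ∃ x y, (x, y) ∈ LO0 t ∧ (x = z ∨ y = z) := by
  rcases Nat.lt_or_ge z (18 * t + 41) with h0 | h0
  · rcases Nat.lt_or_ge z (10 * t + 23) with h1 | h1
    · rcases Nat.lt_or_ge z (4 * t + 10) with h2 | h2
      · rcases Nat.lt_or_ge z (3) with h3 | h3
        · rcases Nat.lt_or_ge z (2) with h4 | h4
          · exact Or.inr (Or.inr ⟨_, _, LO0_r4 t ((z - (1)) / 2) (by omega), Or.inr (by omega)⟩)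
          · exact Or.inr (Or.inr ⟨_, _, LO0_s10 t, Or.inr (by omega)⟩)
        · rcases Nat.lt_or_ge z (4) with h4 | h4
          · exact Or.inr (Or.inr ⟨_, _, LO0_r4 t ((z - (1)) / 2) (by omega), Or.inr (by omega)⟩)
          · rcases Nat.lt_or_ge z (4 * t + 9) with h5 | h5
            · rcases Nat.mod_two_eq_zero_or_one z with hp | hp
              · exact Or.inr (Or.inr ⟨_, _, LO0_r7 t ((z - (4)) / 2) (by omega), Or.inr (by omega)⟩)
              · exact Or.inr (Or.inr ⟨_, _, LO0_r4 t ((z - (1)) / 2) (by omega), Or.inr (by omega)⟩)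
            · exact Or.inr (Or.inr ⟨_, _, LO0_r4 t ((z - (1)) / 2) (by omega), Or.inr (by omega)⟩)
      · rcases Nat.lt_or_ge z (6 * t + 17) with h3 | h3
        · rcases Nat.lt_or_ge z (4 * t + 11) with h4 | h4
          · exact Or.inl (by omega)
          · rcases Nat.lt_or_ge z (4 * t + 12) with h5 | h5
            · exact Or.inr (Or.inr ⟨_, _, LO0_s7 t, Or.inr (by omega)⟩)
            · exact Or.inr (Or.inr ⟨_, _, LO0_r4 t (6 * t + 16 - z) (by omega), Or.inl (by omega)⟩)
        · rcases Nat.lt_or_ge z (6 * t + 18) with h4 | h4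
          · exact Or.inr (Or.inr ⟨_, _, LO0_s0 t, Or.inl (by omega)⟩)
          · rcases Nat.lt_or_ge z (6 * t + 19) with h5 | h5
            · exact Or.inr (Or.inr ⟨_, _, LO0_r0 t ((z - (6 * t + 18)) / 2) (by omega), Or.inl (by omega)⟩)
            · rcases Nat.mod_two_eq_zero_or_one z with hp | hp
              · exact Or.inr (Or.inr ⟨_, _, LO0_r0 t ((z - (6 * t + 18)) / 2) (by omega), Or.inl (by omega)⟩)
              · exact Or.inr (Or.inr ⟨_, _, LO0_r1 t ((z - (6 * t + 19)) / 2) (by omega), Or.inl (by omega)⟩)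
    · rcases Nat.lt_or_ge z (14 * t + 34) with h2 | h2
      · rcases Nat.lt_or_ge z (12 * t + 29) with h3 | h3
        · rcases Nat.lt_or_ge z (10 * t + 24) with h4 | h4
          · exact Or.inr (Or.inr ⟨_, _, LO0_r1 t ((z - (6 * t + 19)) / 2) (by omega), Or.inl (by omega)⟩)
          · rcases Nat.lt_or_ge z (10 * t + 25) with h5 | h5
            · exact Or.inr (Or.inr ⟨_, _, LO0_s1 t, Or.inl (by omega)⟩)
            · exact Or.inr (Or.inr ⟨_, _, LO0_r5 t (12 * t + 28 - z) (by omega), Or.inl (by omega)⟩)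
        · rcases Nat.lt_or_ge z (12 * t + 30) with h4 | h4
          · exact Or.inr (Or.inr ⟨_, _, LO0_s2 t, Or.inl (by omega)⟩)
          · rcases Nat.lt_or_ge z (12 * t + 31) with h5 | h5
            · exact Or.inr (Or.inr ⟨_, _, LO0_s3 t, Or.inl (by omega)⟩)
            · exact Or.inr (Or.inr ⟨_, _, LO0_r6 t (14 * t + 33 - z) (by omega), Or.inl (by omega)⟩)
      · rcases Nat.lt_or_ge z (14 * t + 37) with h3 | h3
        · rcases Nat.lt_or_ge z (14 * t + 35) with h4 | h4
          · exact Or.inr (Or.inr ⟨_, _, LO0_s4 t, Or.inl (by omega)⟩)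
          · rcases Nat.lt_or_ge z (14 * t + 36) with h5 | h5
            · exact Or.inr (Or.inr ⟨_, _, LO0_s5 t, Or.inl (by omega)⟩)
            · exact Or.inr (Or.inr ⟨_, _, LO0_s6 t, Or.inl (by omega)⟩)
        · rcases Nat.lt_or_ge z (14 * t + 38) with h4 | h4
          · exact Or.inr (Or.inr ⟨_, _, LO0_r2 t ((z - (14 * t + 37)) / 2) (by omega), Or.inl (by omega)⟩)
          · rcases Nat.lt_or_ge z (18 * t + 40) with h5 | h5
            · rcases Nat.mod_two_eq_zero_or_one z with hp | hp
              · exact Or.inr (Or.inr ⟨_, _, LO0_r3 t ((z - (14 * t + 38)) / 2) (by omega), Or.inl (by omega)⟩)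
              · exact Or.inr (Or.inr ⟨_, _, LO0_r2 t ((z - (14 * t + 37)) / 2) (by omega), Or.inl (by omega)⟩)
            · exact Or.inr (Or.inr ⟨_, _, LO0_r3 t ((z - (14 * t + 38)) / 2) (by omega), Or.inl (by omega)⟩)
  · rcases Nat.lt_or_ge z (24 * t + 58) with h1 | h1
    · rcases Nat.lt_or_ge z (22 * t + 51) with h2 | h2
      · rcases Nat.lt_or_ge z (18 * t + 44) with h3 | h3
        · rcases Nat.lt_or_ge z (18 * t + 42) with h4 | h4
          · exact Or.inr (Or.inr ⟨_, _, LO0_s7 t, Or.inl (by omega)⟩)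
          · rcases Nat.lt_or_ge z (18 * t + 43) with h5 | h5
            · exact Or.inr (Or.inr ⟨_, _, LO0_s4 t, Or.inr (by omega)⟩)
            · exact Or.inr (Or.inr ⟨_, _, LO0_s8 t, Or.inl (by omega)⟩)
        · rcases Nat.lt_or_ge z (18 * t + 45) with h4 | h4
          · exact Or.inr (Or.inr ⟨_, _, LO0_r5 t ((z - (18 * t + 44)) / 2) (by omega), Or.inr (by omega)⟩)
          · rcases Nat.lt_or_ge z (22 * t + 50) with h5 | h5
            · rcases Nat.mod_two_eq_zero_or_one z with hp | hp
              · exact Or.inr (Or.inr ⟨_, _, LO0_r5 t ((z - (18 * t + 44)) / 2) (by omega), Or.inr (by omega)⟩)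
              · exact Or.inr (Or.inr ⟨_, _, LO0_r6 t ((z - (18 * t + 45)) / 2) (by omega), Or.inr (by omega)⟩)
            · exact Or.inr (Or.inr ⟨_, _, LO0_r5 t ((z - (18 * t + 44)) / 2) (by omega), Or.inr (by omega)⟩)
      · rcases Nat.lt_or_ge z (22 * t + 54) with h3 | h3
        · rcases Nat.lt_or_ge z (22 * t + 52) with h4 | h4
          · exact Or.inr (Or.inr ⟨_, _, LO0_s6 t, Or.inr (by omega)⟩)
          · rcases Nat.lt_or_ge z (22 * t + 53) with h5 | h5
            · exact Or.inr (Or.inr ⟨_, _, LO0_s11 t, Or.inr (by omega)⟩)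
            · exact Or.inr (Or.inl (by omega))
        · rcases Nat.lt_or_ge z (24 * t + 56) with h4 | h4
          · exact Or.inr (Or.inr ⟨_, _, LO0_r2 t (24 * t + 55 - z) (by omega), Or.inr (by omega)⟩)
          · rcases Nat.lt_or_ge z (24 * t + 57) with h5 | h5
            · exact Or.inr (Or.inr ⟨_, _, LO0_s9 t, Or.inr (by omega)⟩)
            · exact Or.inr (Or.inr ⟨_, _, LO0_s1 t, Or.inr (by omega)⟩)
    · rcases Nat.lt_or_ge z (30 * t + 70) with h2 | h2
      · rcases Nat.lt_or_ge z (28 * t + 65) with h3 | h3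
        · rcases Nat.lt_or_ge z (24 * t + 59) with h4 | h4
          · exact Or.inr (Or.inr ⟨_, _, LO0_s9 t, Or.inl (by omega)⟩)
          · rcases Nat.lt_or_ge z (26 * t + 62) with h5 | h5
            · exact Or.inr (Or.inr ⟨_, _, LO0_r7 t (26 * t + 61 - z) (by omega), Or.inl (by omega)⟩)
            · exact Or.inr (Or.inr ⟨_, _, LO0_r0 t (28 * t + 64 - z) (by omega), Or.inr (by omega)⟩)
        · rcases Nat.lt_or_ge z (28 * t + 66) with h4 | h4
          · exact Or.inr (Or.inr ⟨_, _, LO0_s2 t, Or.inr (by omega)⟩)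
          · rcases Nat.lt_or_ge z (28 * t + 67) with h5 | h5
            · exact Or.inr (Or.inr ⟨_, _, LO0_s3 t, Or.inr (by omega)⟩)
            · exact Or.inr (Or.inr ⟨_, _, LO0_r1 t (30 * t + 69 - z) (by omega), Or.inr (by omega)⟩)
      · rcases Nat.lt_or_ge z (32 * t + 74) with h3 | h3
        · rcases Nat.lt_or_ge z (30 * t + 71) with h4 | h4
          · exact Or.inr (Or.inr ⟨_, _, LO0_s8 t, Or.inr (by omega)⟩)
          · rcases Nat.lt_or_ge z (30 * t + 72) with h5 | h5
            · exact Or.inr (Or.inr ⟨_, _, LO0_s5 t, Or.inr (by omega)⟩)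
            · exact Or.inr (Or.inr ⟨_, _, LO0_r3 t (32 * t + 73 - z) (by omega), Or.inr (by omega)⟩)
        · rcases Nat.lt_or_ge z (32 * t + 75) with h4 | h4
          · exact Or.inr (Or.inr ⟨_, _, LO0_s0 t, Or.inr (by omega)⟩)
          · rcases Nat.lt_or_ge z (32 * t + 76) with h5 | h5
            · exact Or.inr (Or.inr ⟨_, _, LO0_s10 t, Or.inl (by omega)⟩)
            · exact Or.inr (Or.inr ⟨_, _, LO0_s11 t, Or.inl (by omega)⟩)

theorem LO0_sums (t z : ℕ) (z1 : 6 * t + 17 ≤ z) (z2 : z ≤ 54 * t + 128) : 4 * t + 10 + (22 * t + 53) = z ∨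
    ∃ x y, (x, y) ∈ LO0 t ∧ (4 * t + 10 + x = z ∨ 22 * t + 53 + y = z ∨ x + y = z) := by
  rcases Nat.lt_or_ge z (32 * t + 78) with h0 | h0
  · rcases Nat.lt_or_ge z (22 * t + 50) with h1 | h1
    · rcases Nat.lt_or_ge z (16 * t + 39) with h2 | h2
      · rcases Nat.lt_or_ge z (10 * t + 29) with h3 | h3
        · rcases Nat.lt_or_ge z (10 * t + 27) with h4 | h4
          · rcases Nat.lt_or_ge z (8 * t + 22) with h5 | h5
            · exact Or.inr ⟨_, _, LO0_r4 t (z - (6 * t + 17)) (by omega), Or.inr (Or.inr (by omega))⟩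
            · exact Or.inr ⟨_, _, LO0_r4 t (10 * t + 26 - z) (by omega), Or.inl (by omega)⟩
          · rcases Nat.lt_or_ge z (10 * t + 28) with h5 | h5
            · exact Or.inr ⟨_, _, LO0_s0 t, Or.inl (by omega)⟩
            · exact Or.inr ⟨_, _, LO0_r0 t ((z - (10 * t + 28)) / 2) (by omega), Or.inl (by omega)⟩
        · rcases Nat.lt_or_ge z (14 * t + 34) with h4 | h4
          · rcases Nat.lt_or_ge z (14 * t + 33) with h5 | h5
            · rcases Nat.mod_two_eq_zero_or_one z with hp | hp
              · exact Or.inr ⟨_, _, LO0_r0 t ((z - (10 * t + 28)) / 2) (by omega), Or.inl (by omega)⟩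
              · exact Or.inr ⟨_, _, LO0_r1 t ((z - (10 * t + 29)) / 2) (by omega), Or.inl (by omega)⟩
            · exact Or.inr ⟨_, _, LO0_r1 t ((z - (10 * t + 29)) / 2) (by omega), Or.inl (by omega)⟩
          · rcases Nat.lt_or_ge z (14 * t + 35) with h5 | h5
            · exact Or.inr ⟨_, _, LO0_s1 t, Or.inl (by omega)⟩
            · exact Or.inr ⟨_, _, LO0_r5 t (16 * t + 38 - z) (by omega), Or.inl (by omega)⟩
      · rcases Nat.lt_or_ge z (18 * t + 45) with h3 | h3
        · rcases Nat.lt_or_ge z (16 * t + 41) with h4 | h4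
          · rcases Nat.lt_or_ge z (16 * t + 40) with h5 | h5
            · exact Or.inr ⟨_, _, LO0_s2 t, Or.inl (by omega)⟩
            · exact Or.inr ⟨_, _, LO0_s3 t, Or.inl (by omega)⟩
          · rcases Nat.lt_or_ge z (18 * t + 44) with h5 | h5
            · exact Or.inr ⟨_, _, LO0_r6 t (18 * t + 43 - z) (by omega), Or.inl (by omega)⟩
            · exact Or.inr ⟨_, _, LO0_s4 t, Or.inl (by omega)⟩
        · rcases Nat.lt_or_ge z (18 * t + 47) with h4 | h4
          · rcases Nat.lt_or_ge z (18 * t + 46) with h5 | h5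
            · exact Or.inr ⟨_, _, LO0_s5 t, Or.inl (by omega)⟩
            · exact Or.inr ⟨_, _, LO0_s6 t, Or.inl (by omega)⟩
          · rcases Nat.lt_or_ge z (18 * t + 48) with h5 | h5
            · exact Or.inr ⟨_, _, LO0_r2 t ((z - (18 * t + 47)) / 2) (by omega), Or.inl (by omega)⟩
            · rcases Nat.mod_two_eq_zero_or_one z with hp | hp
              · exact Or.inr ⟨_, _, LO0_r3 t ((z - (18 * t + 48)) / 2) (by omega), Or.inl (by omega)⟩
              · exact Or.inr ⟨_, _, LO0_r2 t ((z - (18 * t + 47)) / 2) (by omega), Or.inl (by omega)⟩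
    · rcases Nat.lt_or_ge z (26 * t + 62) with h2 | h2
      · rcases Nat.lt_or_ge z (22 * t + 54) with h3 | h3
        · rcases Nat.lt_or_ge z (22 * t + 52) with h4 | h4
          · rcases Nat.lt_or_ge z (22 * t + 51) with h5 | h5
            · exact Or.inr ⟨_, _, LO0_r3 t ((z - (18 * t + 48)) / 2) (by omega), Or.inl (by omega)⟩
            · exact Or.inr ⟨_, _, LO0_s7 t, Or.inl (by omega)⟩
          · rcases Nat.lt_or_ge z (22 * t + 53) with h5 | h5
            · exact Or.inr ⟨_, _, LO0_s7 t, Or.inr (Or.inr (by omega))⟩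
            · exact Or.inr ⟨_, _, LO0_s8 t, Or.inl (by omega)⟩
        · rcases Nat.lt_or_ge z (22 * t + 56) with h4 | h4
          · rcases Nat.lt_or_ge z (22 * t + 55) with h5 | h5
            · exact Or.inr ⟨_, _, LO0_r4 t ((z - (22 * t + 54)) / 2) (by omega), Or.inr (Or.inl (by omega))⟩
            · exact Or.inr ⟨_, _, LO0_s10 t, Or.inr (Or.inl (by omega))⟩
          · rcases Nat.lt_or_ge z (22 * t + 57) with h5 | h5
            · exact Or.inr ⟨_, _, LO0_r4 t ((z - (22 * t + 54)) / 2) (by omega), Or.inr (Or.inl (by omega))⟩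
            · rcases Nat.mod_two_eq_zero_or_one z with hp | hp
              · exact Or.inr ⟨_, _, LO0_r4 t ((z - (22 * t + 54)) / 2) (by omega), Or.inr (Or.inl (by omega))⟩
              · exact Or.inr ⟨_, _, LO0_r7 t ((z - (22 * t + 57)) / 2) (by omega), Or.inr (Or.inl (by omega))⟩
      · rcases Nat.lt_or_ge z (28 * t + 68) with h3 | h3
        · rcases Nat.lt_or_ge z (26 * t + 64) with h4 | h4
          · rcases Nat.lt_or_ge z (26 * t + 63) with h5 | h5
            · exact Or.inr ⟨_, _, LO0_r4 t ((z - (22 * t + 54)) / 2) (by omega), Or.inr (Or.inl (by omega))⟩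
            · exact Or.inl (by omega)
          · rcases Nat.lt_or_ge z (26 * t + 65) with h5 | h5
            · exact Or.inr ⟨_, _, LO0_s7 t, Or.inr (Or.inl (by omega))⟩
            · exact Or.inr ⟨_, _, LO0_r7 t (z - (26 * t + 65)) (by omega), Or.inr (Or.inr (by omega))⟩
        · rcases Nat.lt_or_ge z (30 * t + 72) with h4 | h4
          · rcases Nat.lt_or_ge z (28 * t + 69) with h5 | h5
            · exact Or.inr ⟨_, _, LO0_s9 t, Or.inl (by omega)⟩
            · exact Or.inr ⟨_, _, LO0_r7 t (30 * t + 71 - z) (by omega), Or.inl (by omega)⟩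
          · rcases Nat.lt_or_ge z (32 * t + 76) with h5 | h5
            · exact Or.inr ⟨_, _, LO0_r5 t (z - (30 * t + 72)) (by omega), Or.inr (Or.inr (by omega))⟩
            · rcases Nat.lt_or_ge z (32 * t + 77) with h6 | h6
              · exact Or.inr ⟨_, _, LO0_s4 t, Or.inr (Or.inr (by omega))⟩
              · exact Or.inr ⟨_, _, LO0_s10 t, Or.inr (Or.inr (by omega))⟩
  · rcases Nat.lt_or_ge z (44 * t + 105) with h1 | h1
    · rcases Nat.lt_or_ge z (38 * t + 92) with h2 | h2
      · rcases Nat.lt_or_ge z (36 * t + 86) with h3 | h3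
        · rcases Nat.lt_or_ge z (34 * t + 82) with h4 | h4
          · rcases Nat.lt_or_ge z (34 * t + 81) with h5 | h5
            · exact Or.inr ⟨_, _, LO0_r6 t (z - (32 * t + 78)) (by omega), Or.inr (Or.inr (by omega))⟩
            · exact Or.inr ⟨_, _, LO0_s1 t, Or.inr (Or.inr (by omega))⟩
          · rcases Nat.lt_or_ge z (36 * t + 85) with h5 | h5
            · exact Or.inr ⟨_, _, LO0_r0 t (z - (34 * t + 82)) (by omega), Or.inr (Or.inr (by omega))⟩
            · exact Or.inr ⟨_, _, LO0_s10 t, Or.inl (by omega)⟩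
        · rcases Nat.lt_or_ge z (36 * t + 88) with h4 | h4
          · rcases Nat.lt_or_ge z (36 * t + 87) with h5 | h5
            · exact Or.inr ⟨_, _, LO0_s11 t, Or.inl (by omega)⟩
            · exact Or.inr ⟨_, _, LO0_s6 t, Or.inr (Or.inr (by omega))⟩
          · rcases Nat.lt_or_ge z (38 * t + 91) with h5 | h5
            · exact Or.inr ⟨_, _, LO0_r1 t (z - (36 * t + 88)) (by omega), Or.inr (Or.inr (by omega))⟩
            · exact Or.inr ⟨_, _, LO0_s0 t, Or.inr (Or.inr (by omega))⟩
      · rcases Nat.lt_or_ge z (40 * t + 97) with h3 | h3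
        · rcases Nat.lt_or_ge z (40 * t + 95) with h4 | h4
          · rcases Nat.lt_or_ge z (40 * t + 94) with h5 | h5
            · exact Or.inr ⟨_, _, LO0_r2 t (z - (38 * t + 92)) (by omega), Or.inr (Or.inr (by omega))⟩
            · exact Or.inr ⟨_, _, LO0_s2 t, Or.inr (Or.inr (by omega))⟩
          · rcases Nat.lt_or_ge z (40 * t + 96) with h5 | h5
            · exact Or.inr ⟨_, _, LO0_s4 t, Or.inr (Or.inl (by omega))⟩
            · exact Or.inr ⟨_, _, LO0_s3 t, Or.inr (Or.inr (by omega))⟩
        · rcases Nat.lt_or_ge z (44 * t + 103) with h4 | h4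
          · rcases Nat.lt_or_ge z (40 * t + 98) with h5 | h5
            · exact Or.inr ⟨_, _, LO0_r5 t ((z - (40 * t + 97)) / 2) (by omega), Or.inr (Or.inl (by omega))⟩
            · rcases Nat.mod_two_eq_zero_or_one z with hp | hp
              · exact Or.inr ⟨_, _, LO0_r6 t ((z - (40 * t + 98)) / 2) (by omega), Or.inr (Or.inl (by omega))⟩
              · exact Or.inr ⟨_, _, LO0_r5 t ((z - (40 * t + 97)) / 2) (by omega), Or.inr (Or.inl (by omega))⟩
          · rcases Nat.lt_or_ge z (44 * t + 104) with h5 | h5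
            · exact Or.inr ⟨_, _, LO0_r5 t ((z - (40 * t + 97)) / 2) (by omega), Or.inr (Or.inl (by omega))⟩
            · exact Or.inr ⟨_, _, LO0_s6 t, Or.inr (Or.inl (by omega))⟩
    · rcases Nat.lt_or_ge z (48 * t + 115) with h2 | h2
      · rcases Nat.lt_or_ge z (46 * t + 110) with h3 | h3
        · rcases Nat.lt_or_ge z (44 * t + 107) with h4 | h4
          · rcases Nat.lt_or_ge z (44 * t + 106) with h5 | h5
            · exact Or.inr ⟨_, _, LO0_s11 t, Or.inr (Or.inl (by omega))⟩
            · exact Or.inr ⟨_, _, LO0_s5 t, Or.inr (Or.inr (by omega))⟩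
          · rcases Nat.lt_or_ge z (46 * t + 109) with h5 | h5
            · exact Or.inr ⟨_, _, LO0_r2 t (46 * t + 108 - z) (by omega), Or.inr (Or.inl (by omega))⟩
            · exact Or.inr ⟨_, _, LO0_s9 t, Or.inr (Or.inl (by omega))⟩
        · rcases Nat.lt_or_ge z (48 * t + 113) with h4 | h4
          · rcases Nat.lt_or_ge z (46 * t + 111) with h5 | h5
            · exact Or.inr ⟨_, _, LO0_s1 t, Or.inr (Or.inl (by omega))⟩
            · exact Or.inr ⟨_, _, LO0_r3 t (z - (46 * t + 111)) (by omega), Or.inr (Or.inr (by omega))⟩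
          · rcases Nat.lt_or_ge z (48 * t + 114) with h5 | h5
            · exact Or.inr ⟨_, _, LO0_s8 t, Or.inr (Or.inr (by omega))⟩
            · exact Or.inr ⟨_, _, LO0_s9 t, Or.inr (Or.inr (by omega))⟩
      · rcases Nat.lt_or_ge z (52 * t + 123) with h3 | h3
        · rcases Nat.lt_or_ge z (50 * t + 119) with h4 | h4
          · rcases Nat.lt_or_ge z (50 * t + 118) with h5 | h5
            · exact Or.inr ⟨_, _, LO0_r0 t (50 * t + 117 - z) (by omega), Or.inr (Or.inl (by omega))⟩
            · exact Or.inr ⟨_, _, LO0_s2 t, Or.inr (Or.inl (by omega))⟩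
          · rcases Nat.lt_or_ge z (50 * t + 120) with h5 | h5
            · exact Or.inr ⟨_, _, LO0_s3 t, Or.inr (Or.inl (by omega))⟩
            · exact Or.inr ⟨_, _, LO0_r1 t (52 * t + 122 - z) (by omega), Or.inr (Or.inl (by omega))⟩
        · rcases Nat.lt_or_ge z (52 * t + 125) with h4 | h4
          · rcases Nat.lt_or_ge z (52 * t + 124) with h5 | h5
            · exact Or.inr ⟨_, _, LO0_s8 t, Or.inr (Or.inl (by omega))⟩
            · exact Or.inr ⟨_, _, LO0_s5 t, Or.inr (Or.inl (by omega))⟩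
          · rcases Nat.lt_or_ge z (54 * t + 127) with h5 | h5
            · exact Or.inr ⟨_, _, LO0_r3 t (54 * t + 126 - z) (by omega), Or.inr (Or.inl (by omega))⟩
            · rcases Nat.lt_or_ge z (54 * t + 128) with h6 | h6
              · exact Or.inr ⟨_, _, LO0_s0 t, Or.inr (Or.inl (by omega))⟩
              · exact Or.inr ⟨_, _, LO0_s11 t, Or.inr (Or.inr (by omega))⟩

theorem LO0_sem (t : ℕ) : IsSuperEdgeMagic (book (16 * t + 37)) :=
  book_sem _ (4 * t + 10) (22 * t + 53) (6 * t + 17) (LO0 t) (LO0_len t)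
    (fun z h1 h2 => LO0_labels t z h1 (by omega))
    (fun z h1 h2 => LO0_sums t z h1 (by omega))

end Pool.Agent.V1149.Books
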