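import Mathlib
import Pool.Agent.V1149.Books.Basic

/-!
# An explicit family of super edge-magic labelings of books (n = 16 * t + 29)
-/

namespace Pool.Agent.V1149.Books

open Pool.Agent.V1149.Labeling SimpleGraph


/-- The pages of the labeling `LO1`. -/
def LO1 (t : ℕ) : List (ℕ × ℕ) :=
  runA (22 * t + 44) (2 * t + 4) (2 * t + 2) ++ (
  runB (4 * t + 7) (16 * t + 33) (2 * t + 2) ++ (
  runB (6 * t + 11) (26 * t + 52) (2 * t + 2) ++ (
  runB (12 * t + 21) (22 * t + 45) (4 * t + 5) ++ (
  runB (14 * t + 26) (16 * t + 34) (2 * t + 2) ++ (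
  runC (6 * t + 15) (20 * t + 39) (2 * t + 2) ++ (
  runC (14 * t + 29) (30 * t + 58) (2 * t + 1) ++ (
  [(4 * t + 8, 26 * t + 50), (6 * t + 12, 2), (6 * t + 13, 2 * t + 5), (6 * t + 14, 20 * t + 37), (12 * t + 22, 32 * t + 60), (12 * t + 23, 26 * t + 48), (12 * t + 24, 30 * t + 55), (14 * t + 27, 30 * t + 57), (14 * t + 28, 16 * t + 31), (16 * t + 30, 16 * t + 32), (20 * t + 38, 32 * t + 59), (22 * t + 43, 22 * t + 42), (30 * t + 56, 1)])))))))

lemma LO1_r0 (t q : ℕ) (h : q < 2 * t + 2) : (22 * t + 44 + 2 * q, 2 * t + 4 - q) ∈ LO1 t :=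
  List.mem_append_left _ (memA h)

lemma LO1_r1 (t q : ℕ) (h : q < 2 * t + 2) : (4 * t + 7 - q, 16 * t + 33 + 2 * q) ∈ LO1 t :=
  List.mem_append_right _ (List.mem_append_left _ (memB h))

lemma LO1_r2 (t q : ℕ) (h : q < 2 * t + 2) : (6 * t + 11 - q, 26 * t + 52 + 2 * q) ∈ LO1 t :=
  List.mem_append_right _ (List.mem_append_right _ (List.mem_append_left _ (memB h)))

lemma LO1_r3 (t q : ℕ) (h : q < 4 * t + 5) : (12 * t + 21 - q, 22 * t + 45 + 2 * q) ∈ LO1 t :=
  List.mem_append_right _ (List.mem_append_right _ (List.mem_append_right _ (List.mem_append_left _ (memB h))))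

lemma LO1_r4 (t q : ℕ) (h : q < 2 * t + 2) : (14 * t + 26 - q, 16 * t + 34 + 2 * q) ∈ LO1 t :=
  List.mem_append_right _ (List.mem_append_right _ (List.mem_append_right _ (List.mem_append_right _ (List.mem_append_left _ (memB h)))))

lemma LO1_r5 (t q : ℕ) (h : q < 2 * t + 2) : (6 * t + 15 + q, 20 * t + 39 + q) ∈ LO1 t :=
  List.mem_append_right _ (List.mem_append_right _ (List.mem_append_right _ (List.mem_append_right _ (List.mem_append_right _ (List.mem_append_left _ (memC h))))))

lemma LO1_r6 (t q : ℕ) (h : q < 2 * t + 1) : (14 * t + 29 + q, 30 * t + 58 + q) ∈ LO1 t :=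
  List.mem_append_right _ (List.mem_append_right _ (List.mem_append_right _ (List.mem_append_right _ (List.mem_append_right _ (List.mem_append_right _ (List.mem_append_left _ (memC h)))))))

lemma LO1_s0 (t : ℕ) : (4 * t + 8, 26 * t + 50) ∈ LO1 t :=
  List.mem_append_right _ (List.mem_append_right _ (List.mem_append_right _ (List.mem_append_right _ (List.mem_append_right _ (List.mem_append_right _ (List.mem_append_right _ (List.Mem.head _)))))))

lemma LO1_s1 (t : ℕ) : (6 * t + 12, 2) ∈ LO1 t :=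
  List.mem_append_right _ (List.mem_append_right _ (List.mem_append_right _ (List.mem_append_right _ (List.mem_append_right _ (List.mem_append_right _ (List.mem_append_right _ (List.Mem.tail _ (List.Mem.head _))))))))

lemma LO1_s2 (t : ℕ) : (6 * t + 13, 2 * t + 5) ∈ LO1 t :=
  List.mem_append_right _ (List.mem_append_right _ (List.mem_append_right _ (List.mem_append_right _ (List.mem_append_right _ (List.mem_append_right _ (List.mem_append_right _ (List.Mem.tail _ (List.Mem.tail _ (List.Mem.head _)))))))))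

lemma LO1_s3 (t : ℕ) : (6 * t + 14, 20 * t + 37) ∈ LO1 t :=
  List.mem_append_right _ (List.mem_append_right _ (List.mem_append_right _ (List.mem_append_right _ (List.mem_append_right _ (List.mem_append_right _ (List.mem_append_right _ (List.Mem.tail _ (List.Mem.tail _ (List.Mem.tail _ (List.Mem.head _))))))))))

lemma LO1_s4 (t : ℕ) : (12 * t + 22, 32 * t + 60) ∈ LO1 t :=
  List.mem_append_right _ (List.mem_append_right _ (List.mem_append_right _ (List.mem_append_right _ (List.mem_append_right _ (List.mem_append_right _ (List.mem_append_right _ (List.Mem.tail _ (List.Mem.tail _ (List.Mem.tail _ (List.Mem.tail _ (List.Mem.head _)))))))))))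

lemma LO1_s5 (t : ℕ) : (12 * t + 23, 26 * t + 48) ∈ LO1 t :=
  List.mem_append_right _ (List.mem_append_right _ (List.mem_append_right _ (List.mem_append_right _ (List.mem_append_right _ (List.mem_append_right _ (List.mem_append_right _ (List.Mem.tail _ (List.Mem.tail _ (List.Mem.tail _ (List.Mem.tail _ (List.Mem.tail _ (List.Mem.head _))))))))))))

lemma LO1_s6 (t : ℕ) : (12 * t + 24, 30 * t + 55) ∈ LO1 t :=
  List.mem_append_right _ (List.mem_append_right _ (List.mem_append_right _ (List.mem_append_right _ (List.mem_append_right _ (List.mem_append_right _ (List.mem_append_right _ (List.Mem.tail _ (List.Mem.tail _ (List.Mem.tail _ (List.Mem.tail _ (List.Mem.tail _ (List.Mem.tail _ (List.Mem.head _)))))))))))))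

lemma LO1_s7 (t : ℕ) : (14 * t + 27, 30 * t + 57) ∈ LO1 t :=
  List.mem_append_right _ (List.mem_append_right _ (List.mem_append_right _ (List.mem_append_right _ (List.mem_append_right _ (List.mem_append_right _ (List.mem_append_right _ (List.Mem.tail _ (List.Mem.tail _ (List.Mem.tail _ (List.Mem.tail _ (List.Mem.tail _ (List.Mem.tail _ (List.Mem.tail _ (List.Mem.head _))))))))))))))

lemma LO1_s8 (t : ℕ) : (14 * t + 28, 16 * t + 31) ∈ LO1 t :=
  List.mem_append_right _ (List.mem_append_right _ (List.mem_append_right _ (List.mem_append_right _ (List.mem_append_right _ (List.mem_append_right _ (List.mem_append_right _ (List.Mem.tail _ (List.Mem.tail _ (List.Mem.tail _ (List.Mem.tail _ (List.Mem.tail _ (List.Mem.tail _ (List.Mem.tail _ (List.Mem.tail _ (List.Mem.head _)))))))))))))))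

lemma LO1_s9 (t : ℕ) : (16 * t + 30, 16 * t + 32) ∈ LO1 t :=
  List.mem_append_right _ (List.mem_append_right _ (List.mem_append_right _ (List.mem_append_right _ (List.mem_append_right _ (List.mem_append_right _ (List.mem_append_right _ (List.Mem.tail _ (List.Mem.tail _ (List.Mem.tail _ (List.Mem.tail _ (List.Mem.tail _ (List.Mem.tail _ (List.Mem.tail _ (List.Mem.tail _ (List.Mem.tail _ (List.Mem.head _))))))))))))))))

lemma LO1_s10 (t : ℕ) : (20 * t + 38, 32 * t + 59) ∈ LO1 t :=
  List.mem_append_right _ (List.mem_append_right _ (List.mem_append_right _ (List.mem_append_right _ (List.mem_append_right _ (List.mem_append_right _ (List.mem_append_right _ (List.Mem.tail _ (List.Mem.tail _ (List.Mem.tail _ (List.Mem.tail _ (List.Mem.tail _ (List.Mem.tail _ (List.Mem.tail _ (List.Mem.tail _ (List.Mem.tail _ (List.Mem.tail _ (List.Mem.head _)))))))))))))))))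

lemma LO1_s11 (t : ℕ) : (22 * t + 43, 22 * t + 42) ∈ LO1 t :=
  List.mem_append_right _ (List.mem_append_right _ (List.mem_append_right _ (List.mem_append_right _ (List.mem_append_right _ (List.mem_append_right _ (List.mem_append_right _ (List.Mem.tail _ (List.Mem.tail _ (List.Mem.tail _ (List.Mem.tail _ (List.Mem.tail _ (List.Mem.tail _ (List.Mem.tail _ (List.Mem.tail _ (List.Mem.tail _ (List.Mem.tail _ (List.Mem.tail _ (List.Mem.head _))))))))))))))))))

lemma LO1_s12 (t : ℕ) : (30 * t + 56, 1) ∈ LO1 t :=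
  List.mem_append_right _ (List.mem_append_right _ (List.mem_append_right _ (List.mem_append_right _ (List.mem_append_right _ (List.mem_append_right _ (List.mem_append_right _ (List.Mem.tail _ (List.Mem.tail _ (List.Mem.tail _ (List.Mem.tail _ (List.Mem.tail _ (List.Mem.tail _ (List.Mem.tail _ (List.Mem.tail _ (List.Mem.tail _ (List.Mem.tail _ (List.Mem.tail _ (List.Mem.tail _ (List.Mem.head _)))))))))))))))))))

lemma LO1_len (t : ℕ) : (LO1 t).length = 16 * t + 29 := by
  simp only [LO1, List.length_append, lenA, lenB, lenC, List.length_cons, List.length_nil]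
  omega

theorem LO1_labels (t z : ℕ) (z1 : 1 ≤ z) (z2 : z ≤ 32 * t + 60) : z = 4 * t + 9 ∨ z = 22 * t + 41 ∨
    ∃ x y, (x, y) ∈ LO1 t ∧ (x = z ∨ y = z) := by
  rcases Nat.lt_or_ge z (16 * t + 33) with h0 | h0
  · rcases Nat.lt_or_ge z (6 * t + 15) with h1 | h1
    · rcases Nat.lt_or_ge z (4 * t + 8) with h2 | h2
      · rcases Nat.lt_or_ge z (3) with h3 | h3
        · rcases Nat.lt_or_ge z (2) with h4 | h4
          · exact Or.inr (Or.inr ⟨_, _, LO1_s12 t, Or.inr (by omega)⟩)
          · exact Or.inr (Or.inr ⟨_, _, LO1_s1 t, Or.inr (by omega)⟩)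
        · rcases Nat.lt_or_ge z (2 * t + 5) with h4 | h4
          · exact Or.inr (Or.inr ⟨_, _, LO1_r0 t (2 * t + 4 - z) (by omega), Or.inr (by omega)⟩)
          · rcases Nat.lt_or_ge z (2 * t + 6) with h5 | h5
            · exact Or.inr (Or.inr ⟨_, _, LO1_s2 t, Or.inr (by omega)⟩)
            · exact Or.inr (Or.inr ⟨_, _, LO1_r1 t (4 * t + 7 - z) (by omega), Or.inl (by omega)⟩)
      · rcases Nat.lt_or_ge z (6 * t + 12) with h3 | h3
        · rcases Nat.lt_or_ge z (4 * t + 9) with h4 | h4
          · exact Or.inr (Or.inr ⟨_, _, LO1_s0 t, Or.inl (by omega)⟩)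
          · rcases Nat.lt_or_ge z (4 * t + 10) with h5 | h5
            · exact Or.inl (by omega)
            · exact Or.inr (Or.inr ⟨_, _, LO1_r2 t (6 * t + 11 - z) (by omega), Or.inl (by omega)⟩)
        · rcases Nat.lt_or_ge z (6 * t + 13) with h4 | h4
          · exact Or.inr (Or.inr ⟨_, _, LO1_s1 t, Or.inl (by omega)⟩)
          · rcases Nat.lt_or_ge z (6 * t + 14) with h5 | h5
            · exact Or.inr (Or.inr ⟨_, _, LO1_s2 t, Or.inl (by omega)⟩)
            · exact Or.inr (Or.inr ⟨_, _, LO1_s3 t, Or.inl (by omega)⟩)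
    · rcases Nat.lt_or_ge z (14 * t + 27) with h2 | h2
      · rcases Nat.lt_or_ge z (12 * t + 23) with h3 | h3
        · rcases Nat.lt_or_ge z (8 * t + 17) with h4 | h4
          · exact Or.inr (Or.inr ⟨_, _, LO1_r5 t (z - (6 * t + 15)) (by omega), Or.inl (by omega)⟩)
          · rcases Nat.lt_or_ge z (12 * t + 22) with h5 | h5
            · exact Or.inr (Or.inr ⟨_, _, LO1_r3 t (12 * t + 21 - z) (by omega), Or.inl (by omega)⟩)
            · exact Or.inr (Or.inr ⟨_, _, LO1_s4 t, Or.inl (by omega)⟩)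
        · rcases Nat.lt_or_ge z (12 * t + 24) with h4 | h4
          · exact Or.inr (Or.inr ⟨_, _, LO1_s5 t, Or.inl (by omega)⟩)
          · rcases Nat.lt_or_ge z (12 * t + 25) with h5 | h5
            · exact Or.inr (Or.inr ⟨_, _, LO1_s6 t, Or.inl (by omega)⟩)
            · exact Or.inr (Or.inr ⟨_, _, LO1_r4 t (14 * t + 26 - z) (by omega), Or.inl (by omega)⟩)
      · rcases Nat.lt_or_ge z (16 * t + 30) with h3 | h3
        · rcases Nat.lt_or_ge z (14 * t + 28) with h4 | h4
          · exact Or.inr (Or.inr ⟨_, _, LO1_s7 t, Or.inl (by omega)⟩)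
          · rcases Nat.lt_or_ge z (14 * t + 29) with h5 | h5
            · exact Or.inr (Or.inr ⟨_, _, LO1_s8 t, Or.inl (by omega)⟩)
            · exact Or.inr (Or.inr ⟨_, _, LO1_r6 t (z - (14 * t + 29)) (by omega), Or.inl (by omega)⟩)
        · rcases Nat.lt_or_ge z (16 * t + 31) with h4 | h4
          · exact Or.inr (Or.inr ⟨_, _, LO1_s9 t, Or.inl (by omega)⟩)
          · rcases Nat.lt_or_ge z (16 * t + 32) with h5 | h5
            · exact Or.inr (Or.inr ⟨_, _, LO1_s8 t, Or.inr (by omega)⟩)
            · exact Or.inr (Or.inr ⟨_, _, LO1_s9 t, Or.inr (by omega)⟩)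
  · rcases Nat.lt_or_ge z (26 * t + 48) with h1 | h1
    · rcases Nat.lt_or_ge z (22 * t + 41) with h2 | h2
      · rcases Nat.lt_or_ge z (20 * t + 37) with h3 | h3
        · rcases Nat.lt_or_ge z (16 * t + 34) with h4 | h4
          · exact Or.inr (Or.inr ⟨_, _, LO1_r1 t ((z - (16 * t + 33)) / 2) (by omega), Or.inr (by omega)⟩)
          · rcases Nat.lt_or_ge z (20 * t + 36) with h5 | h5
            · rcases Nat.mod_two_eq_zero_or_one z with hp | hp
              · exact Or.inr (Or.inr ⟨_, _, LO1_r4 t ((z - (16 * t + 34)) / 2) (by omega), Or.inr (by omega)⟩)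
              · exact Or.inr (Or.inr ⟨_, _, LO1_r1 t ((z - (16 * t + 33)) / 2) (by omega), Or.inr (by omega)⟩)
            · exact Or.inr (Or.inr ⟨_, _, LO1_r4 t ((z - (16 * t + 34)) / 2) (by omega), Or.inr (by omega)⟩)
        · rcases Nat.lt_or_ge z (20 * t + 38) with h4 | h4
          · exact Or.inr (Or.inr ⟨_, _, LO1_s3 t, Or.inr (by omega)⟩)
          · rcases Nat.lt_or_ge z (20 * t + 39) with h5 | h5
            · exact Or.inr (Or.inr ⟨_, _, LO1_s10 t, Or.inl (by omega)⟩)
            · exact Or.inr (Or.inr ⟨_, _, LO1_r5 t (z - (20 * t + 39)) (by omega), Or.inr (by omega)⟩)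
      · rcases Nat.lt_or_ge z (22 * t + 44) with h3 | h3
        · rcases Nat.lt_or_ge z (22 * t + 42) with h4 | h4
          · exact Or.inr (Or.inl (by omega))
          · rcases Nat.lt_or_ge z (22 * t + 43) with h5 | h5
            · exact Or.inr (Or.inr ⟨_, _, LO1_s11 t, Or.inr (by omega)⟩)
            · exact Or.inr (Or.inr ⟨_, _, LO1_s11 t, Or.inl (by omega)⟩)
        · rcases Nat.lt_or_ge z (22 * t + 45) with h4 | h4
          · exact Or.inr (Or.inr ⟨_, _, LO1_r0 t ((z - (22 * t + 44)) / 2) (by omega), Or.inl (by omega)⟩)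
          · rcases Nat.lt_or_ge z (26 * t + 47) with h5 | h5
            · rcases Nat.mod_two_eq_zero_or_one z with hp | hp
              · exact Or.inr (Or.inr ⟨_, _, LO1_r0 t ((z - (22 * t + 44)) / 2) (by omega), Or.inl (by omega)⟩)
              · exact Or.inr (Or.inr ⟨_, _, LO1_r3 t ((z - (22 * t + 45)) / 2) (by omega), Or.inr (by omega)⟩)
            · exact Or.inr (Or.inr ⟨_, _, LO1_r3 t ((z - (22 * t + 45)) / 2) (by omega), Or.inr (by omega)⟩)
    · rcases Nat.lt_or_ge z (30 * t + 55) with h2 | h2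
      · rcases Nat.lt_or_ge z (26 * t + 51) with h3 | h3
        · rcases Nat.lt_or_ge z (26 * t + 49) with h4 | h4
          · exact Or.inr (Or.inr ⟨_, _, LO1_s5 t, Or.inr (by omega)⟩)
          · rcases Nat.lt_or_ge z (26 * t + 50) with h5 | h5
            · exact Or.inr (Or.inr ⟨_, _, LO1_r3 t ((z - (22 * t + 45)) / 2) (by omega), Or.inr (by omega)⟩)
            · exact Or.inr (Or.inr ⟨_, _, LO1_s0 t, Or.inr (by omega)⟩)
        · rcases Nat.lt_or_ge z (26 * t + 52) with h4 | h4
          · exact Or.inr (Or.inr ⟨_, _, LO1_r3 t ((z - (22 * t + 45)) / 2) (by omega), Or.inr (by omega)⟩)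
          · rcases Nat.lt_or_ge z (30 * t + 54) with h5 | h5
            · rcases Nat.mod_two_eq_zero_or_one z with hp | hp
              · exact Or.inr (Or.inr ⟨_, _, LO1_r2 t ((z - (26 * t + 52)) / 2) (by omega), Or.inr (by omega)⟩)
              · exact Or.inr (Or.inr ⟨_, _, LO1_r3 t ((z - (22 * t + 45)) / 2) (by omega), Or.inr (by omega)⟩)
            · exact Or.inr (Or.inr ⟨_, _, LO1_r2 t ((z - (26 * t + 52)) / 2) (by omega), Or.inr (by omega)⟩)
      · rcases Nat.lt_or_ge z (30 * t + 58) with h3 | h3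
        · rcases Nat.lt_or_ge z (30 * t + 56) with h4 | h4
          · exact Or.inr (Or.inr ⟨_, _, LO1_s6 t, Or.inr (by omega)⟩)
          · rcases Nat.lt_or_ge z (30 * t + 57) with h5 | h5
            · exact Or.inr (Or.inr ⟨_, _, LO1_s12 t, Or.inl (by omega)⟩)
            · exact Or.inr (Or.inr ⟨_, _, LO1_s7 t, Or.inr (by omega)⟩)
        · rcases Nat.lt_or_ge z (32 * t + 59) with h4 | h4
          · exact Or.inr (Or.inr ⟨_, _, LO1_r6 t (z - (30 * t + 58)) (by omega), Or.inr (by omega)⟩)
          · rcases Nat.lt_or_ge z (32 * t + 60) with h5 | h5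
            · exact Or.inr (Or.inr ⟨_, _, LO1_s10 t, Or.inr (by omega)⟩)
            · exact Or.inr (Or.inr ⟨_, _, LO1_s4 t, Or.inr (by omega)⟩)

theorem LO1_sums (t z : ℕ) (z1 : 6 * t + 14 ≤ z) (z2 : z ≤ 54 * t + 101) : 4 * t + 9 + (22 * t + 41) = z ∨
    ∃ x y, (x, y) ∈ LO1 t ∧ (4 * t + 9 + x = z ∨ 22 * t + 41 + y = z ∨ x + y = z) := by
  rcases Nat.lt_or_ge z (30 * t + 59) with h0 | h0
  · rcases Nat.lt_or_ge z (18 * t + 38) with h1 | h1
    · rcases Nat.lt_or_ge z (10 * t + 24) with h2 | h2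
      · rcases Nat.lt_or_ge z (8 * t + 19) with h3 | h3
        · rcases Nat.lt_or_ge z (8 * t + 17) with h4 | h4
          · rcases Nat.lt_or_ge z (6 * t + 15) with h5 | h5
            · exact Or.inr ⟨_, _, LO1_s1 t, Or.inr (Or.inr (by omega))⟩
            · exact Or.inr ⟨_, _, LO1_r1 t (8 * t + 16 - z) (by omega), Or.inl (by omega)⟩
          · rcases Nat.lt_or_ge z (8 * t + 18) with h5 | h5
            · exact Or.inr ⟨_, _, LO1_s0 t, Or.inl (by omega)⟩
            · exact Or.inr ⟨_, _, LO1_s2 t, Or.inr (Or.inr (by omega))⟩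
        · rcases Nat.lt_or_ge z (10 * t + 22) with h4 | h4
          · rcases Nat.lt_or_ge z (10 * t + 21) with h5 | h5
            · exact Or.inr ⟨_, _, LO1_r2 t (10 * t + 20 - z) (by omega), Or.inl (by omega)⟩
            · exact Or.inr ⟨_, _, LO1_s1 t, Or.inl (by omega)⟩
          · rcases Nat.lt_or_ge z (10 * t + 23) with h5 | h5
            · exact Or.inr ⟨_, _, LO1_s2 t, Or.inl (by omega)⟩
            · exact Or.inr ⟨_, _, LO1_s3 t, Or.inl (by omega)⟩
      · rcases Nat.lt_or_ge z (16 * t + 33) with h3 | h3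
        · rcases Nat.lt_or_ge z (16 * t + 31) with h4 | h4
          · rcases Nat.lt_or_ge z (12 * t + 26) with h5 | h5
            · exact Or.inr ⟨_, _, LO1_r5 t (z - (10 * t + 24)) (by omega), Or.inl (by omega)⟩
            · exact Or.inr ⟨_, _, LO1_r3 t (16 * t + 30 - z) (by omega), Or.inl (by omega)⟩
          · rcases Nat.lt_or_ge z (16 * t + 32) with h5 | h5
            · exact Or.inr ⟨_, _, LO1_s4 t, Or.inl (by omega)⟩
            · exact Or.inr ⟨_, _, LO1_s5 t, Or.inl (by omega)⟩
        · rcases Nat.lt_or_ge z (18 * t + 36) with h4 | h4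
          · rcases Nat.lt_or_ge z (16 * t + 34) with h5 | h5
            · exact Or.inr ⟨_, _, LO1_s6 t, Or.inl (by omega)⟩
            · exact Or.inr ⟨_, _, LO1_r4 t (18 * t + 35 - z) (by omega), Or.inl (by omega)⟩
          · rcases Nat.lt_or_ge z (18 * t + 37) with h5 | h5
            · exact Or.inr ⟨_, _, LO1_s7 t, Or.inl (by omega)⟩
            · exact Or.inr ⟨_, _, LO1_s8 t, Or.inl (by omega)⟩
    · rcases Nat.lt_or_ge z (24 * t + 48) with h2 | h2
      · rcases Nat.lt_or_ge z (22 * t + 43) with h3 | h3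
        · rcases Nat.lt_or_ge z (20 * t + 40) with h4 | h4
          · rcases Nat.lt_or_ge z (20 * t + 39) with h5 | h5
            · exact Or.inr ⟨_, _, LO1_r6 t (z - (18 * t + 38)) (by omega), Or.inl (by omega)⟩
            · exact Or.inr ⟨_, _, LO1_s9 t, Or.inl (by omega)⟩
          · rcases Nat.lt_or_ge z (22 * t + 42) with h5 | h5
            · exact Or.inr ⟨_, _, LO1_r1 t (z - (20 * t + 40)) (by omega), Or.inr (Or.inr (by omega))⟩
            · exact Or.inr ⟨_, _, LO1_s12 t, Or.inr (Or.inl (by omega))⟩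
        · rcases Nat.lt_or_ge z (24 * t + 46) with h4 | h4
          · rcases Nat.lt_or_ge z (22 * t + 44) with h5 | h5
            · exact Or.inr ⟨_, _, LO1_s1 t, Or.inr (Or.inl (by omega))⟩
            · exact Or.inr ⟨_, _, LO1_r0 t (24 * t + 45 - z) (by omega), Or.inr (Or.inl (by omega))⟩
          · rcases Nat.lt_or_ge z (24 * t + 47) with h5 | h5
            · exact Or.inr ⟨_, _, LO1_s2 t, Or.inr (Or.inl (by omega))⟩
            · exact Or.inr ⟨_, _, LO1_s10 t, Or.inl (by omega)⟩
      · rcases Nat.lt_or_ge z (26 * t + 53) with h3 | h3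
        · rcases Nat.lt_or_ge z (26 * t + 51) with h4 | h4
          · rcases Nat.lt_or_ge z (26 * t + 50) with h5 | h5
            · exact Or.inr ⟨_, _, LO1_r0 t (z - (24 * t + 48)) (by omega), Or.inr (Or.inr (by omega))⟩
            · exact Or.inl (by omega)
          · rcases Nat.lt_or_ge z (26 * t + 52) with h5 | h5
            · exact Or.inr ⟨_, _, LO1_s3 t, Or.inr (Or.inr (by omega))⟩
            · exact Or.inr ⟨_, _, LO1_s11 t, Or.inl (by omega)⟩
        · rcases Nat.lt_or_ge z (30 * t + 56) with h4 | h4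
          · rcases Nat.lt_or_ge z (26 * t + 54) with h5 | h5
            · exact Or.inr ⟨_, _, LO1_r0 t ((z - (26 * t + 53)) / 2) (by omega), Or.inl (by omega)⟩
            · rcases Nat.mod_two_eq_zero_or_one z with hp | hp
              · exact Or.inr ⟨_, _, LO1_r5 t ((z - (26 * t + 54)) / 2) (by omega), Or.inr (Or.inr (by omega))⟩
              · exact Or.inr ⟨_, _, LO1_r0 t ((z - (26 * t + 53)) / 2) (by omega), Or.inl (by omega)⟩
          · rcases Nat.lt_or_ge z (30 * t + 57) with h5 | h5
            · exact Or.inr ⟨_, _, LO1_r5 t ((z - (26 * t + 54)) / 2) (by omega), Or.inr (Or.inr (by omega))⟩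
            · rcases Nat.lt_or_ge z (30 * t + 58) with h6 | h6
              · exact Or.inr ⟨_, _, LO1_s12 t, Or.inr (Or.inr (by omega))⟩
              · exact Or.inr ⟨_, _, LO1_s0 t, Or.inr (Or.inr (by omega))⟩
  · rcases Nat.lt_or_ge z (44 * t + 84) with h1 | h1
    · rcases Nat.lt_or_ge z (38 * t + 73) with h2 | h2
      · rcases Nat.lt_or_ge z (34 * t + 65) with h3 | h3
        · rcases Nat.lt_or_ge z (32 * t + 62) with h4 | h4
          · rcases Nat.lt_or_ge z (30 * t + 60) with h5 | h5
            · exact Or.inr ⟨_, _, LO1_s8 t, Or.inr (Or.inr (by omega))⟩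
            · exact Or.inr ⟨_, _, LO1_r4 t (z - (30 * t + 60)) (by omega), Or.inr (Or.inr (by omega))⟩
          · rcases Nat.lt_or_ge z (32 * t + 63) with h5 | h5
            · exact Or.inr ⟨_, _, LO1_s9 t, Or.inr (Or.inr (by omega))⟩
            · exact Or.inr ⟨_, _, LO1_r2 t (z - (32 * t + 63)) (by omega), Or.inr (Or.inr (by omega))⟩
        · rcases Nat.lt_or_ge z (38 * t + 71) with h4 | h4
          · rcases Nat.lt_or_ge z (34 * t + 66) with h5 | h5
            · exact Or.inr ⟨_, _, LO1_s12 t, Or.inl (by omega)⟩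
            · exact Or.inr ⟨_, _, LO1_r3 t (z - (34 * t + 66)) (by omega), Or.inr (Or.inr (by omega))⟩
          · rcases Nat.lt_or_ge z (38 * t + 72) with h5 | h5
            · exact Or.inr ⟨_, _, LO1_s5 t, Or.inr (Or.inr (by omega))⟩
            · exact Or.inr ⟨_, _, LO1_s8 t, Or.inr (Or.inl (by omega))⟩
      · rcases Nat.lt_or_ge z (42 * t + 78) with h3 | h3
        · rcases Nat.lt_or_ge z (38 * t + 75) with h4 | h4
          · rcases Nat.lt_or_ge z (38 * t + 74) with h5 | h5
            · exact Or.inr ⟨_, _, LO1_s9 t, Or.inr (Or.inl (by omega))⟩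
            · exact Or.inr ⟨_, _, LO1_r1 t ((z - (38 * t + 74)) / 2) (by omega), Or.inr (Or.inl (by omega))⟩
          · rcases Nat.lt_or_ge z (42 * t + 77) with h5 | h5
            · rcases Nat.mod_two_eq_zero_or_one z with hp | hp
              · exact Or.inr ⟨_, _, LO1_r1 t ((z - (38 * t + 74)) / 2) (by omega), Or.inr (Or.inl (by omega))⟩
              · exact Or.inr ⟨_, _, LO1_r4 t ((z - (38 * t + 75)) / 2) (by omega), Or.inr (Or.inl (by omega))⟩
            · exact Or.inr ⟨_, _, LO1_r4 t ((z - (38 * t + 75)) / 2) (by omega), Or.inr (Or.inl (by omega))⟩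
        · rcases Nat.lt_or_ge z (42 * t + 80) with h4 | h4
          · rcases Nat.lt_or_ge z (42 * t + 79) with h5 | h5
            · exact Or.inr ⟨_, _, LO1_s3 t, Or.inr (Or.inl (by omega))⟩
            · exact Or.inr ⟨_, _, LO1_s6 t, Or.inr (Or.inr (by omega))⟩
          · rcases Nat.lt_or_ge z (44 * t + 82) with h5 | h5
            · exact Or.inr ⟨_, _, LO1_r5 t (z - (42 * t + 80)) (by omega), Or.inr (Or.inl (by omega))⟩
            · rcases Nat.lt_or_ge z (44 * t + 83) with h6 | h6
              · exact Or.inr ⟨_, _, LO1_s4 t, Or.inr (Or.inr (by omega))⟩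
              · exact Or.inr ⟨_, _, LO1_s11 t, Or.inr (Or.inl (by omega))⟩
    · rcases Nat.lt_or_ge z (48 * t + 92) with h2 | h2
      · rcases Nat.lt_or_ge z (48 * t + 88) with h3 | h3
        · rcases Nat.lt_or_ge z (44 * t + 86) with h4 | h4
          · rcases Nat.lt_or_ge z (44 * t + 85) with h5 | h5
            · exact Or.inr ⟨_, _, LO1_s7 t, Or.inr (Or.inr (by omega))⟩
            · exact Or.inr ⟨_, _, LO1_s11 t, Or.inr (Or.inr (by omega))⟩
          · rcases Nat.lt_or_ge z (44 * t + 87) with h5 | h5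
            · exact Or.inr ⟨_, _, LO1_r3 t ((z - (44 * t + 86)) / 2) (by omega), Or.inr (Or.inl (by omega))⟩
            · rcases Nat.mod_two_eq_zero_or_one z with hp | hp
              · exact Or.inr ⟨_, _, LO1_r3 t ((z - (44 * t + 86)) / 2) (by omega), Or.inr (Or.inl (by omega))⟩
              · exact Or.inr ⟨_, _, LO1_r6 t ((z - (44 * t + 87)) / 2) (by omega), Or.inr (Or.inr (by omega))⟩
        · rcases Nat.lt_or_ge z (48 * t + 90) with h4 | h4
          · rcases Nat.lt_or_ge z (48 * t + 89) with h5 | h5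
            · exact Or.inr ⟨_, _, LO1_r3 t ((z - (44 * t + 86)) / 2) (by omega), Or.inr (Or.inl (by omega))⟩
            · exact Or.inr ⟨_, _, LO1_s5 t, Or.inr (Or.inl (by omega))⟩
          · rcases Nat.lt_or_ge z (48 * t + 91) with h5 | h5
            · exact Or.inr ⟨_, _, LO1_r3 t ((z - (44 * t + 86)) / 2) (by omega), Or.inr (Or.inl (by omega))⟩
            · exact Or.inr ⟨_, _, LO1_s0 t, Or.inr (Or.inl (by omega))⟩
      · rcases Nat.lt_or_ge z (52 * t + 97) with h3 | h3
        · rcases Nat.lt_or_ge z (52 * t + 95) with h4 | h4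
          · rcases Nat.lt_or_ge z (48 * t + 93) with h5 | h5
            · exact Or.inr ⟨_, _, LO1_r3 t ((z - (44 * t + 86)) / 2) (by omega), Or.inr (Or.inl (by omega))⟩
            · rcases Nat.mod_two_eq_zero_or_one z with hp | hp
              · exact Or.inr ⟨_, _, LO1_r3 t ((z - (44 * t + 86)) / 2) (by omega), Or.inr (Or.inl (by omega))⟩
              · exact Or.inr ⟨_, _, LO1_r2 t ((z - (48 * t + 93)) / 2) (by omega), Or.inr (Or.inl (by omega))⟩
          · rcases Nat.lt_or_ge z (52 * t + 96) with h5 | h5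
            · exact Or.inr ⟨_, _, LO1_r2 t ((z - (48 * t + 93)) / 2) (by omega), Or.inr (Or.inl (by omega))⟩
            · exact Or.inr ⟨_, _, LO1_s6 t, Or.inr (Or.inl (by omega))⟩
        · rcases Nat.lt_or_ge z (52 * t + 99) with h4 | h4
          · rcases Nat.lt_or_ge z (52 * t + 98) with h5 | h5
            · exact Or.inr ⟨_, _, LO1_s10 t, Or.inr (Or.inr (by omega))⟩
            · exact Or.inr ⟨_, _, LO1_s7 t, Or.inr (Or.inl (by omega))⟩
          · rcases Nat.lt_or_ge z (54 * t + 100) with h5 | h5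
            · exact Or.inr ⟨_, _, LO1_r6 t (z - (52 * t + 99)) (by omega), Or.inr (Or.inl (by omega))⟩
            · rcases Nat.lt_or_ge z (54 * t + 101) with h6 | h6
              · exact Or.inr ⟨_, _, LO1_s10 t, Or.inr (Or.inl (by omega))⟩
              · exact Or.inr ⟨_, _, LO1_s4 t, Or.inr (Or.inl (by omega))⟩

theorem LO1_sem (t : ℕ) : IsSuperEdgeMagic (book (16 * t + 29)) :=
  book_sem _ (4 * t + 9) (22 * t + 41) (6 * t + 14) (LO1 t) (LO1_len t)
    (fun z h1 h2 => LO1_labels t z h1 (by omega))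
    (fun z h1 h2 => LO1_sums t z h1 (by omega))

end Pool.Agent.V1149.Books
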